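import Pool.Agent.Helper132.H3Refl.Defs

set_option autoImplicit false
set_option linter.unusedVariables false
open scoped ENNReal
noncomputable section
namespace Pool.Agent.Helper132.H3Refl

theorem a1_cs (x y : V) : (x 1 * y 1 + x 2 * y 2 + x 3 * y 3) ^ 2 ≤
    (x 1 ^ 2 + x 2 ^ 2 + x 3 ^ 2) * (y 1 ^ 2 + y 2 ^ 2 + y 3 ^ 2) := by
  nlinarith [sq_nonneg (x 1 * y 2 - x 2 * y 1), sq_nonneg (x 1 * y 3 - x 3 * y 1),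
    sq_nonneg (x 2 * y 3 - x 3 * y 2)]

theorem orth_nonneg {y u : V} (hy : J y y < 0) (h : J y u = 0) : 0 ≤ J u u ∧ (J u u = 0 → u = 0) := by
  have hcs := a1_cs y u
  simp only [J] at hy h ⊢
  have h1 : y 1 * u 1 + y 2 * u 2 + y 3 * u 3 = y 0 * u 0 := by linarith
  rw [h1] at hcs
  have hS : 0 ≤ y 1 ^ 2 + y 2 ^ 2 + y 3 ^ 2 := by positivity
  have hT : 0 ≤ u 1 ^ 2 + u 2 ^ 2 + u 3 ^ 2 := by positivity
  have hy0 : 0 < y 0 ^ 2 := by nlinarith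
  have h2 : y 0 ^ 2 * u 0 ^ 2 ≤ y 0 ^ 2 * (u 1 ^ 2 + u 2 ^ 2 + u 3 ^ 2) := by
    nlinarith
  have h3 : u 0 ^ 2 ≤ u 1 ^ 2 + u 2 ^ 2 + u 3 ^ 2 := le_of_mul_le_mul_left h2 hy0
  refine ⟨by nlinarith, fun h0 => ?_⟩
  have h4 : u 0 ^ 2 = u 1 ^ 2 + u 2 ^ 2 + u 3 ^ 2 := by nlinarith
  have h5 : (u 1 ^ 2 + u 2 ^ 2 + u 3 ^ 2) = 0 := by
    by_contra hne
    have hpos : 0 < u 1 ^ 2 + u 2 ^ 2 + u 3 ^ 2 := lt_of_le_of_ne hT (Ne.symm hne)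
    nlinarith
  have e1 : u 1 = 0 := by nlinarith [sq_nonneg (u 1), sq_nonneg (u 2), sq_nonneg (u 3)]
  have e2 : u 2 = 0 := by nlinarith [sq_nonneg (u 1), sq_nonneg (u 2), sq_nonneg (u 3)]
  have e3 : u 3 = 0 := by nlinarith [sq_nonneg (u 1), sq_nonneg (u 2), sq_nonneg (u 3)]
  have e0 : u 0 = 0 := by
    rw [h5] at h4
    nlinarith
  ext i
  fin_cases i <;> simp [e0, e1, e2, e3]

theorem causal_neg {a b : V} (ha : J a a ≤ 0) (ha0 : 0 < a 0) (hb : J b b < 0) (hb0 : 0 < b 0) :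
    J a b < 0 := by
  have hcs := a1_cs a b
  simp only [J] at ha hb ⊢
  have h1 : a 1 ^ 2 + a 2 ^ 2 + a 3 ^ 2 ≤ a 0 ^ 2 := by nlinarith
  have h2 : b 1 ^ 2 + b 2 ^ 2 + b 3 ^ 2 < b 0 ^ 2 := by nlinarith
  have h3 : (a 1 ^ 2 + a 2 ^ 2 + a 3 ^ 2) * (b 1 ^ 2 + b 2 ^ 2 + b 3 ^ 2) < a 0 ^ 2 * b 0 ^ 2 := by
    have hA : 0 < a 0 ^ 2 := by positivity
    have hB : 0 ≤ b 1 ^ 2 + b 2 ^ 2 + b 3 ^ 2 := by positivity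
    calc (a 1 ^ 2 + a 2 ^ 2 + a 3 ^ 2) * (b 1 ^ 2 + b 2 ^ 2 + b 3 ^ 2)
        ≤ a 0 ^ 2 * (b 1 ^ 2 + b 2 ^ 2 + b 3 ^ 2) := mul_le_mul_of_nonneg_right h1 hB
      _ < a 0 ^ 2 * b 0 ^ 2 := mul_lt_mul_of_pos_left h2 hA
  have h4 : (a 1 * b 1 + a 2 * b 2 + a 3 * b 3) ^ 2 < (a 0 * b 0) ^ 2 := by
    rw [mul_pow]; linarith
  have h5 : 0 < a 0 * b 0 := mul_pos ha0 hb0
  have h6 := abs_lt_of_sq_lt_sq h4 h5.le
  have h7 := (abs_lt.mp h6).2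
  linarith

theorem null_prop {v w : V} (hv : J v v = 0) (hv0 : 0 < v 0) (hw : J w w = 0) (hw0 : 0 < w 0)
    (h : J v w = 0) : ∃ r : ℝ, 0 < r ∧ w = r • v := by
  refine ⟨w 0 / v 0, div_pos hw0 hv0, ?_⟩
  simp only [J] at hv hw h
  have key : (v 0 * w 1 - w 0 * v 1) ^ 2 + (v 0 * w 2 - w 0 * v 2) ^ 2 + (v 0 * w 3 - w 0 * v 3) ^ 2 = 0 := by
    have : (v 0 * w 1 - w 0 * v 1) ^ 2 + (v 0 * w 2 - w 0 * v 2) ^ 2 + (v 0 * w 3 - w 0 * v 3) ^ 2 =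
      v 0 ^ 2 * (-(w 0 * w 0) + w 1 * w 1 + w 2 * w 2 + w 3 * w 3) +
      w 0 ^ 2 * (-(v 0 * v 0) + v 1 * v 1 + v 2 * v 2 + v 3 * v 3) -
      2 * v 0 * w 0 * (-(v 0 * w 0) + v 1 * w 1 + v 2 * w 2 + v 3 * w 3) := by ring
    rw [this, hv, hw, h]; ring
  have k1 : v 0 * w 1 - w 0 * v 1 = 0 := by
    nlinarith [sq_nonneg (v 0 * w 1 - w 0 * v 1), sq_nonneg (v 0 * w 2 - w 0 * v 2),
      sq_nonneg (v 0 * w 3 - w 0 * v 3)]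
  have k2 : v 0 * w 2 - w 0 * v 2 = 0 := by
    nlinarith [sq_nonneg (v 0 * w 1 - w 0 * v 1), sq_nonneg (v 0 * w 2 - w 0 * v 2),
      sq_nonneg (v 0 * w 3 - w 0 * v 3)]
  have k3 : v 0 * w 3 - w 0 * v 3 = 0 := by
    nlinarith [sq_nonneg (v 0 * w 1 - w 0 * v 1), sq_nonneg (v 0 * w 2 - w 0 * v 2),
      sq_nonneg (v 0 * w 3 - w 0 * v 3)]
  have hv0' := hv0.ne'
  ext i
  fin_cases i
  · show w 0 = w 0 / v 0 * v 0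
    field_simp
  · show w 1 = w 0 / v 0 * v 1
    field_simp; linarith
  · show w 2 = w 0 / v 0 * v 2
    field_simp; linarith
  · show w 3 = w 0 / v 0 * v 3
    field_simp; linarith

end Pool.Agent.Helper132.H3Refl
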