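import Pool.Agent.Helper132.H3Refl.A1

set_option autoImplicit false
set_option linter.unusedVariables false
open scoped ENNReal
noncomputable section
namespace Pool.Agent.Helper132.H3Refl

theorem causal_ineq {a b c : V} (ha : J a a ≤ 0) (ha0 : 0 < a 0) (hc : J c c ≤ 0) (hc0 : 0 < c 0)
    (hb : b ∈ H3) : -(J a c) ≤ 2 * (J a b * J c b) := by
  have hbb : J b b = -1 := hb.1
  have hbn : J b b < 0 := by rw [hbb]; norm_num
  have h1 : J a b < 0 := causal_neg ha ha0 hbn hb.2
  have h2 : J c b < 0 := causal_neg hc hc0 hbn hb.2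
  obtain ⟨al, hal⟩ : ∃ al, al = -J a b := ⟨_, rfl⟩
  obtain ⟨ga, hga⟩ : ∃ ga, ga = -J c b := ⟨_, rfl⟩
  have hal0 : 0 < al := by rw [hal]; linarith
  have hga0 : 0 < ga := by rw [hga]; linarith
  have e1 : J a b = -al := by rw [hal]; ring
  have e2 : J c b = -ga := by rw [hga]; ring
  obtain ⟨u, hu⟩ : ∃ u, u = a - al • b := ⟨_, rfl⟩
  obtain ⟨w, hw⟩ : ∃ w, w = c - ga • b := ⟨_, rfl⟩
  have e1' : J b a = -al := by rw [J_symm, e1]
  have e2' : J b c = -ga := by rw [J_symm, e2]
  have hub : J b u = 0 := by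
    rw [hu, J_sub_right, J_smul_right, hbb, e1']; ring
  have hwb : J b w = 0 := by
    rw [hw, J_sub_right, J_smul_right, hbb, e2']; ring
  have huu : J u u = J a a + al ^ 2 := by
    rw [hu, J_sub_left, J_sub_right, J_sub_right, J_smul_left, J_smul_right, J_smul_left,
      J_smul_right, hbb, e1, e1']; ring
  have hww : J w w = J c c + ga ^ 2 := by
    rw [hw, J_sub_left, J_sub_right, J_sub_right, J_smul_left, J_smul_right, J_smul_left,
      J_smul_right, hbb, e2, e2']; ring
  have huw : J u w = J a c + al * ga := by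
    rw [hu, hw, J_sub_left, J_sub_right, J_sub_right, J_smul_left, J_smul_right, J_smul_left,
      J_smul_right, hbb, e1, e2']; ring
  have horth : J b (ga • u + al • w) = 0 := by
    rw [J_add_right, J_smul_right, J_smul_right, hub, hwb]; ring
  have hpos := (orth_nonneg hbn horth).1
  have hexp : J (ga • u + al • w) (ga • u + al • w) =
      ga ^ 2 * J u u + 2 * (al * ga) * J u w + al ^ 2 * J w w := by
    rw [J_add_left, J_add_right, J_add_right, J_smul_left, J_smul_left, J_smul_left, J_smul_left,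
      J_smul_right, J_smul_right, J_smul_right, J_smul_right, J_symm w u]; ring
  rw [hexp, huu, hww, huw] at hpos
  have h3 : 0 ≤ ga ^ 2 * (-J a a) := mul_nonneg (sq_nonneg _) (by linarith)
  have h4 : 0 ≤ al ^ 2 * (-J c c) := mul_nonneg (sq_nonneg _) (by linarith)
  have h5 : 0 ≤ (al * ga) * (J a c + 2 * (al * ga)) := by nlinarith
  have h6 : 0 < al * ga := mul_pos hal0 hga0
  have h7 : 0 ≤ J a c + 2 * (al * ga) := nonneg_of_mul_nonneg_right h5 h6
  rw [e1, e2]
  linarith

/-- isometries map forward causal vectors to forward causal vectors -/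
theorem isom_fwd {g : V ≃ₗ[ℝ] V} (hg : g ∈ IsomH3) {v : V} (hv : J v v ≤ 0) (hv0 : 0 < v 0) :
    0 < (g v) 0 := by
  obtain ⟨x, hx⟩ : ∃ x : V, x = fun i => if i = 0 then 1 else 0 := ⟨_, rfl⟩
  have hxH : x ∈ H3 := by
    refine ⟨?_, ?_⟩
    · rw [hx]; simp [J]
    · rw [hx]; simp
  have hxn : J x x < 0 := by rw [hxH.1]; norm_num
  have h1 : J v x < 0 := causal_neg hv hv0 hxn hxH.2
  have h2 : J (g v) (g x) < 0 := by rw [hg.1]; exact h1
  have h3 : g x ∈ H3 := hg.2 x hxH
  have h3n : J (g x) (g x) < 0 := by rw [h3.1]; norm_num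
  have h4 : J (g v) (g v) ≤ 0 := by rw [hg.1]; exact hv
  by_contra hcon
  push Not at hcon
  have h5 : J (-(g v)) (-(g v)) ≤ 0 := by
    rw [J_neg_left, J_neg_right]; linarith
  rcases lt_or_eq_of_le hcon with h | h
  · have h6 : 0 < (-(g v)) 0 := by
      show 0 < -((g v) 0)
      linarith
    have h7 := causal_neg h5 h6 h3n h3.2
    rw [J_neg_left] at h7
    linarith
  · have h6 : (g v) 1 * (g v) 1 + (g v) 2 * (g v) 2 + (g v) 3 * (g v) 3 ≤ 0 := by
      simp only [J] at h4
      rw [h] at h4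
      linarith
    have q1 := mul_self_nonneg ((g v) 1)
    have q2 := mul_self_nonneg ((g v) 2)
    have q3 := mul_self_nonneg ((g v) 3)
    have z1 : (g v) 1 = 0 := mul_self_eq_zero.mp (by linarith)
    have z2 : (g v) 2 = 0 := mul_self_eq_zero.mp (by linarith)
    have z3 : (g v) 3 = 0 := mul_self_eq_zero.mp (by linarith)
    have : J (g v) (g x) = 0 := by
      simp only [J]
      rw [h, z1, z2, z3]; ring
    linarith

end Pool.Agent.Helper132.H3Refl
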