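import Pool.Agent.Helper132.H3Refl.Defs

set_option autoImplicit false
set_option linter.unusedVariables false
open scoped ENNReal
noncomputable section
namespace Pool.Agent.Helper132.H3Refl

/-- admissible pair of walls: the angle is `π/2, π/3, π/4` or the planes do not meet -/
def AngleOK (a b : V) : Prop :=
  J a b ≤ 0 ∧ (J a b = 0 ∨ 4 * (J a b) ^ 2 = J a a * J b b ∨ 2 * (J a b) ^ 2 = J a a * J b b ∨
    J a a * J b b ≤ (J a b) ^ 2)

end Pool.Agent.Helper132.H3Refl
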