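import Pool.Agent.Helper132.H3Refl.A1
import Pool.Agent.Helper132.H3Refl.A2

set_option autoImplicit false
set_option linter.unusedVariables false
open scoped ENNReal
noncomputable section
namespace Pool.Agent.Helper132.H3Refl

theorem J_single_zero (b : V) : J (Pi.single 0 1) b = -b 0 := by
  simp [J]

theorem vec_bdd (b : V) (hb : b ∈ H3) (C : ℝ) :
    ∃ R : ℝ, 0 < R ∧ ∀ x : V, J x x ≤ 0 → 0 < x 0 → -(J x b) ≤ C → ∀ i, |x i| ≤ R := by
  have hb0 : 0 < b 0 := hb.2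
  refine ⟨2 * (|C| * b 0) + 1, by positivity, ?_⟩
  intro x hx hx0 hC i
  have hbb : J b b < 0 := by rw [hb.1]; norm_num
  have h1 : -(J x (Pi.single 0 1)) ≤ 2 * (J x b * J (Pi.single 0 1) b) :=
    causal_ineq hx hx0 (by rw [J_single_zero]; simp) (by simp) hb
  rw [J_symm x (Pi.single 0 1), J_single_zero, J_single_zero, neg_neg] at h1
  have h2 : J x b < 0 := causal_neg hx hx0 hbb hb0
  have h3 : -(J x b) ≤ |C| := hC.trans (le_abs_self _)
  have h4 : -(J x b) * b 0 ≤ |C| * b 0 := mul_le_mul_of_nonneg_right h3 hb0.le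
  have h5 : x 0 ≤ 2 * (|C| * b 0) := by linarith
  have h6 : x 1 * x 1 + x 2 * x 2 + x 3 * x 3 ≤ x 0 * x 0 := by
    have h7 := hx
    simp only [J] at h7
    linarith
  have h8 : (x i) ^ 2 ≤ (x 0) ^ 2 := by
    fin_cases i
    · exact le_rfl
    · show (x 1) ^ 2 ≤ (x 0) ^ 2
      nlinarith [mul_self_nonneg (x 2), mul_self_nonneg (x 3)]
    · show (x 2) ^ 2 ≤ (x 0) ^ 2
      nlinarith [mul_self_nonneg (x 1), mul_self_nonneg (x 3)]
    · show (x 3) ^ 2 ≤ (x 0) ^ 2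
      nlinarith [mul_self_nonneg (x 1), mul_self_nonneg (x 2)]
  have h9 : |x i| ≤ x 0 := abs_le_of_sq_le_sq h8 hx0.le
  linarith

theorem fwd_bdd (x b : V) (hx : x ∈ H3) (hb : b ∈ H3) (C : ℝ) (u : V) (hu : J u u ≤ 0)
    (hu0 : 0 < u 0) :
    ∃ R : ℝ, ∀ g ∈ IsomH3, -(J (g x) b) ≤ C → ∀ i, |g u i| ≤ R := by
  have hb0 : 0 < b 0 := hb.2
  have hbb : J b b ≤ 0 := by rw [hb.1]; norm_num
  have hxx : J x x < 0 := by rw [hx.1]; norm_num
  obtain ⟨R, hR, hRb⟩ := vec_bdd b hb (2 * (-(J u x) * C))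
  refine ⟨R, fun g hg hC i => ?_⟩
  have hJ := hg.1
  refine hRb (g u) (by rw [hJ]; exact hu) (isom_fwd hg hu hu0) ?_ i
  have h1 : -(J (g u) b) ≤ 2 * (J (g u) (g x) * J b (g x)) :=
    causal_ineq (by rw [hJ]; exact hu) (isom_fwd hg hu hu0) hbb hb0 (hg.2 x hx)
  rw [hJ, J_symm b (g x)] at h1
  have h2 : J u x < 0 := causal_neg hu hu0 hxx hx.2
  have h3 : -(J u x) * -(J (g x) b) ≤ -(J u x) * C :=
    mul_le_mul_of_nonneg_left hC (by linarith)
  linarith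

theorem isom_bdd (x b : V) (hx : x ∈ H3) (hb : b ∈ H3) (C : ℝ) :
    ∃ R : ℝ, ∀ g ∈ IsomH3, -(J (g x) b) ≤ C → bdd R g := by
  obtain ⟨R0, hR0⟩ := fwd_bdd x b hx hb C (Pi.single 0 1) (by rw [J_single_zero]; simp) (by simp)
  have hex : ∀ i : Fin 4, ∃ R : ℝ, ∀ g ∈ IsomH3, -(J (g x) b) ≤ C →
      ∀ j, |g (Pi.single i 1) j| ≤ R := by
    intro i
    obtain ⟨R1, hR1⟩ := fwd_bdd x b hx hb C ((2 : ℝ) • (Pi.single 0 1 : V) + Pi.single i 1)
      (by fin_cases i <;> simp [J] <;> norm_num) (by fin_cases i <;> simp <;> norm_num)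
    refine ⟨R1 + 2 * R0, fun g hg hC j => ?_⟩
    have h1 := hR1 g hg hC j
    have h0 := hR0 g hg hC j
    have e : g (Pi.single i 1) =
        g ((2 : ℝ) • (Pi.single 0 1 : V) + Pi.single i 1) - (2 : ℝ) • g (Pi.single 0 1) := by
      rw [map_add, map_smul]
      abel
    rw [e, Pi.sub_apply, Pi.smul_apply, smul_eq_mul]
    calc |g ((2 : ℝ) • (Pi.single 0 1 : V) + Pi.single i 1) j - 2 * g (Pi.single 0 1) j|
        ≤ |g ((2 : ℝ) • (Pi.single 0 1 : V) + Pi.single i 1) j| + |2 * g (Pi.single 0 1) j| :=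
          abs_sub _ _
      _ ≤ R1 + 2 * R0 := by
          rw [abs_mul, abs_two]
          linarith
  choose R hR using hex
  refine ⟨∑ i, |R i|, fun g hg hC i j => ?_⟩
  refine (hR i g hg hC j).trans ((le_abs_self _).trans ?_)
  exact Finset.single_le_sum (f := fun i => |R i|) (fun k _ => abs_nonneg _) (Finset.mem_univ i)

end Pool.Agent.Helper132.H3Refl
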