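import Pool.Agent.Helper132.H3Refl.A1
import Pool.Agent.Helper132.H3Refl.A2
import Pool.Agent.Helper132.H3Refl.B1

set_option autoImplicit false
set_option linter.unusedVariables false
open scoped ENNReal
noncomputable section
namespace Pool.Agent.Helper132.H3Refl

theorem abs_coord_9833 (x : V) (l : Fin 4) : |x l| = |J x (Pi.single l 1)| := by
  fin_cases l
  · simp [J, abs_neg]
  · simp [J]
  · simp [J]
  · simp [J]

theorem J_bound_9833 (x y : V) (a b : ℝ) (ha : 0 ≤ a) (hx : ∀ i, |x i| ≤ a)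
    (hy : ∀ i, |y i| ≤ b) : |J x y| ≤ 4 * a * b := by
  have h : ∀ i, |x i * y i| ≤ a * b := fun i => by
    rw [abs_mul]
    exact mul_le_mul (hx i) (hy i) (abs_nonneg _) ha
  have h0 := abs_le.1 (h 0)
  have h1 := abs_le.1 (h 1)
  have h2 := abs_le.1 (h 2)
  have h3 := abs_le.1 (h 3)
  rw [abs_le]
  unfold J
  constructor <;> linarith [h0.1, h0.2, h1.1, h1.2, h2.1, h2.2, h3.1, h3.2]

theorem discr_finite {M : Subgroup (V ≃ₗ[ℝ] V)} (hM : M ≤ IsomH3) (hd : Discr M) (R : ℝ) :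
    {g | g ∈ M ∧ bdd R g}.Finite := by
  obtain ⟨ε, hε, hdis⟩ := hd
  by_contra hinf
  have hinf' : {g | g ∈ M ∧ bdd R g}.Infinite := hinf
  have hR' : 0 < max R 1 := lt_of_lt_of_le one_pos (le_max_right _ _)
  set δ : ℝ := ε / (8 * max R 1) with hδ
  have hδ0 : 0 < δ := by positivity
  have hfin : {c : Fin 4 × Fin 4 → ℤ | ∀ i, c i ∈ Set.Icc (⌊-R / δ⌋) (⌊R / δ⌋)}.Finite :=
    Set.Finite.pi' (fun _ => Set.finite_Icc _ _)
  have hmaps : Set.MapsTo (fun g : V ≃ₗ[ℝ] V => fun ij : Fin 4 × Fin 4 =>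
      ⌊g (Pi.single ij.1 1) ij.2 / δ⌋) {g | g ∈ M ∧ bdd R g}
      {c : Fin 4 × Fin 4 → ℤ | ∀ i, c i ∈ Set.Icc (⌊-R / δ⌋) (⌊R / δ⌋)} := by
    intro g hg ij
    have h1 := abs_le.1 (hg.2 ij.1 ij.2)
    exact ⟨Int.floor_le_floor (div_le_div_of_nonneg_right h1.1 hδ0.le),
        Int.floor_le_floor (div_le_div_of_nonneg_right h1.2 hδ0.le)⟩
  obtain ⟨g, hg, h, hh, hne, hcell⟩ := hinf'.exists_ne_map_eq_of_mapsTo hmaps hfin
  have hclose : ∀ i j, |h (Pi.single i 1) j - g (Pi.single i 1) j| ≤ δ := by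
    intro i j
    have h1 : ⌊g (Pi.single i 1) j / δ⌋ = ⌊h (Pi.single i 1) j / δ⌋ := congrFun hcell (i, j)
    have h2 := Int.abs_sub_lt_one_of_floor_eq_floor h1.symm
    rw [← sub_div, abs_div, abs_of_pos hδ0, div_lt_one hδ0] at h2
    exact h2.le
  have hgI := (hM hg.1).1
  have hk : g⁻¹ * h ∈ M := M.mul_mem (M.inv_mem hg.1) hh.1
  have hginv : ∀ x, g (g⁻¹ x) = x := fun x => by
    show (g * g⁻¹) x = x
    rw [mul_inv_cancel]; rfl
  have hginv' : ∀ x, g⁻¹ (g x) = x := fun x => by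
    show (g⁻¹ * g) x = x
    rw [inv_mul_cancel]; rfl
  have hnear : near ε (g⁻¹ * h) := by
    intro i l
    have h1 : (g⁻¹ * h) (Pi.single i 1) l - (Pi.single i 1 : V) l =
        (g⁻¹ (h (Pi.single i 1) - g (Pi.single i 1))) l := by
      rw [map_sub, hginv']
      rfl
    rw [h1, abs_coord_9833, ← hgI, hginv]
    have h2 := J_bound_9833 (h (Pi.single i 1) - g (Pi.single i 1)) (g (Pi.single l 1)) δ (max R 1)
      hδ0.le (fun j => hclose i j) (fun j => (hg.2 l j).trans (le_max_left _ _))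
    refine lt_of_le_of_lt h2 ?_
    have h3 : 4 * δ * max R 1 = ε / 2 := by
      rw [hδ]
      field_simp
      norm_num
    rw [h3]
    linarith
  have hk1 := hdis _ hk hnear
  exact hne (inv_mul_eq_one.1 hk1)

end Pool.Agent.Helper132.H3Refl
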