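import Pool.Agent.Helper132.H3Refl.A1

set_option autoImplicit false
set_option linter.unusedVariables false
open scoped ENNReal
noncomputable section
namespace Pool.Agent.Helper132.H3Refl

theorem reflE_isom {e : V} (he : 0 < J e e) : reflE e ∈ IsomH3 := by
  have h1 : ∀ x y, J (reflE e x) (reflE e y) = J x y := by
    intro x y
    rw [reflE_apply, reflE_apply, J_sub_left, J_sub_right, J_sub_right, J_smul_left, J_smul_left,
      J_smul_right, J_smul_right, J_symm e y]
    field_simp
    ring
  refine ⟨h1, fun x hx => ?_⟩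
  have h2 : J (reflE e x) (reflE e x) = -1 := by rw [h1]; exact hx.1
  refine ⟨h2, ?_⟩
  by_contra hneg
  have h3 := H3_x0_ge h2
  have h4 : (reflE e x) 0 < 0 := by
    rcases lt_or_eq_of_le (not_lt.mp hneg) with h | h
    · exact h
    · rw [h] at h3; norm_num at h3
  have h5 : J (-(reflE e x)) x < 0 := by
    apply causal_neg
    · rw [J_neg_left, J_neg_right, neg_neg, h2]; norm_num
    · show 0 < -(reflE e x) 0
      linarith
    · rw [hx.1]; norm_num
    · exact hx.2
  rw [J_neg_left, reflE_apply, J_sub_left, J_smul_left, J_symm e x, hx.1] at h5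
  have h6 : 0 ≤ 2 * J x e / J e e * J x e := by
    have : 2 * J x e / J e e * J x e = 2 * (J x e * J x e) / J e e := by ring
    rw [this]
    apply div_nonneg _ he.le
    nlinarith [mul_self_nonneg (J x e)]
  linarith

theorem conj_reflE {g : V ≃ₗ[ℝ] V} (hg : g ∈ IsomH3) (e : V) : g * reflE e * g⁻¹ = reflE (g e) := by
  apply LinearEquiv.ext
  intro x
  have key : g (g⁻¹ x) = x := by
    show (g * g⁻¹) x = x
    rw [mul_inv_cancel]; rfl
  show g (reflE e (g⁻¹ x)) = reflE (g e) x
  rw [reflE_apply, reflE_apply, map_sub, map_smul, key]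
  have h1 : J (g⁻¹ x) e = J x (g e) := by
    rw [← hg.1 (g⁻¹ x) e, key]
  have h2 : J (g e) (g e) = J e e := hg.1 e e
  rw [h1, h2]

end Pool.Agent.Helper132.H3Refl
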