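import Mathlib
set_option autoImplicit false
open scoped ENNReal
noncomputable section
namespace Pool.Agent.Helper132.H3Refl

/-- Minkowski space `ℝ⁴` -/
abbrev V := Fin 4 → ℝ

/-- the Lorentz form `-x₀y₀ + x₁y₁ + x₂y₂ + x₃y₃` -/
def J (x y : V) : ℝ := -(x 0 * y 0) + x 1 * y 1 + x 2 * y 2 + x 3 * y 3

/-- hyperbolic 3-space, hyperboloid model -/
def H3 : Set V := {x | J x x = -1 ∧ 0 < x 0}

theorem J_symm (x y : V) : J x y = J y x := by simp only [J]; ring
theorem J_add_left (x y z : V) : J (x + y) z = J x z + J y z := by simp only [J, Pi.add_apply]; ring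
theorem J_add_right (x y z : V) : J x (y + z) = J x y + J x z := by simp only [J, Pi.add_apply]; ring
theorem J_sub_left (x y z : V) : J (x - y) z = J x z - J y z := by simp only [J, Pi.sub_apply]; ring
theorem J_sub_right (x y z : V) : J x (y - z) = J x y - J x z := by simp only [J, Pi.sub_apply]; ring
theorem J_smul_left (a : ℝ) (x y : V) : J (a • x) y = a * J x y := by
  simp only [J, Pi.smul_apply, smul_eq_mul]; ring
theorem J_smul_right (a : ℝ) (x y : V) : J x (a • y) = a * J x y := by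
  simp only [J, Pi.smul_apply, smul_eq_mul]; ring
theorem J_neg_left (x y : V) : J (-x) y = -J x y := by simp only [J, Pi.neg_apply]; ring
theorem J_neg_right (x y : V) : J x (-y) = -J x y := by simp only [J, Pi.neg_apply]; ring
theorem J_zero_left (y : V) : J 0 y = 0 := by simp [J]
theorem J_zero_right (y : V) : J y 0 = 0 := by simp [J]

theorem H3_x0_ge {x : V} (h : J x x = -1) : 1 ≤ x 0 * x 0 := by
  simp only [J] at h
  nlinarith [mul_self_nonneg (x 1), mul_self_nonneg (x 2), mul_self_nonneg (x 3)]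

theorem isom_mul {a b : V ≃ₗ[ℝ] V} (ha : (∀ x y, J (a x) (a y) = J x y) ∧ ∀ x ∈ H3, a x ∈ H3)
    (hb : (∀ x y, J (b x) (b y) = J x y) ∧ ∀ x ∈ H3, b x ∈ H3) :
    (∀ x y, J ((a * b) x) ((a * b) y) = J x y) ∧ ∀ x ∈ H3, (a * b) x ∈ H3 := by
  refine ⟨fun x y => ?_, fun x hx => ?_⟩
  · show J (a (b x)) (a (b y)) = J x y
    rw [ha.1, hb.1]
  · exact ha.2 _ (hb.2 _ hx)

theorem isom_one : (∀ x y, J ((1 : V ≃ₗ[ℝ] V) x) ((1 : V ≃ₗ[ℝ] V) y) = J x y) ∧
    ∀ x ∈ H3, (1 : V ≃ₗ[ℝ] V) x ∈ H3 := ⟨fun _ _ => rfl, fun _ hx => hx⟩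

theorem isom_inv {a : V ≃ₗ[ℝ] V} (ha : (∀ x y, J (a x) (a y) = J x y) ∧ ∀ x ∈ H3, a x ∈ H3) :
    (∀ x y, J (a⁻¹ x) (a⁻¹ y) = J x y) ∧ ∀ x ∈ H3, a⁻¹ x ∈ H3 := by
  have key : ∀ x, a (a⁻¹ x) = x := fun x => by
    show (a * a⁻¹) x = x
    rw [mul_inv_cancel]; rfl
  have h1 : ∀ x y, J (a⁻¹ x) (a⁻¹ y) = J x y := by
    intro x y
    rw [← ha.1 (a⁻¹ x) (a⁻¹ y), key, key]
  refine ⟨h1, fun x hx => ?_⟩
  have h2 : J (a⁻¹ x) (a⁻¹ x) = -1 := by rw [h1]; exact hx.1
  refine ⟨h2, ?_⟩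
  by_contra hneg
  have h3 := H3_x0_ge h2
  have h4 : (a⁻¹ x) 0 < 0 := by
    rcases lt_or_eq_of_le (not_lt.mp hneg) with h | h
    · exact h
    · rw [h] at h3; norm_num at h3
  have h5 : -(a⁻¹ x) ∈ H3 := by
    refine ⟨?_, ?_⟩
    · rw [J_neg_left, J_neg_right, neg_neg, h2]
    · show 0 < -(a⁻¹ x) 0
      linarith
  have h6 := ha.2 _ h5
  rw [map_neg, key] at h6
  have := h6.2
  have hx2 := hx.2
  simp only [Pi.neg_apply] at this
  linarith

/-- the isometry group of hyperbolic 3-space: linear automorphisms of `ℝ⁴` preserving the Lorentz form and the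
upper sheet `H3` -/
def IsomH3 : Subgroup (V ≃ₗ[ℝ] V) where
  carrier := {g | (∀ x y, J (g x) (g y) = J x y) ∧ ∀ x ∈ H3, g x ∈ H3}
  mul_mem' := isom_mul
  one_mem' := isom_one
  inv_mem' := isom_inv

/-- the reflection in the hyperplane orthogonal to `e` -/
def refl (e x : V) : V := x - (2 * J x e / J e e) • e

theorem refl_refl (e x : V) : refl e (refl e x) = x := by
  unfold refl
  by_cases h : J e e = 0
  · simp [h]
  · rw [J_sub_left, J_smul_left, sub_sub, ← add_smul]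
    have : 2 * J x e / J e e + 2 * (J x e - 2 * J x e / J e e * J e e) / J e e = 0 := by
      field_simp
      ring
    rw [this, zero_smul, sub_zero]

/-- the reflection as a linear map -/
def reflL (e : V) : V →ₗ[ℝ] V where
  toFun := refl e
  map_add' := by
    intro x y
    unfold refl
    rw [J_add_left, mul_add, add_div, add_smul]
    abel
  map_smul' := by
    intro a x
    unfold refl
    rw [J_smul_left, RingHom.id_apply, smul_sub, smul_smul]
    congr 2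
    ring

/-- the reflection as a linear automorphism -/
def reflE (e : V) : V ≃ₗ[ℝ] V := LinearEquiv.ofInvolutive (reflL e) (refl_refl e)

theorem reflE_apply (e x : V) : reflE e x = x - (2 * J x e / J e e) • e := rfl

/-- `g` is the reflection in a hyperplane of hyperbolic 3-space (the hyperplane orthogonal to a spacelike
vector `e`) -/
def IsRefl (g : V ≃ₗ[ℝ] V) : Prop := ∃ e, 0 < J e e ∧ ∀ x, g x = x - (2 * J x e / J e e) • e

/-- all matrix entries of `g` are within `ε` of those of the identity -/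
def near (ε : ℝ) (g : V ≃ₗ[ℝ] V) : Prop :=
  ∀ i j : Fin 4, |g (Pi.single i 1) j - (Pi.single i 1 : V) j| < ε

/-- discreteness -/
def Discr (Γ : Subgroup (V ≃ₗ[ℝ] V)) : Prop := ∃ ε > 0, ∀ g ∈ Γ, near ε g → g = 1

/-- the point of the hyperboloid above `u ∈ ℝ³` -/
def lift (u : Fin 3 → ℝ) : V := ![√(1 + u 0 ^ 2 + u 1 ^ 2 + u 2 ^ 2), u 0, u 1, u 2]

/-- hyperbolic volume: density `dx₁dx₂dx₃/x₀` on the hyperboloid -/
def hvol (F : Set V) : ℝ≥0∞ :=
  ∫⁻ u : Fin 3 → ℝ in {u | lift u ∈ F}, ENNReal.ofReal (1 / √(1 + u 0 ^ 2 + u 1 ^ 2 + u 2 ^ 2))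

/-- finite covolume: the translates of a Borel set of finite hyperbolic volume cover `H3` -/
def FinCovol (Γ : Subgroup (V ≃ₗ[ℝ] V)) : Prop :=
  ∃ F : Set V, MeasurableSet F ∧ F ⊆ H3 ∧ hvol F < ∞ ∧ ∀ x ∈ H3, ∃ g ∈ Γ, g x ∈ F

/-- reflection group: a discrete subgroup of `Isom(H3)` of finite covolume generated by reflections -/
structure ReflGroup (Γ : Subgroup (V ≃ₗ[ℝ] V)) : Prop where
  le : Γ ≤ IsomH3
  gen : Γ = Subgroup.closure {g | g ∈ Γ ∧ IsRefl g}
  discr : Discr Γ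
  fincov : FinCovol Γ

/-- maximal reflection group -/
def MaxRefl (Γ : Subgroup (V ≃ₗ[ℝ] V)) : Prop :=
  ReflGroup Γ ∧ ∀ Γ', ReflGroup Γ' → Γ ≤ Γ' → Γ' = Γ

/-- Vinberg's quasi-arithmeticity: for some totally real number field `K ⊆ ℝ`, some quadratic form `F` over `K`
which is equivalent to `J` over `ℝ` (via `P`) and positive definite under all other embeddings of `K`, the group
consists of `K`-rational automorphisms of `F` -/
def QuasiArith (Γ : Subgroup (V ≃ₗ[ℝ] V)) : Prop :=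
  ∃ K : Subfield ℝ, FiniteDimensional ℚ K ∧ (∀ τ : K →+* ℂ, ∀ x, (τ x).im = 0) ∧
    ∃ F : Matrix (Fin 4) (Fin 4) K, F.IsSymm ∧
      (∀ σ : K →+* ℝ, σ ≠ K.subtype → (F.map σ).PosDef) ∧
      ∃ P : V ≃ₗ[ℝ] V, (∀ x y, J (P x) (P y) = ∑ i, ∑ j, x i * (F i j : ℝ) * y j) ∧
        ∀ g ∈ Γ, ∀ i j, P.symm (g (P (Pi.single j 1))) i ∈ K

/-! ### auxiliary notions -/

/-- Eichler transformation (parabolic translation at the null vector `v`) -/
def Ei (v t x : V) : V := x + J x v • t - J x t • v - (J t t / 2 * J x v) • v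

def IsEi (g : V ≃ₗ[ℝ] V) (v t : V) : Prop := ∀ x, g x = Ei v t x

def bdd (R : ℝ) (g : V ≃ₗ[ℝ] V) : Prop := ∀ i j : Fin 4, |g (Pi.single i 1) j| ≤ R

/-- the coordinates `(U, W, y, z)` with `J = -3UW + y² + z²` -/
def mk (U W y z : ℝ) : V := ![√3 * (U + W) / 2, √3 * (U - W) / 2, y, z]

def al : V := mk 0 0 (-1) 0
def be : V := mk 0 0 1 (-1)
def gg : V := mk 0 (4 / 3) 0 1
def ff (j : ℕ) : V := mk (3 ^ j) ((1 / 3) ^ j) 1 2
def ww (n : ℕ) : V := mk (3 ^ n) (-(1 / 3) ^ n) 0 0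

/-- the walls of the polyhedron `P n` -/
def EE (n : ℕ) : Fin 4 ⊕ Fin (n + 1) → V := Sum.elim ![al, be, gg, ww n] (fun j => ff j)

/-- the group generated by the reflections in the walls -/
def Gam (n : ℕ) : Subgroup (V ≃ₗ[ℝ] V) := Subgroup.closure (Set.range fun i => reflE (EE n i))

/-- the polyhedron -/
def PP (n : ℕ) : Set V := {x | x ∈ H3 ∧ ∀ i, J x (EE n i) ≤ 0}

/-- ideal vertices -/
def NN : V := mk 0 1 0 0
def cc (j : ℕ) : V := mk (3 ^ j) ((1 / 3) ^ (j + 1)) 0 1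
def idv (n : ℕ) : Set V := {c | c = NN ∨ ∃ j < n, c = cc j}

/-- rational vectors -/
def IsRat (x : V) : Prop := ∃ U W y z : ℚ, x = mk U W y z

theorem J_mk (U W y z U' W' y' z' : ℝ) :
    J (mk U W y z) (mk U' W' y' z') = -(3 / 2) * (U * W' + W * U') + y * y' + z * z' := by
  have h : √(3:ℝ) * √3 = 3 := Real.mul_self_sqrt (by norm_num)
  simp only [J, mk, Matrix.cons_val_zero, Matrix.cons_val_one, Matrix.cons_val]
  linear_combination (-(U * W' + W * U') / 2) * h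

theorem mk_surj (x : V) : x = mk ((x 0 + x 1) / √3) ((x 0 - x 1) / √3) (x 2) (x 3) := by
  have h : √(3:ℝ) ≠ 0 := by positivity
  ext i
  fin_cases i
  · simp [mk]; field_simp; ring
  · simp [mk]; field_simp; ring
  · simp [mk]
  · simp [mk]


end Pool.Agent.Helper132.H3Refl
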