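import Pool.Agent.Helper132.H3Refl.A1
import Pool.Agent.Helper132.H3Refl.A2

set_option autoImplicit false
set_option linter.unusedVariables false
open scoped ENNReal
noncomputable section
namespace Pool.Agent.Helper132.H3Refl

theorem null_cs {v w t y : V} (hv : J v v = 0) (hw : J w w = 0) (hv0 : 0 < v 0) (hw0 : 0 < w 0)
    (ha : J v w < 0) (h1 : J v t = 0) (h2 : J w t = 0) (hy : y ∈ H3) :
    -(J v w) * (J y t) ^ 2 ≤ J t t * (2 * (J y v * J y w)) := by
  have hyy : J y y = -1 := hy.1
  obtain ⟨a, haa⟩ : ∃ a : ℝ, a = -(J v w) := ⟨_, rfl⟩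
  have ha0 : 0 < a := by rw [haa]; linarith
  have hvw : J v w = -a := by rw [haa]; ring
  have hwv : J w v = -a := by rw [J_symm, hvw]
  have htv : J t v = 0 := by rw [J_symm, h1]
  have htw : J t w = 0 := by rw [J_symm, h2]
  have hvy : J v y = J y v := J_symm _ _
  have hwy : J w y = J y w := J_symm _ _
  obtain ⟨s, hs⟩ : ∃ s : V, s = y + (J y w / a) • v + (J y v / a) • w := ⟨_, rfl⟩
  have hsv : J s v = 0 := by
    rw [hs, J_add_left, J_add_left, J_smul_left, J_smul_left, hv, hwv]
    field_simp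
    ring
  have hsw : J s w = 0 := by
    rw [hs, J_add_left, J_add_left, J_smul_left, J_smul_left, hw, hvw]
    field_simp
    ring
  have hst : J s t = J y t := by
    rw [hs, J_add_left, J_add_left, J_smul_left, J_smul_left, h1, h2]
    ring
  have hss : J s s = -1 + 2 * (J y v * J y w) / a := by
    have e1 : J s s = J s y := by
      have h := congrArg (J s) hs
      rw [J_add_right, J_add_right, J_smul_right, J_smul_right, hsv, hsw] at h
      linarith
    rw [e1, hs, J_add_left, J_add_left, J_smul_left, J_smul_left, hyy, hvy, hwy]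
    field_simp
    ring
  have hneg : J (v + w) (v + w) < 0 := by
    rw [J_add_left, J_add_right, J_add_right, hv, hw, hvw, hwv]
    linarith
  have hos : J (v + w) s = 0 := by
    rw [J_symm, J_add_right, hsv, hsw, add_zero]
  have hot : J (v + w) t = 0 := by
    rw [J_add_left, h1, h2, add_zero]
  obtain ⟨ht1, ht2⟩ := orth_nonneg hneg hot
  have hu := (orth_nonneg (u := J t t • s - J s t • t) hneg (by
    rw [J_sub_right, J_smul_right, J_smul_right, hos, hot]; ring)).1
  have hu2 : J (J t t • s - J s t • t) (J t t • s - J s t • t) =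
      J t t * (J t t * J s s - (J s t) ^ 2) := by
    rw [J_sub_left, J_sub_right, J_sub_right]
    simp only [J_smul_left, J_smul_right]
    rw [J_symm t s]
    ring
  rw [hu2] at hu
  rcases ht1.lt_or_eq with ht | ht
  · have h3 : 0 ≤ J t t * J s s - (J s t) ^ 2 := by
      by_contra h
      push Not at h
      have := mul_neg_of_pos_of_neg ht h
      linarith
    rw [hst, hss] at h3
    have h4 : (J y t) ^ 2 ≤ J t t * (2 * (J y v * J y w) / a) := by nlinarith
    have h5 := mul_le_mul_of_nonneg_left h4 ha0.le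
    have h6 : a * (J t t * (2 * (J y v * J y w) / a)) = J t t * (2 * (J y v * J y w)) := by
      field_simp
    rw [h6] at h5
    rw [← haa]
    exact h5
  · have h3 := ht2 ht.symm
    rw [h3, J_zero_right, J_zero_right]
    simp

theorem ei_conj {g T : V ≃ₗ[ℝ] V} (hg : g ∈ IsomH3) {v t : V} (hT : IsEi T v t) :
    IsEi (g * T * g⁻¹) (g v) (g t) := by
  intro x
  have hx : g (g⁻¹ x) = x := by
    change (g * g⁻¹) x = x
    rw [mul_inv_cancel]
    rfl
  have hJ : ∀ u, J (g⁻¹ x) u = J x (g u) := by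
    intro u
    rw [← hg.1, hx]
  change g (T (g⁻¹ x)) = _
  rw [hT (g⁻¹ x)]
  unfold Ei
  rw [map_sub, map_sub, map_add, map_smul, map_smul, map_smul, hx, hJ, hJ, hg.1 t t]

theorem ei_shift {v t : V} (r : ℝ) (hv : J v v = 0) (hvt : J v t = 0) (x : V) :
    Ei v (t + r • v) x = Ei v t x := by
  have htv : J t v = 0 := by rw [J_symm, hvt]
  have h1 : J (t + r • v) (t + r • v) = J t t := by
    rw [J_add_left, J_add_right, J_add_right, J_smul_left, J_smul_left, J_smul_right, J_smul_right,
      hv, hvt, htv]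
    ring
  unfold Ei
  rw [h1, J_add_right, J_smul_right]
  module

theorem ei_step {v w t y : V} (hv : J v v = 0) (hw : J w w = 0) (hv0 : 0 < v 0) (hw0 : 0 < w 0)
    (ha : J v w < 0) (hwt : J w t = 0) (ht : 0 < J t t) (hy : y ∈ H3) :
    J v (Ei w t v) = -(J t t / 2) * (J v w) ^ 2 ∧
      -(J y (Ei w t v)) ≤ 2 * (-(J y v)) + J t t * (-(J v w)) * (-(J y w)) := by
  constructor
  · unfold Ei
    rw [J_sub_right, J_sub_right, J_add_right, J_smul_right, J_smul_right, J_smul_right, hv]
    ring
  · have hyneg : J y y < 0 := by rw [hy.1]; norm_num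
    have hν : J y v < 0 := by rw [J_symm]; exact causal_neg hv.le hv0 hyneg hy.2
    have hβ : J y w < 0 := by rw [J_symm]; exact causal_neg hw.le hw0 hyneg hy.2
    obtain ⟨t1, ht1⟩ : ∃ t1 : V, t1 = t + (-(J v t) / J v w) • w := ⟨_, rfl⟩
    have hE : Ei w t v = Ei w t1 v := by rw [ht1, ei_shift _ hw hwt]
    have h1 : J v t1 = 0 := by
      rw [ht1, J_add_right, J_smul_right, div_mul_cancel₀ _ ha.ne]
      ring
    have htw : J t w = 0 := by rw [J_symm, hwt]
    have h2 : J w t1 = 0 := by
      rw [ht1, J_add_right, J_smul_right, hw, hwt]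
      ring
    have h3 : J t1 t1 = J t t := by
      rw [ht1, J_add_left, J_add_right, J_add_right, J_smul_left, J_smul_left, J_smul_right,
        J_smul_right, hw, hwt, htw]
      ring
    have hcs := null_cs hv hw hv0 hw0 ha h1 h2 hy
    rw [h3] at hcs
    have hEy : J y (Ei w t v) = J y v + J v w * J y t1 - J t t / 2 * J v w * J y w := by
      rw [hE]
      unfold Ei
      rw [J_sub_right, J_sub_right, J_add_right, J_smul_right, J_smul_right, J_smul_right, h1, h3]
      ring
    rw [hEy]
    obtain ⟨a, haa⟩ : ∃ a : ℝ, a = -(J v w) := ⟨_, rfl⟩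
    obtain ⟨ν, hνν⟩ : ∃ ν : ℝ, ν = -(J y v) := ⟨_, rfl⟩
    obtain ⟨β, hββ⟩ : ∃ β : ℝ, β = -(J y w) := ⟨_, rfl⟩
    have e1 : J v w = -a := by rw [haa]; ring
    have e2 : J y v = -ν := by rw [hνν]; ring
    have e3 : J y w = -β := by rw [hββ]; ring
    rw [e1, e2, e3] at hcs ⊢
    have ha0 : 0 < a := by rw [haa]; linarith
    have hν0 : 0 < ν := by rw [hνν]; linarith
    have hβ0 : 0 < β := by rw [hββ]; linarith
    have hX : 0 < J t t / 2 * a * β := by positivity
    have h4 : (a * J y t1) ^ 2 ≤ (ν + J t t / 2 * a * β) ^ 2 := by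
      have h5 := mul_le_mul_of_nonneg_left hcs ha0.le
      nlinarith [sq_nonneg (ν - J t t / 2 * a * β)]
    have h6 := le_of_abs_le (abs_le_of_sq_le_sq h4 (by positivity))
    linarith

end Pool.Agent.Helper132.H3Refl
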