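import Pool.Agent.Helper132.H3Refl.A1
import Pool.Agent.Helper132.H3Refl.A2
import Pool.Agent.Helper132.H3Refl.B1
import Pool.Agent.Helper132.H3Refl.C1
import Pool.Agent.Helper132.H3Refl.D1
import Pool.Agent.Helper132.H3Refl.E1

set_option autoImplicit false
set_option linter.unusedVariables false
open scoped ENNReal
noncomputable section
namespace Pool.Agent.Helper132.H3Refl

theorem J_nonpos_null {v w : V} (hv : J v v = 0) (hw : J w w = 0) (hv0 : 0 < v 0) (hw0 : 0 < w 0) :
    J v w ≤ 0 := by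
  simp only [J] at hv hw ⊢
  have h1 : (v 1 * w 1 + v 2 * w 2 + v 3 * w 3) ^ 2 ≤ (v 0 * w 0) ^ 2 := by
    have e1 : v 0 * v 0 = v 1 * v 1 + v 2 * v 2 + v 3 * v 3 := by linarith
    have e2 : w 0 * w 0 = w 1 * w 1 + w 2 * w 2 + w 3 * w 3 := by linarith
    have e3 : (v 0 * w 0) ^ 2 = (v 1 * v 1 + v 2 * v 2 + v 3 * v 3) * (w 1 * w 1 + w 2 * w 2 + w 3 * w 3) := by
      rw [← e1, ← e2]; ring
    rw [e3]
    nlinarith [sq_nonneg (v 1 * w 2 - v 2 * w 1), sq_nonneg (v 1 * w 3 - v 3 * w 1),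
      sq_nonneg (v 2 * w 3 - v 3 * w 2)]
  have h2 : v 1 * w 1 + v 2 * w 2 + v 3 * w 3 ≤ v 0 * w 0 :=
    (abs_le_of_sq_le_sq' h1 (by positivity)).2
  linarith

theorem shimizu {M : Subgroup (V ≃ₗ[ℝ] V)} (hM : M ≤ IsomH3) (hd : Discr M) {v t : V} (hv : J v v = 0)
    (hv0 : 0 < v 0) (hvt : J v t = 0) (ht : 0 < J t t) {T : V ≃ₗ[ℝ] V} (hT : T ∈ M) (hTE : IsEi T v t)
    {g : V ≃ₗ[ℝ] V} (hg : g ∈ M) (ha : J v (g v) ≠ 0) : 2 ≤ J t t * (-(J v (g v))) := by
  by_contra hlt
  push Not at hlt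
  set τ : ℝ := J t t with hτ
  -- the sequence
  obtain ⟨G, hG0, hGs⟩ : ∃ G : ℕ → (V ≃ₗ[ℝ] V), G 0 = g ∧ ∀ k, G (k + 1) = G k * T * (G k)⁻¹ :=
    ⟨fun k => Nat.rec g (fun _ h => h * T * h⁻¹) k, rfl, fun _ => rfl⟩
  have hGM : ∀ k, G k ∈ M := by
    intro k
    induction k with
    | zero => rw [hG0]; exact hg
    | succ k ih =>
      rw [hGs]
      exact M.mul_mem (M.mul_mem ih hT) (M.inv_mem ih)
  have hGI : ∀ k, G k ∈ IsomH3 := fun k => hM (hGM k)
  have hnull : ∀ k, J (G k v) (G k v) = 0 := fun k => by rw [(hGI k).1]; exact hv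
  have hfwd : ∀ k, 0 < (G k v) 0 := fun k => isom_fwd (hGI k) (le_of_eq hv) hv0
  have hwt : ∀ k, J (G k v) (G k t) = 0 := fun k => by rw [(hGI k).1]; exact hvt
  have htt : ∀ k, J (G k t) (G k t) = τ := fun k => by rw [(hGI k).1]
  have hEi : ∀ k x, G (k + 1) x = Ei (G k v) (G k t) x := by
    intro k x
    rw [hGs]
    exact ei_conj (hGI k) hTE x
  -- a base point
  obtain ⟨y, hy⟩ : ∃ y : V, y ∈ H3 := by
    refine ⟨![1, 0, 0, 0], ?_, ?_⟩
    · simp [J]
    · simp
  have hb0 : ∀ k, 0 < -(J y (G k v)) := by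
    intro k
    have := causal_neg (le_of_eq (hnull k)) (hfwd k) (b := y) (by rw [hy.1]; norm_num) hy.2
    rw [J_symm] at this
    linarith
  have hneg0 : J v (G 0 v) < 0 := by
    rw [hG0]
    have h1 := hnull 0
    have h2 := hfwd 0
    rw [hG0] at h1 h2
    exact lt_of_le_of_ne (J_nonpos_null hv h1 hv0 h2) ha
  have hneg : ∀ k, J v (G k v) < 0 := by
    intro k
    induction k with
    | zero => exact hneg0
    | succ k ih =>
      have h := (ei_step hv (hnull k) hv0 (hfwd k) ih (hwt k) (by rw [htt]; exact ht) hy).1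
      rw [hEi, h, htt]
      have h5 : 0 < (J v (G k v)) ^ 2 := by rw [← neg_sq]; exact pow_pos (by linarith) 2
      have : 0 < τ / 2 * (J v (G k v)) ^ 2 := by positivity
      linarith
  have hstep : ∀ k, J v (G (k + 1) v) = -(τ / 2) * (J v (G k v)) ^ 2 ∧
      -(J y (G (k + 1) v)) ≤ 2 * (-(J y v)) + τ * (-(J v (G k v))) * (-(J y (G k v))) := by
    intro k
    have h := ei_step hv (hnull k) hv0 (hfwd k) (hneg k) (hwt k) (by rw [htt]; exact ht) hy
    rw [htt] at h
    rw [hEi]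
    exact h
  -- x k
  obtain ⟨x, hx⟩ : ∃ x : ℕ → ℝ, ∀ k, x k = τ / 2 * (-(J v (G k v))) := ⟨_, fun k => rfl⟩
  have hxs : ∀ k, x (k + 1) = x k ^ 2 := by
    intro k
    rw [hx (k + 1), (hstep k).1, hx k]
    ring
  have hxpos : ∀ k, 0 < x k := by
    intro k
    have := hneg k
    rw [hx]
    have : 0 < -(J v (G k v)) := by linarith
    positivity
  have hx0 : x 0 < 1 := by
    rw [hx, hG0]
    linarith
  have hxlt : ∀ k, x k < 1 := by
    intro k
    induction k with
    | zero => exact hx0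
    | succ k ih =>
      rw [hxs]
      have := hxpos k
      nlinarith
  have hxle : ∀ k, x k ≤ x 0 ^ (k + 1) := by
    intro k
    induction k with
    | zero => simp
    | succ k ih =>
      rw [hxs, pow_succ _ (k + 1)]
      have h1 := hxpos k
      have h2 : x k ≤ x 0 := by
        refine ih.trans ?_
        have := pow_le_one₀ (n := k) (hxpos 0).le hx0.le
        rw [pow_succ]
        nlinarith [hxpos 0]
      have h3 : 0 < x 0 ^ (k + 1) := pow_pos (hxpos 0) _
      nlinarith [hxpos 0]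
  have hanti : StrictAnti x := by
    apply strictAnti_nat_of_succ_lt
    intro k
    rw [hxs]
    have := hxpos k
    have := hxlt k
    nlinarith
  -- eventually small
  obtain ⟨N, hN⟩ : ∃ N, ∀ k, N ≤ k → x k ≤ 1 / 4 := by
    obtain ⟨N, hN⟩ := exists_pow_lt_of_lt_one (show (0:ℝ) < 1 / 4 by norm_num) hx0
    refine ⟨N, fun k hk => ?_⟩
    refine (hxle k).trans ?_
    have : x 0 ^ (k + 1) ≤ x 0 ^ N := pow_le_pow_of_le_one (hxpos 0).le hx0.le (by omega)
    linarith
  -- bound
  set ν : ℝ := -(J y v) with hν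
  let B : ℝ := max (-(J y (G N v))) (4 * ν)
  have hB : ∀ k, N ≤ k → -(J y (G k v)) ≤ B := by
    intro k hk
    induction k, hk using Nat.le_induction with
    | base => exact le_max_left _ _
    | succ k hk ih =>
      have h1 := (hstep k).2
      have h2 := hN k hk
      have h3 : τ * (-(J v (G k v))) = 2 * x k := by rw [hx]; ring
      rw [h3] at h1
      have h4 : 4 * ν ≤ B := le_max_right _ _
      have h5 := hb0 k
      have h6 : 2 * x k * (-(J y (G k v))) ≤ 1 / 2 * B := by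
        have h7 := hxpos k
        have hBpos : 0 ≤ B := le_trans h5.le ih
        calc 2 * x k * (-(J y (G k v))) ≤ (1 / 2) * (-(J y (G k v))) := by
              apply mul_le_mul_of_nonneg_right _ h5.le
              linarith
          _ ≤ 1 / 2 * B := by
              apply mul_le_mul_of_nonneg_left ih (by norm_num)
      linarith
  -- boundedness of the group elements
  have hJy : ∀ k, -(J (G (k + 1) y) y) = 1 + τ / 2 * (-(J y (G k v))) ^ 2 := by
    intro k
    rw [hEi]
    unfold Ei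
    rw [J_sub_left, J_sub_left, J_add_left, J_smul_left, J_smul_left, J_smul_left, hy.1, htt,
      J_symm (G k t) y, J_symm (G k v) y]
    ring
  obtain ⟨R, hR⟩ := isom_bdd y y hy hy (1 + τ / 2 * B ^ 2)
  have hbd : ∀ k, N ≤ k → bdd R (G (k + 1)) := by
    intro k hk
    refine hR (G (k + 1)) (hGI (k + 1)) ?_
    rw [hJy]
    have h1 := hB k hk
    have h2 := hb0 k
    have h3 : (-(J y (G k v))) ^ 2 ≤ B ^ 2 := pow_le_pow_left₀ h2.le h1 2
    have h4 : 0 < τ / 2 := by positivity
    nlinarith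
  have hfin := discr_finite hM hd R
  have hinj : Function.Injective (fun k : ℕ => G (k + N + 1)) := by
    intro k l hkl
    have h1 : x (k + N + 1) = x (l + N + 1) := by
      have hkl' : G (k + N + 1) = G (l + N + 1) := hkl
      rw [hx (k + N + 1), hx (l + N + 1), hkl']
    have := hanti.injective h1
    omega
  have hinf : Set.Infinite (Set.range (fun k : ℕ => G (k + N + 1))) := Set.infinite_range_of_injective hinj
  apply hinf
  apply hfin.subset
  rintro _ ⟨k, rfl⟩
  exact ⟨hGM _, hbd (k + N) (by omega)⟩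

end Pool.Agent.Helper132.H3Refl
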