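import Pool.Agent.Helper132.H3Refl.A1
import Pool.Agent.Helper132.H3Refl.A2
import Pool.Agent.Helper132.H3Refl.B1
import Pool.Agent.Helper132.H3Refl.C1
import Pool.Agent.Helper132.H3Refl.D1
import Pool.Agent.Helper132.H3Refl.E1
import Pool.Agent.Helper132.H3Refl.E2

set_option autoImplicit false
set_option linter.unusedVariables false
open scoped ENNReal
noncomputable section
namespace Pool.Agent.Helper132.H3Refl

theorem shimizu_refl {M : Subgroup (V ≃ₗ[ℝ] V)} (hM : M ≤ IsomH3) (hd : Discr M) {v t : V} (hv : J v v = 0)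
    (hv0 : 0 < v 0) (hvt : J v t = 0) (ht : 0 < J t t) {T : V ≃ₗ[ℝ] V} (hT : T ∈ M) (hTE : IsEi T v t)
    {e : V} (he : 0 < J e e) (hr : reflE e ∈ M) {y : V} (hy : y ∈ H3) (hye : J y e = 0)
    (hdeep : J t t * (J y v) ^ 2 < 1) : J v e = 0 := by
  by_contra hne
  have hyy : J y y = -1 := hy.1
  have hval : J v (reflE e v) = -(2 * ((J v e) ^ 2 / J e e)) := by
    rw [reflE_apply, J_sub_right, J_smul_right, hv]
    field_simp
    ring
  have hq : 0 < (J v e) ^ 2 / J e e := by positivity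
  have h1 := shimizu hM hd hv hv0 hvt ht hT hTE hr (by rw [hval]; intro h; linarith)
  rw [hval, neg_neg] at h1
  set r := J v e / J e e with hr'
  have hre : r * J e e = J v e := by rw [hr']; field_simp
  have hrr : r * J v e = (J v e) ^ 2 / J e e := by rw [hr']; ring
  set c1 : V := v - r • e with hc1
  have hcc : J c1 c1 = -((J v e) ^ 2 / J e e) := by
    rw [hc1, J_sub_left, J_sub_right, J_sub_right, J_smul_left, J_smul_left, J_smul_right, J_smul_right, hv,
      J_symm e v, hre, hrr]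
    ring
  have hyc : J y c1 = J y v := by
    rw [hc1, J_sub_right, J_smul_right, hye]; ring
  have hyu : J y (c1 + (J y c1) • y) = 0 := by
    rw [J_add_right, J_smul_right, hyy]; ring
  have huu := (orth_nonneg (by rw [hyy]; norm_num) hyu).1
  rw [J_add_left, J_add_right, J_add_right, J_smul_left, J_smul_left, J_smul_right, J_smul_right, hyy,
    J_symm c1 y, hcc, hyc] at huu
  have h2 : (J v e) ^ 2 / J e e ≤ (J y v) ^ 2 := by nlinarith
  have h3 := mul_le_mul_of_nonneg_left h2 ht.le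
  linarith

theorem shimizu_two {M : Subgroup (V ≃ₗ[ℝ] V)} (hM : M ≤ IsomH3) (hd : Discr M) {v t : V} (hv : J v v = 0)
    (hv0 : 0 < v 0) (hvt : J v t = 0) (ht : 0 < J t t) {T : V ≃ₗ[ℝ] V} (hT : T ∈ M) (hTE : IsEi T v t)
    {v' t' : V} (hv' : J v' v' = 0) (hv0' : 0 < v' 0) (hvt' : J v' t' = 0) (ht' : 0 < J t' t')
    {T' : V ≃ₗ[ℝ] V} (hT' : T' ∈ M) (hTE' : IsEi T' v' t') (hsmall : J t t * J t' t' * (J v v') ^ 2 < 4) :
    J v v' = 0 := by
  by_contra hne
  have hval : J v (T' v) = -(J t' t' / 2 * (J v v') ^ 2) := by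
    rw [hTE' v]
    unfold Ei
    rw [J_sub_right, J_sub_right, J_add_right, J_smul_right, J_smul_right, J_smul_right, hv]
    ring
  have hpos : 0 < J t' t' / 2 * (J v v') ^ 2 := by positivity
  have h1 := shimizu hM hd hv hv0 hvt ht hT hTE hT' (by rw [hval]; intro h; linarith)
  rw [hval, neg_neg] at h1
  nlinarith

end Pool.Agent.Helper132.H3Refl
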