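import Pool.Agent.Helper132.H3Refl.Angle

set_option autoImplicit false
set_option linter.unusedVariables false
open scoped ENNReal
noncomputable section
namespace Pool.Agent.Helper132.H3Refl

def altw : Bool → ℕ → List Bool
  | _, 0 => []
  | c, (n+1) => c :: altw (!c) n

theorem altw_length (c : Bool) (k : ℕ) : (altw c k).length = k := by
  induction k generalizing c with
  | zero => rfl
  | succ k ih => simp [altw, ih]

theorem reflE_mul_self' (e : V) : reflE e * reflE e = 1 := by
  apply LinearEquiv.ext
  intro x
  exact refl_refl e x

theorem altw_dich (f : Bool → (V ≃ₗ[ℝ] V)) (hf : ∀ c, f c * f c = 1) (l : List Bool) :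
    (∃ l' : List Bool, l'.length < l.length ∧ (l'.map f).prod = (l.map f).prod) ∨
      ∃ c, l = altw c l.length := by
  induction l with
  | nil => exact Or.inr ⟨true, rfl⟩
  | cons d l ih =>
    rcases ih with ⟨l', h1, h2⟩ | ⟨c, hc⟩
    · refine Or.inl ⟨d :: l', ?_, ?_⟩
      · simpa using h1
      · simp only [List.map_cons, List.prod_cons, h2]
    · rcases l with _ | ⟨e, l⟩
      · exact Or.inr ⟨d, rfl⟩
      · have h3 : e :: l = c :: altw (!c) l.length := hc
        have he : e = c := (List.cons.inj h3).1
        have hl : l = altw (!c) l.length := (List.cons.inj h3).2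
        by_cases hdc : d = e
        · refine Or.inl ⟨l, ?_, ?_⟩
          · simp only [List.length_cons]; omega
          · simp only [List.map_cons, List.prod_cons, hdc]
            rw [← mul_assoc, hf, one_mul]
        · refine Or.inr ⟨d, ?_⟩
          have hd : (!d) = c := by
            rw [← he]
            revert hdc
            cases d <;> cases e <;> simp
          show d :: e :: l = d :: altw (!d) (l.length + 1)
          rw [hd, h3]
          rfl

theorem stepB' (a b y : V) (hb : 0 < J b b) (p q : ℝ) :
    J (reflE b y) (p • a + q • b) = J y (p • a + (-2 * J a b / J b b * p - q) • b) := by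
  have hb' : J b b ≠ 0 := hb.ne'
  simp only [reflE_apply, J_sub_left, J_smul_left, J_add_right, J_smul_right, J_symm b a]
  field_simp
  ring

theorem stepA' (a b y : V) (ha : 0 < J a a) (p q : ℝ) :
    J (reflE a y) (p • a + q • b) = J y ((-2 * J a b / J a a * q - p) • a + q • b) := by
  have ha' : J a a ≠ 0 := ha.ne'
  simp only [reflE_apply, J_sub_left, J_smul_left, J_add_right, J_smul_right]
  field_simp
  ring

theorem moveA' (a b x : V) (ha : 0 < J a a) (s t : ℝ) :
    reflE a (x - s • a - t • b) =
      x - (2 * J x a / J a a - s + (-2 * J a b / J a a) * t) • a - t • b := by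
  have ha' : J a a ≠ 0 := ha.ne'
  rw [reflE_apply]
  simp only [J_sub_left, J_smul_left, J_symm b a]
  have h : 2 * (J x a - s * J a a - t * J a b) / J a a =
      2 * J x a / J a a - 2 * s + (-2 * J a b / J a a) * t := by
    field_simp
    ring
  rw [h]
  module

theorem moveB' (a b x : V) (hb : 0 < J b b) (s t : ℝ) :
    reflE b (x - s • a - t • b) =
      x - s • a - (2 * J x b / J b b - t + (-2 * J a b / J b b) * s) • b := by
  have hb' : J b b ≠ 0 := hb.ne'
  rw [reflE_apply]
  simp only [J_sub_left, J_smul_left]
  have h : 2 * (J x b - s * J a b - t * J b b) / J b b =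
      2 * J x b / J b b - 2 * t + (-2 * J a b / J b b) * s := by
    field_simp
    ring
  rw [h]
  module

theorem braid2 (a b : V) (ha : 0 < J a a) (hb : 0 < J b b) (h : J a b = 0) :
    reflE b * reflE a = reflE a * reflE b := by
  apply LinearEquiv.ext
  intro x
  show reflE b (reflE a x) = reflE a (reflE b x)
  have e0 : x = x - (0:ℝ) • a - (0:ℝ) • b := by simp
  have hba : -2 * J a b / J a a = 0 := by rw [h]; simp
  have hbb : -2 * J a b / J b b = 0 := by rw [h]; simp
  conv_lhs => rw [e0, moveA' a b x ha, moveB' a b x hb]
  conv_rhs => rw [e0, moveB' a b x hb, moveA' a b x ha]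
  rw [hba, hbb]
  simp

theorem braid3 (a b : V) (ha : 0 < J a a) (hb : 0 < J b b)
    (h : (-2 * J a b / J a a) * (-2 * J a b / J b b) = 1) :
    reflE b * (reflE a * reflE b) = reflE a * (reflE b * reflE a) := by
  apply LinearEquiv.ext
  intro x
  show reflE b (reflE a (reflE b x)) = reflE a (reflE b (reflE a x))
  have e0 : x = x - (0:ℝ) • a - (0:ℝ) • b := by simp
  conv_lhs => rw [e0, moveB' a b x hb, moveA' a b x ha, moveB' a b x hb]
  conv_rhs => rw [e0, moveA' a b x ha, moveB' a b x hb, moveA' a b x ha]
  generalize -2 * J a b / J a a = α at *
  generalize -2 * J a b / J b b = β at *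
  generalize 2 * J x a / J a a = ξ at *
  generalize 2 * J x b / J b b = η at *
  congr 1
  · congr 2
    linear_combination (-ξ) * h
  · congr 1
    linear_combination η * h

theorem braid4 (a b : V) (ha : 0 < J a a) (hb : 0 < J b b)
    (h : (-2 * J a b / J a a) * (-2 * J a b / J b b) = 2) :
    reflE b * (reflE a * (reflE b * reflE a)) = reflE a * (reflE b * (reflE a * reflE b)) := by
  apply LinearEquiv.ext
  intro x
  show reflE b (reflE a (reflE b (reflE a x))) = reflE a (reflE b (reflE a (reflE b x)))
  have e0 : x = x - (0:ℝ) • a - (0:ℝ) • b := by simp
  conv_lhs => rw [e0, moveA' a b x ha, moveB' a b x hb, moveA' a b x ha, moveB' a b x hb]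
  conv_rhs => rw [e0, moveB' a b x hb, moveA' a b x ha, moveB' a b x hb, moveA' a b x ha]
  generalize -2 * J a b / J a a = α at *
  generalize -2 * J a b / J b b = β at *
  generalize 2 * J x a / J a a = ξ at *
  generalize 2 * J x b / J b b = η at *
  congr 1
  · congr 2
    linear_combination (-(α * η)) * h
  · congr 1
    linear_combination (β * ξ) * h

theorem hyp_words (a b : V) (ha : 0 < J a a) (hb : 0 < J b b) (hab : J a b ≤ 0)
    (h : 4 ≤ (-2 * J a b / J a a) * (-2 * J a b / J b b)) (x : V) (hx : J x a < 0) (hy : J x b < 0)
    (k : ℕ) :
    (∀ p q : ℝ, 1 ≤ p → 0 ≤ q → (-2 * J a b / J a a) * q ≤ 2 * p →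
      J (((altw false k).map (fun c => if c then reflE a else reflE b)).prod x) (p • a + q • b) < 0) ∧
    (∀ p q : ℝ, 1 ≤ p → 0 ≤ q → (-2 * J a b / J b b) * p ≤ 2 * q →
      J (((altw true k).map (fun c => if c then reflE a else reflE b)).prod x) (p • a + q • b) < 0) := by
  have hα : 0 ≤ -2 * J a b / J a a := by
    apply div_nonneg _ ha.le
    linarith
  have hβ : 0 ≤ -2 * J a b / J b b := by
    apply div_nonneg _ hb.le
    linarith
  induction k with
  | zero =>
    have key : ∀ p q : ℝ, 1 ≤ p → 0 ≤ q → J x (p • a + q • b) < 0 := by
      intro p q hp hq
      rw [J_add_right, J_smul_right, J_smul_right]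
      have h1 : p * J x a < 0 := mul_neg_of_pos_of_neg (by linarith) hx
      have h2 : q * J x b ≤ 0 := mul_nonpos_of_nonneg_of_nonpos hq hy.le
      linarith
    exact ⟨fun p q hp hq _ => key p q hp hq, fun p q hp hq _ => key p q hp hq⟩
  | succ k ih =>
    obtain ⟨ih1, ih2⟩ := ih
    constructor
    · intro p q hp hq hpq
      have e1 : ((altw false (k+1)).map (fun c => if c then reflE a else reflE b)).prod x =
          reflE b (((altw true k).map (fun c => if c then reflE a else reflE b)).prod x) := by
        simp [altw, LinearEquiv.mul_apply]
      rw [e1, stepB' a b _ hb]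
      generalize -2 * J a b / J a a = α at *
      generalize -2 * J a b / J b b = β at *
      have h2 : 2 * q ≤ β * p := by nlinarith
      apply ih2
      · exact hp
      · linarith
      · linarith
    · intro p q hp hq hpq
      have e1 : ((altw true (k+1)).map (fun c => if c then reflE a else reflE b)).prod x =
          reflE a (((altw false k).map (fun c => if c then reflE a else reflE b)).prod x) := by
        simp [altw, LinearEquiv.mul_apply]
      rw [e1, stepA' a b _ ha]
      generalize -2 * J a b / J a a = α at *
      generalize -2 * J a b / J b b = β at *
      have h2 : 2 * p ≤ α * q := by nlinarith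
      apply ih1
      · linarith
      · exact hq
      · linarith

theorem dihedral (a b : V) (ha : 0 < J a a) (hb : 0 < J b b) (hab : AngleOK a b) (l : List Bool) :
    (∀ x, J x a < 0 → J x b < 0 →
      J ((l.map (fun c => if c then reflE a else reflE b)).prod x) a < 0) ∨
    (∃ l' : List Bool, l'.length < l.length ∧
      (l'.map (fun c => if c then reflE a else reflE b)).prod =
        (l.map (fun c => if c then reflE a else reflE b)).prod) ∨
    (∃ l' : List Bool, l'.length + 1 ≤ l.length ∧
      (l'.map (fun c => if c then reflE a else reflE b)).prod =
        reflE a * (l.map (fun c => if c then reflE a else reflE b)).prod) := by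
  have hf : ∀ c : Bool, (if c then reflE a else reflE b) * (if c then reflE a else reflE b) = 1 := by
    intro c
    cases c
    · exact reflE_mul_self' b
    · exact reflE_mul_self' a
  rcases altw_dich (fun c => if c then reflE a else reflE b) hf l with h | ⟨c, hc⟩
  · exact Or.inr (Or.inl h)
  · obtain ⟨k, hk⟩ : ∃ k, k = l.length := ⟨_, rfl⟩
    rw [← hk] at hc ⊢
    subst hc
    clear hk
    rcases c with _ | _
    · -- starts with false
      obtain ⟨hab0, hcase⟩ := hab
      have hx1 : ∀ x : V, J x a = J x ((1:ℝ) • a + (0:ℝ) • b) := by
        intro x; simp
      have hα : 0 ≤ -2 * J a b / J a a := by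
        apply div_nonneg _ ha.le
        linarith
      have hβ : 0 ≤ -2 * J a b / J b b := by
        apply div_nonneg _ hb.le
        linarith
      have hprod : (-2 * J a b / J a a) * (-2 * J a b / J b b) =
          4 * J a b ^ 2 / (J a a * J b b) := by
        field_simp
        ring
      have hAB : 0 < J a a * J b b := mul_pos ha hb
      rcases hcase with h | h | h | h
      · -- right angle
        rcases k with _ | _ | k
        · exact Or.inl (fun x hx _ => hx)
        · refine Or.inl (fun x hx hy => ?_)
          have e1 : ((altw false 1).map (fun c => if c then reflE a else reflE b)).prod x =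
              reflE b x := by simp [altw]
          rw [e1, hx1, stepB' a b _ hb, J_add_right, J_smul_right, J_smul_right, h]
          simpa using hx
        · refine Or.inr (Or.inr ⟨false :: altw false k, ?_, ?_⟩)
          · simp [altw_length]
          · simp only [altw, List.map_cons, List.prod_cons, Bool.not_false, Bool.not_true]
            simp only [if_true, Bool.false_eq_true, if_false]
            rw [← mul_assoc (reflE b), braid2 a b ha hb h]
            simp only [← mul_assoc]
            rw [reflE_mul_self', one_mul]
      · have h1 : (-2 * J a b / J a a) * (-2 * J a b / J b b) = 1 := by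
          rw [hprod, h, div_self hAB.ne']
        have hβ' : 0 < -2 * J a b / J b b := by
          rcases hβ.lt_or_eq with h2 | h2
          · exact h2
          · rw [← h2, mul_zero] at h1; norm_num at h1
        rcases k with _ | _ | _ | k
        · exact Or.inl (fun x hx _ => hx)
        · refine Or.inl (fun x hx hy => ?_)
          have e1 : ((altw false 1).map (fun c => if c then reflE a else reflE b)).prod x =
              reflE b x := by simp [altw]
          rw [e1, hx1, stepB' a b _ hb, J_add_right, J_smul_right, J_smul_right]
          have := mul_neg_of_pos_of_neg hβ' hy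
          linarith
        · refine Or.inl (fun x hx hy => ?_)
          have e1 : ((altw false 2).map (fun c => if c then reflE a else reflE b)).prod x =
              reflE b (reflE a x) := by simp [altw, LinearEquiv.mul_apply]
          rw [e1, hx1, stepB' a b _ hb, stepA' a b _ ha, J_add_right, J_smul_right, J_smul_right]
          have h3 := mul_neg_of_pos_of_neg hβ' hy
          generalize -2 * J a b / J a a = α at *
          generalize -2 * J a b / J b b = β at *
          have h4 : (α * (β * 1 - 0) - 1) = 0 := by linear_combination h1
          rw [h4]
          linarith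
        · refine Or.inr (Or.inr ⟨false :: true :: altw true k, ?_, ?_⟩)
          · simp [altw_length]
          · simp only [altw, List.map_cons, List.prod_cons, Bool.not_false, Bool.not_true]
            simp only [if_true, Bool.false_eq_true, if_false]
            generalize (List.map (fun c => if c = true then reflE a else reflE b) _).prod = w
            have h5 := braid3 a b ha hb h1
            have h6 : reflE a * (reflE b * (reflE a * (reflE b * w))) =
                reflE a * ((reflE b * (reflE a * reflE b)) * w) := by
              simp only [mul_assoc]
            rw [h6, h5]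
            have h7 : reflE a * ((reflE a * (reflE b * reflE a)) * w) =
                (reflE a * reflE a) * (reflE b * (reflE a * w)) := by
              simp only [mul_assoc]
            rw [h7, reflE_mul_self', one_mul]
      · have h1 : (-2 * J a b / J a a) * (-2 * J a b / J b b) = 2 := by
          rw [hprod, div_eq_iff hAB.ne', ← h]
          ring
        have hβ' : 0 < -2 * J a b / J b b := by
          rcases hβ.lt_or_eq with h2 | h2
          · exact h2
          · rw [← h2, mul_zero] at h1; norm_num at h1
        rcases k with _ | _ | _ | _ | k
        · exact Or.inl (fun x hx _ => hx)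
        · refine Or.inl (fun x hx hy => ?_)
          have e1 : ((altw false 1).map (fun c => if c then reflE a else reflE b)).prod x =
              reflE b x := by simp [altw]
          rw [e1, hx1, stepB' a b _ hb, J_add_right, J_smul_right, J_smul_right]
          have := mul_neg_of_pos_of_neg hβ' hy
          linarith
        · refine Or.inl (fun x hx hy => ?_)
          have e1 : ((altw false 2).map (fun c => if c then reflE a else reflE b)).prod x =
              reflE b (reflE a x) := by simp [altw, LinearEquiv.mul_apply]
          rw [e1, hx1, stepB' a b _ hb, stepA' a b _ ha, J_add_right, J_smul_right, J_smul_right]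
          have h3 := mul_neg_of_pos_of_neg hβ' hy
          generalize -2 * J a b / J a a = α at *
          generalize -2 * J a b / J b b = β at *
          have h4 : (α * (β * 1 - 0) - 1) = 1 := by linear_combination h1
          rw [h4]
          linarith
        · refine Or.inl (fun x hx hy => ?_)
          have e1 : ((altw false 3).map (fun c => if c then reflE a else reflE b)).prod x =
              reflE b (reflE a (reflE b x)) := by simp [altw, LinearEquiv.mul_apply]
          rw [e1, hx1, stepB' a b _ hb, stepA' a b _ ha, stepB' a b _ hb, J_add_right,
            J_smul_right, J_smul_right]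
          generalize -2 * J a b / J a a = α at *
          generalize -2 * J a b / J b b = β at *
          have h4 : (α * (β * 1 - 0) - 1) = 1 := by linear_combination h1
          rw [h4]
          linarith
        · refine Or.inr (Or.inr ⟨false :: true :: false :: altw false k, ?_, ?_⟩)
          · simp [altw_length]
          · simp only [altw, List.map_cons, List.prod_cons, Bool.not_false, Bool.not_true]
            simp only [if_true, Bool.false_eq_true, if_false]
            generalize (List.map (fun c => if c = true then reflE a else reflE b) _).prod = w
            have h5 := braid4 a b ha hb h1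
            have h6 : reflE a * (reflE b * (reflE a * (reflE b * (reflE a * w)))) =
                reflE a * ((reflE b * (reflE a * (reflE b * reflE a))) * w) := by
              simp only [mul_assoc]
            rw [h6, h5]
            have h7 : reflE a * ((reflE a * (reflE b * (reflE a * reflE b))) * w) =
                (reflE a * reflE a) * (reflE b * (reflE a * (reflE b * w))) := by
              simp only [mul_assoc]
            rw [h7, reflE_mul_self', one_mul]
      · refine Or.inl (fun x hx hy => ?_)
        have h4 : 4 ≤ (-2 * J a b / J a a) * (-2 * J a b / J b b) := by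
          rw [hprod, le_div_iff₀ hAB]
          linarith
        rw [hx1]
        exact (hyp_words a b ha hb hab0 h4 x hx hy k).1 1 0 le_rfl le_rfl (by simp)
    · -- starts with true
      rcases k with _ | k
      · exact Or.inl (fun x hx _ => hx)
      · refine Or.inr (Or.inr ⟨altw false k, ?_, ?_⟩)
        · simp [altw_length]
        · simp only [altw, List.map_cons, List.prod_cons, if_true, Bool.not_true]
          rw [← mul_assoc, reflE_mul_self', one_mul]

end Pool.Agent.Helper132.H3Refl
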