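import Pool.Agent.Helper132.H3Refl.Angle
import Pool.Agent.Helper132.H3Refl.F1

set_option autoImplicit false
set_option linter.unusedVariables false
open scoped ENNReal
noncomputable section
namespace Pool.Agent.Helper132.H3Refl

def tw {ι : Type} (e : ι → V) (l : List ι) : V ≃ₗ[ℝ] V := (l.map fun i => reflE (e i)).prod

def tl {ι : Type} (e : ι → V) (g : V ≃ₗ[ℝ] V) : ℕ := sInf {n | ∃ l : List ι, l.length = n ∧ tw e l = g}

theorem reflE_mul_self (a : V) : reflE a * reflE a = 1 := by
  ext1 x
  exact refl_refl a x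

theorem tw_nil {ι : Type} (e : ι → V) : tw e [] = 1 := rfl

theorem tw_cons {ι : Type} (e : ι → V) (i : ι) (l : List ι) : tw e (i :: l) = reflE (e i) * tw e l := by
  simp [tw]

theorem tw_append {ι : Type} (e : ι → V) (l m : List ι) : tw e (l ++ m) = tw e l * tw e m := by
  simp [tw]

theorem tl_le {ι : Type} (e : ι → V) (l : List ι) (g : V ≃ₗ[ℝ] V) (h : tw e l = g) : tl e g ≤ l.length :=
  Nat.sInf_le ⟨l, rfl, h⟩

theorem tl_spec {ι : Type} (e : ι → V) (g : V ≃ₗ[ℝ] V) (h : ∃ l, tw e l = g) :
    ∃ l : List ι, l.length = tl e g ∧ tw e l = g := by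
  obtain ⟨l, hl⟩ := h
  exact Nat.sInf_mem (s := {n | ∃ l : List ι, l.length = n ∧ tw e l = g}) ⟨l.length, l, rfl, hl⟩

theorem tw_bool {ι : Type} (e : ι → V) (i j : ι) (l : List Bool) :
    (l.map (fun c => if c then reflE (e i) else reflE (e j))).prod =
      tw e (l.map (fun c => if c then i else j)) := by
  unfold tw
  rw [List.map_map]
  congr 2
  funext c
  cases c <;> simp

theorem tw_inv {ι : Type} (e : ι → V) (l : List ι) : tw e l.reverse * tw e l = 1 := by
  induction l with
  | nil => simp [tw]
  | cons i l ih =>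
    rw [List.reverse_cons, tw_append, tw_cons, tw_cons, tw_nil, mul_one, mul_assoc,
      ← mul_assoc (reflE (e i)), reflE_mul_self, one_mul, ih]

theorem tw_exists {ι : Type} (e : ι → V) (g : V ≃ₗ[ℝ] V)
    (hg : g ∈ Subgroup.closure (Set.range fun i => reflE (e i))) : ∃ l, tw e l = g := by
  induction hg using Subgroup.closure_induction with
  | mem x hx =>
    obtain ⟨i, rfl⟩ := hx
    exact ⟨[i], by simp [tw]⟩
  | one => exact ⟨[], rfl⟩
  | mul x y _ _ hx hy =>
    obtain ⟨l, hl⟩ := hx
    obtain ⟨m, hm⟩ := hy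
    exact ⟨l ++ m, by rw [tw_append, hl, hm]⟩
  | inv x _ hx =>
    obtain ⟨l, hl⟩ := hx
    refine ⟨l.reverse, ?_⟩
    rw [eq_inv_iff_mul_eq_one, ← hl, tw_inv]

theorem tits_claim {ι : Type} (e : ι → V) (hpos : ∀ i, 0 < J (e i) (e i))
    (hang : ∀ i j, i ≠ j → AngleOK (e i) (e j)) (x : V) (hx : ∀ i, J x (e i) < 0) (n : ℕ) :
    ∀ g : V ≃ₗ[ℝ] V, (∃ l, tw e l = g) → tl e g = n → ∀ i, ¬ (tl e (reflE (e i) * g) < tl e g) →
      J (g x) (e i) < 0 := by
  induction n using Nat.strong_induction_on with
  | _ n ih =>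
  intro g hgW hn i hi
  obtain ⟨l0, hl0, hg0⟩ := tl_spec e g hgW
  cases l0 with
  | nil =>
    rw [tw_nil] at hg0
    rw [← hg0]
    exact hx i
  | cons j l0 =>
    rw [tw_cons] at hg0
    have hlen : l0.length + 1 = n := by rw [← hn, ← hl0, List.length_cons]
    have hij : i ≠ j := by
      rintro rfl
      apply hi
      have : tw e l0 = reflE (e i) * g := by
        rw [← hg0, ← mul_assoc, reflE_mul_self, one_mul]
      have := tl_le e l0 _ this
      omega
    classical
    let P : ℕ → Prop := fun m => ∃ (l : List Bool) (v : List ι),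
      (l.map (fun c => if c then reflE (e i) else reflE (e j))).prod * tw e v = g ∧
        l.length + v.length ≤ n ∧ v.length = m
    have hP : ∃ m, P m := by
      refine ⟨l0.length, [false], l0, ?_, ?_, rfl⟩
      · simp [hg0]
      · simp; omega
    have hm_lt : Nat.find hP ≤ l0.length := by
      apply Nat.find_min'
      refine ⟨[false], l0, ?_, ?_, rfl⟩
      · simp [hg0]
      · simp; omega
    obtain ⟨l, v, hlv, hle, hv⟩ := Nat.find_spec hP
    have hmin : ∀ m, P m → v.length ≤ m := fun m hm => hv ▸ Nat.find_min' hP hm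
    have hvl : v.length ≤ l0.length := hv ▸ hm_lt
    have hvW : ∃ l, tw e l = tw e v := ⟨v, rfl⟩
    have hvt : tl e (tw e v) ≤ v.length := tl_le e v _ rfl
    have key : ∀ c : Bool, ¬ (tl e (reflE (e (if c then i else j)) * tw e v) < tl e (tw e v)) := by
      intro c hc
      obtain ⟨v', hv'l, hv'⟩ := tl_spec e (reflE (e (if c then i else j)) * tw e v)
        ⟨(if c then i else j) :: v, tw_cons _ _ _⟩
      have h1 : P v'.length := by
        refine ⟨l ++ [c], v', ?_, ?_, rfl⟩
        · rw [hv', List.map_append, List.prod_append]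
          have : (List.map (fun c => if c then reflE (e i) else reflE (e j)) [c]).prod =
              reflE (e (if c then i else j)) := by
            cases c <;> simp
          rw [this, mul_assoc, ← mul_assoc (reflE _), reflE_mul_self, one_mul, hlv]
        · rw [List.length_append, List.length_singleton]
          omega
      have := hmin _ h1
      omega
    have hvi : J (tw e v x) (e i) < 0 :=
      ih (tl e (tw e v)) (by omega) (tw e v) hvW rfl i (by simpa using key true)
    have hvj : J (tw e v x) (e j) < 0 :=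
      ih (tl e (tw e v)) (by omega) (tw e v) hvW rfl j (by simpa using key false)
    rcases dihedral (e i) (e j) (hpos i) (hpos j) (hang i j hij) l with h | ⟨l', hl', h⟩ | ⟨l', hl', h⟩
    · rw [← hlv]
      exact h _ hvi hvj
    · exfalso
      have : tw e (l'.map (fun c => if c then i else j) ++ v) = g := by
        rw [tw_append, ← tw_bool, h, hlv]
      have := tl_le e _ _ this
      rw [List.length_append, List.length_map] at this
      omega
    · exfalso
      apply hi
      have : tw e (l'.map (fun c => if c then i else j) ++ v) = reflE (e i) * g := by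
        rw [tw_append, ← tw_bool, h, mul_assoc, hlv]
      have := tl_le e _ _ this
      rw [List.length_append, List.length_map] at this
      omega

theorem J_reflE_self (a y : V) (ha : 0 < J a a) : J (reflE a y) a = - J y a := by
  rw [reflE_apply, J_sub_left, J_smul_left]
  field_simp
  ring

theorem tits {ι : Type} (e : ι → V) (hpos : ∀ i, 0 < J (e i) (e i))
    (hang : ∀ i j, i ≠ j → AngleOK (e i) (e j)) (g : V ≃ₗ[ℝ] V)
    (hg : g ∈ Subgroup.closure (Set.range fun i => reflE (e i))) (x : V) (hx : ∀ i, J x (e i) < 0)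
    (hgx : ∀ i, J (g x) (e i) < 0) : g = 1 := by
  obtain ⟨l, hl, hlg⟩ := tl_spec e g (tw_exists e g hg)
  cases l with
  | nil => rw [← hlg, tw_nil]
  | cons i l =>
    exfalso
    rw [tw_cons] at hlg
    have h1 : tl e (tw e l) ≤ l.length := tl_le e l _ rfl
    have h2 : J (tw e l x) (e i) < 0 := by
      apply tits_claim e hpos hang x hx _ (tw e l) ⟨l, rfl⟩ rfl i
      rw [hlg, ← hl, List.length_cons]
      omega
    have h3 := J_reflE_self (e i) (tw e l x) (hpos i)
    have h4 := hgx i
    rw [← hlg] at h4
    change J (reflE (e i) (tw e l x)) (e i) < 0 at h4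
    rw [h3] at h4
    linarith

end Pool.Agent.Helper132.H3Refl
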