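import Pool.Agent.Helper132.H3Refl.Angle
import Pool.Agent.Helper132.H3Refl.A1
import Pool.Agent.Helper132.H3Refl.A2
import Pool.Agent.Helper132.H3Refl.B1
import Pool.Agent.Helper132.H3Refl.C1
import Pool.Agent.Helper132.H3Refl.D1
import Pool.Agent.Helper132.H3Refl.F2

set_option autoImplicit false
set_option linter.unusedVariables false
open scoped ENNReal
noncomputable section
namespace Pool.Agent.Helper132.H3Refl

theorem dot_near {g : V ≃ₗ[ℝ] V} {ε : ℝ} (hg : near ε g) (x : V) (j : Fin 4) :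
    |(g x) j - x j| ≤ ε * (|x 0| + |x 1| + |x 2| + |x 3|) := by
  have hx : x = x 0 • (Pi.single 0 1 : V) + x 1 • (Pi.single 1 1 : V) + x 2 • (Pi.single 2 1 : V) +
      x 3 • (Pi.single 3 1 : V) := by
    ext k
    fin_cases k <;> simp
  have h1 : (g x) j - x j = x 0 * (g (Pi.single 0 1) j - (Pi.single 0 1 : V) j) +
      x 1 * (g (Pi.single 1 1) j - (Pi.single 1 1 : V) j) +
      x 2 * (g (Pi.single 2 1) j - (Pi.single 2 1 : V) j) +
      x 3 * (g (Pi.single 3 1) j - (Pi.single 3 1 : V) j) := by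
    conv_lhs => rw [hx]
    simp only [map_add, map_smul, Pi.add_apply, Pi.smul_apply, smul_eq_mul]
    ring
  rw [h1]
  have hb : ∀ i : Fin 4, |x i * (g (Pi.single i 1) j - (Pi.single i 1 : V) j)| ≤ |x i| * ε := by
    intro i
    rw [abs_mul]
    exact mul_le_mul_of_nonneg_left (hg i j).le (abs_nonneg _)
  have t1 := abs_add_le (x 0 * (g (Pi.single 0 1) j - (Pi.single 0 1 : V) j) +
      x 1 * (g (Pi.single 1 1) j - (Pi.single 1 1 : V) j) +
      x 2 * (g (Pi.single 2 1) j - (Pi.single 2 1 : V) j))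
      (x 3 * (g (Pi.single 3 1) j - (Pi.single 3 1 : V) j))
  have t2 := abs_add_le (x 0 * (g (Pi.single 0 1) j - (Pi.single 0 1 : V) j) +
      x 1 * (g (Pi.single 1 1) j - (Pi.single 1 1 : V) j))
      (x 2 * (g (Pi.single 2 1) j - (Pi.single 2 1 : V) j))
  have t3 := abs_add_le (x 0 * (g (Pi.single 0 1) j - (Pi.single 0 1 : V) j))
      (x 1 * (g (Pi.single 1 1) j - (Pi.single 1 1 : V) j))
  have := hb 0
  have := hb 1
  have := hb 2
  have := hb 3
  linarith

theorem dot_J {u : V} {δ : ℝ} (hu : ∀ j, |u j| ≤ δ) (e : V) :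
    J u e ≤ δ * (|e 0| + |e 1| + |e 2| + |e 3|) := by
  have hb : ∀ j, |u j * e j| ≤ δ * |e j| := by
    intro j
    rw [abs_mul]
    exact mul_le_mul_of_nonneg_right (hu j) (abs_nonneg _)
  have h0 := neg_abs_le (u 0 * e 0)
  have h1 := le_abs_self (u 1 * e 1)
  have h2 := le_abs_self (u 2 * e 2)
  have h3 := le_abs_self (u 3 * e 3)
  have := hb 0
  have := hb 1
  have := hb 2
  have := hb 3
  simp only [J]
  linarith

open Filter Topology in
theorem discr_of_tits {ι : Type} [Finite ι] (e : ι → V) (hpos : ∀ i, 0 < J (e i) (e i))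
    (hang : ∀ i j, i ≠ j → AngleOK (e i) (e j)) (x : V) (hx : ∀ i, J x (e i) < 0) :
    Discr (Subgroup.closure (Set.range fun i => reflE (e i))) := by
  set S := |x 0| + |x 1| + |x 2| + |x 3| with hS
  let L : ι → ℝ := fun i => |e i 0| + |e i 1| + |e i 2| + |e i 3|
  have hev : ∀ᶠ ε in 𝓝[>] (0:ℝ), ∀ i, ε * S * L i < -(J x (e i)) := by
    rw [Filter.eventually_all]
    intro i
    have hc : Continuous fun ε : ℝ => ε * S * L i := by fun_prop
    have : Tendsto (fun ε : ℝ => ε * S * L i) (𝓝[>] 0) (𝓝 (0 * S * L i)) :=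
      (hc.tendsto 0).mono_left nhdsWithin_le_nhds
    rw [zero_mul, zero_mul] at this
    exact this.eventually_lt_const (by linarith [hx i])
  obtain ⟨ε, hε, hε0⟩ := (hev.and self_mem_nhdsWithin).exists
  refine ⟨ε, hε0, fun g hg hn => tits e hpos hang g hg x hx (fun i => ?_)⟩
  have h1 : J (g x) (e i) = J x (e i) + J (g x - x) (e i) := by
    rw [J_sub_left]; ring
  have h2 := dot_J (u := g x - x) (δ := ε * S) (fun j => dot_near hn x j) (e i)
  have := hε i
  rw [h1]
  simp only [L] at this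
  linarith

theorem cover_of_discr {ι : Type} (e : ι → V) (hpos : ∀ i, 0 < J (e i) (e i)) (b : V) (hb : b ∈ H3)
    (hx : ∀ i, J b (e i) < 0) (hd : Discr (Subgroup.closure (Set.range fun i => reflE (e i)))) :
    ∀ x ∈ H3, ∃ g ∈ Subgroup.closure (Set.range fun i => reflE (e i)), ∀ i, J (g x) (e i) ≤ 0 := by
  intro x hxH
  set M := Subgroup.closure (Set.range fun i => reflE (e i)) with hM
  have hMI : M ≤ IsomH3 := by
    rw [hM, Subgroup.closure_le]
    rintro _ ⟨i, rfl⟩
    exact reflE_isom (hpos i)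
  obtain ⟨R, hR⟩ := isom_bdd x b hxH hb (-(J x b))
  have hfin : {g | g ∈ M ∧ -(J (g x) b) ≤ -(J x b)}.Finite :=
    (discr_finite hMI hd R).subset fun g hg => ⟨hg.1, hR g (hMI hg.1) hg.2⟩
  have hne : {g | g ∈ M ∧ -(J (g x) b) ≤ -(J x b)}.Nonempty := ⟨1, M.one_mem, le_refl _⟩
  obtain ⟨g, hg, hmin⟩ := Set.exists_min_image _ (fun g : V ≃ₗ[ℝ] V => -(J (g x) b)) hfin hne
  have hmin' : ∀ g' ∈ M, -(J (g x) b) ≤ -(J (g' x) b) := by
    intro g' hg'
    by_cases hc : -(J (g' x) b) ≤ -(J x b)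
    · exact hmin g' ⟨hg', hc⟩
    · exact hg.2.trans (not_le.mp hc).le
  refine ⟨g, hg.1, fun i => ?_⟩
  by_contra hcon
  have hcon' : 0 < J (g x) (e i) := not_le.mp hcon
  have hs : reflE (e i) ∈ M := Subgroup.subset_closure ⟨i, rfl⟩
  have h1 := hmin' (reflE (e i) * g) (M.mul_mem hs hg.1)
  have h2 : (reflE (e i) * g) x = g x - (2 * J (g x) (e i) / J (e i) (e i)) • e i := rfl
  rw [h2, J_sub_left, J_smul_left, J_symm (e i) b] at h1
  have h3 : 0 < 2 * J (g x) (e i) / J (e i) (e i) := by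
    have := hpos i
    positivity
  have h4 := mul_neg_of_pos_of_neg h3 (hx i)
  linarith

end Pool.Agent.Helper132.H3Refl
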