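import Pool.Agent.Helper132.H3Refl.Angle

set_option autoImplicit false
set_option linter.unusedVariables false
open scoped ENNReal
noncomputable section
namespace Pool.Agent.Helper132.H3Refl

theorem AngleOK.symm' {a b : V} (h : AngleOK a b) : AngleOK b a := by
  unfold AngleOK at h ⊢
  rw [J_symm b a, mul_comm (J b b) (J a a)]
  exact h

theorem p3 (j : ℕ) : (3 : ℝ) ^ j * (1 / 3) ^ j = 1 := by
  rw [← mul_pow]; norm_num

theorem al_al : J al al = 1 := by unfold al; rw [J_mk]; norm_num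
theorem be_be : J be be = 2 := by unfold be; rw [J_mk]; norm_num
theorem gg_gg : J gg gg = 1 := by unfold gg; rw [J_mk]; norm_num
theorem ww_ww (n : ℕ) : J (ww n) (ww n) = 3 := by
  unfold ww; rw [J_mk]; linear_combination 3 * p3 n
theorem ff_ff (j : ℕ) : J (ff j) (ff j) = 2 := by
  unfold ff; rw [J_mk]; linear_combination (-3) * p3 j
theorem al_be : J al be = -1 := by unfold al be; rw [J_mk]; norm_num
theorem al_gg : J al gg = 0 := by unfold al gg; rw [J_mk]; norm_num
theorem al_ww (n : ℕ) : J al (ww n) = 0 := by unfold al ww; rw [J_mk]; norm_num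
theorem al_ff (j : ℕ) : J al (ff j) = -1 := by unfold al ff; rw [J_mk]; norm_num
theorem be_gg : J be gg = -1 := by unfold be gg; rw [J_mk]; norm_num
theorem be_ww (n : ℕ) : J be (ww n) = 0 := by unfold be ww; rw [J_mk]; norm_num
theorem be_ff (j : ℕ) : J be (ff j) = -1 := by unfold be ff; rw [J_mk]; norm_num
theorem gg_ww (n : ℕ) : J gg (ww n) = -2 * 3 ^ n := by unfold gg ww; rw [J_mk]; ring
theorem gg_ff (j : ℕ) : J gg (ff j) = 2 - 2 * 3 ^ j := by unfold gg ff; rw [J_mk]; ring
theorem ff_ww (j k : ℕ) : J (ff j) (ww (j + k)) = -(3 / 2) * (3 ^ k - (1 / 3) ^ k) := by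
  unfold ff ww; rw [J_mk, pow_add, pow_add]
  linear_combination (-(3 / 2) * (3 ^ k - (1 / 3) ^ k)) * p3 j
theorem ff_ff' (j k : ℕ) : J (ff j) (ff (j + k)) = 5 - (3 / 2) * (3 ^ k + (1 / 3) ^ k) := by
  unfold ff; rw [J_mk, pow_add, pow_add]
  linear_combination (-(3 / 2) * (3 ^ k + (1 / 3) ^ k)) * p3 j

theorem one_le_p (n : ℕ) : (1 : ℝ) ≤ 3 ^ n := one_le_pow₀ (by norm_num)
theorem q_pos (n : ℕ) : (0 : ℝ) < (1 / 3) ^ n := by positivity
theorem q_le (n : ℕ) : ((1 / 3 : ℝ)) ^ n ≤ 1 := pow_le_one₀ (by norm_num) (by norm_num)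

theorem A_al_be : AngleOK al be := by
  unfold AngleOK; rw [al_be, al_al, be_be]; norm_num
theorem A_al_gg : AngleOK al gg := by
  unfold AngleOK; rw [al_gg]; norm_num
theorem A_al_ww (n : ℕ) : AngleOK al (ww n) := by
  unfold AngleOK; rw [al_ww]; norm_num
theorem A_al_ff (j : ℕ) : AngleOK al (ff j) := by
  unfold AngleOK; rw [al_ff, al_al, ff_ff]; norm_num
theorem A_be_gg : AngleOK be gg := by
  unfold AngleOK; rw [be_gg, be_be, gg_gg]; norm_num
theorem A_be_ww (n : ℕ) : AngleOK be (ww n) := by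
  unfold AngleOK; rw [be_ww]; norm_num
theorem A_be_ff (j : ℕ) : AngleOK be (ff j) := by
  unfold AngleOK; rw [be_ff, be_be, ff_ff]; norm_num
theorem A_gg_ww (n : ℕ) : AngleOK gg (ww n) := by
  unfold AngleOK; rw [gg_ww, gg_gg, ww_ww]
  have h := one_le_p n
  refine ⟨by linarith, Or.inr (Or.inr (Or.inr ?_))⟩
  nlinarith
theorem A_gg_ff (j : ℕ) : AngleOK gg (ff j) := by
  unfold AngleOK; rw [gg_ff, gg_gg, ff_ff]
  have h := one_le_p j
  refine ⟨by linarith, ?_⟩
  rcases j with _ | j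
  · left; norm_num
  · right; right; right
    have h2 : (3 : ℝ) ≤ 3 ^ (j + 1) := by
      rw [pow_succ]; have := one_le_p j; linarith
    nlinarith
theorem A_ff_ww' (j k : ℕ) : AngleOK (ff j) (ww (j + k)) := by
  unfold AngleOK; rw [ff_ww, ff_ff, ww_ww]
  have h := one_le_p k
  have h' := q_le k
  refine ⟨by linarith, ?_⟩
  rcases k with _ | k
  · left; norm_num
  · right; right; right
    have h2 : (3 : ℝ) ≤ 3 ^ (k + 1) := by
      rw [pow_succ]; have := one_le_p k; linarith
    have h3 : ((1 / 3 : ℝ)) ^ (k + 1) ≤ 1 / 3 := by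
      rw [pow_succ]; have := q_le k; linarith
    nlinarith
theorem A_ff_ww (j n : ℕ) (h : j ≤ n) : AngleOK (ff j) (ww n) := by
  obtain ⟨k, rfl⟩ := Nat.exists_eq_add_of_le h
  exact A_ff_ww' j k
theorem A_ff_ff' (j k : ℕ) (hk : 1 ≤ k) : AngleOK (ff j) (ff (j + k)) := by
  unfold AngleOK; rw [ff_ff', ff_ff, ff_ff]
  rcases k with _ | _ | k
  · omega
  · norm_num
  · have h2 : (9 : ℝ) ≤ 3 ^ (k + 1 + 1) := by
      rw [pow_succ, pow_succ]; have := one_le_p k; linarith
    have h3 := q_pos (k + 1 + 1)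
    refine ⟨by linarith, Or.inr (Or.inr (Or.inr ?_))⟩
    nlinarith
theorem A_ff_ff (i j : ℕ) (h : i ≠ j) : AngleOK (ff i) (ff j) := by
  rcases lt_or_gt_of_ne h with h | h
  · obtain ⟨k, rfl⟩ := Nat.exists_eq_add_of_le h.le
    exact A_ff_ff' i k (by omega)
  · obtain ⟨k, rfl⟩ := Nat.exists_eq_add_of_le (show j ≤ i from h.le)
    exact (A_ff_ff' j k (by omega)).symm'

theorem EE_pos (n : ℕ) (i) : 0 < J (EE n i) (EE n i) := by
  rcases i with i | j
  · fin_cases i
    · show 0 < J al al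
      rw [al_al]; norm_num
    · show 0 < J be be
      rw [be_be]; norm_num
    · show 0 < J gg gg
      rw [gg_gg]; norm_num
    · show 0 < J (ww n) (ww n)
      rw [ww_ww]; norm_num
  · show 0 < J (ff j) (ff j)
    rw [ff_ff]; norm_num

theorem EE_angle_lr (n : ℕ) (i : Fin 4) (j : Fin (n + 1)) : AngleOK (EE n (Sum.inl i)) (EE n (Sum.inr j)) := by
  fin_cases i
  · exact A_al_ff j
  · exact A_be_ff j
  · exact A_gg_ff j
  · exact (A_ff_ww j n (Nat.lt_succ_iff.1 j.2)).symm'

theorem EE_angle (n : ℕ) (i j) (h : i ≠ j) : AngleOK (EE n i) (EE n j) := by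
  rcases i with i | i <;> rcases j with j | j
  · have hl : ∀ i j : Fin 4, i < j → AngleOK (EE n (Sum.inl i)) (EE n (Sum.inl j)) := by
      intro i j hij
      fin_cases i <;> fin_cases j <;> first
        | exact absurd hij (by decide)
        | exact A_al_be
        | exact A_al_gg
        | exact A_al_ww n
        | exact A_be_gg
        | exact A_be_ww n
        | exact A_gg_ww n
    rcases lt_trichotomy i j with hij | hij | hij
    · exact hl i j hij
    · exact absurd (by rw [hij]) h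
    · exact (hl j i hij).symm'
  · exact EE_angle_lr n i j
  · exact (EE_angle_lr n j i).symm'
  · apply A_ff_ff
    intro h2
    exact h (by rw [Fin.ext h2])

theorem idv_null {n : ℕ} {c : V} (hc : c ∈ idv n) : J c c = 0 ∧ 0 < c 0 := by
  have h3 : (0 : ℝ) < √3 := by positivity
  rcases hc with rfl | ⟨j, -, rfl⟩
  · refine ⟨?_, ?_⟩
    · unfold NN; rw [J_mk]; norm_num
    · simp only [NN, mk, Matrix.cons_val_zero]
      positivity
  · refine ⟨?_, ?_⟩
    · unfold cc; rw [J_mk, pow_succ]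
      linear_combination (-1) * p3 j
    · simp only [cc, mk, Matrix.cons_val_zero]
      positivity

end Pool.Agent.Helper132.H3Refl
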