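import Pool.Agent.Helper132.H3Refl.Angle
import Pool.Agent.Helper132.H3Refl.H1

set_option autoImplicit false
set_option linter.unusedVariables false
open scoped ENNReal
noncomputable section
namespace Pool.Agent.Helper132.H3Refl

theorem PP_interior (n : ℕ) (hn : 1 ≤ n) : ∃ b ∈ H3, ∀ i, J b (EE n i) < 0 := by
  set u : V := mk 1 1 (1 / 5) (2 / 5) with hu
  have huu : J u u = -(14 / 5) := by rw [hu, J_mk]; norm_num
  have hc : 0 < 1 / √(14 / 5 : ℝ) := by positivity
  have hu0 : 0 < u 0 := by
    have h1 : u 0 = √3 * (1 + 1) / 2 := rfl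
    rw [h1]; positivity
  have hneg : ∀ i, J u (EE n i) < 0 := by
    intro i
    rcases i with i | j
    · fin_cases i
      · show J u al < 0
        rw [hu, al, J_mk]; norm_num
      · show J u be < 0
        rw [hu, be, J_mk]; norm_num
      · show J u gg < 0
        rw [hu, gg, J_mk]; norm_num
      · show J u (ww n) < 0
        rw [hu, ww, J_mk]
        have h1 : (1 : ℝ) < 3 ^ n := one_lt_pow₀ (by norm_num) (by omega)
        have h2 : ((1 : ℝ) / 3) ^ n ≤ 1 := pow_le_one₀ (by norm_num) (by norm_num)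
        linarith
    · show J u (ff j) < 0
      rw [hu, ff, J_mk]
      have h1 : (1 : ℝ) ≤ 3 ^ (j : ℕ) := one_le_pow₀ (by norm_num)
      have h2 : 0 < ((1 : ℝ) / 3) ^ (j : ℕ) := by positivity
      linarith
  refine ⟨(1 / √(14 / 5 : ℝ)) • u, ⟨?_, ?_⟩, fun i => ?_⟩
  · rw [J_smul_left, J_smul_right, huu]
    have h1 : √(14 / 5 : ℝ) * √(14 / 5 : ℝ) = 14 / 5 := Real.mul_self_sqrt (by norm_num)
    have h2 : √(14 / 5 : ℝ) ≠ 0 := by positivity
    field_simp
    nlinarith [h1]
  · show 0 < (1 / √(14 / 5 : ℝ)) * u 0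
    positivity
  · rw [J_smul_left]
    exact mul_neg_of_pos_of_neg hc (hneg i)

theorem PP_meas (n : ℕ) : MeasurableSet (PP n) := by
  have hJ : ∀ e : V, Continuous (fun x : V => J x e) := fun e => by unfold J; fun_prop
  have hJ2 : Continuous (fun x : V => J x x) := by unfold J; fun_prop
  have hH : MeasurableSet H3 := by
    have h1 : H3 = {x : V | J x x = -1} ∩ {x : V | 0 < x 0} := rfl
    rw [h1]
    exact (isClosed_eq hJ2 continuous_const).measurableSet.inter
      (isOpen_lt continuous_const (continuous_apply 0)).measurableSet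
  have h2 : PP n = H3 ∩ ⋂ i, {x : V | J x (EE n i) ≤ 0} := by
    ext x
    rw [Set.mem_inter_iff, Set.mem_iInter]
    exact Iff.rfl
  rw [h2]
  exact hH.inter (MeasurableSet.iInter (fun i =>
    (isClosed_le (hJ _) continuous_const).measurableSet))

end Pool.Agent.Helper132.H3Refl
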