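import Pool.Agent.Helper132.H3Refl.Defs

set_option autoImplicit false
set_option linter.unusedVariables false
open scoped ENNReal
noncomputable section
namespace Pool.Agent.Helper132.H3Refl

theorem slab_est {X Y y z : ℝ} (hy : 0 ≤ y) (hyz : y ≤ z) (hX : 0 < X) (hY : 0 < Y)
    (h3 : 3 * (X * Y) = 1 + y ^ 2 + z ^ 2) (h1 : y + 2 * z ≤ 3 / 2 * (X + Y))
    (h2 : y + 2 * z ≤ 3 / 2 * (X / 3 + 3 * Y)) (hl : Y ≤ X) (hr : X ≤ 9 * Y) :
    y * z + 3 / 2 * Y * |X - 3 * Y| ≤ 4 := by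
  have hz : 0 ≤ z := hy.trans hyz
  have h0 : 0 ≤ y + 2 * z := by linarith
  have hyz2 : y * y ≤ y * z := mul_le_mul_of_nonneg_left hyz hy
  have hmain : 4 * (3 * (X * Y) - 1) + y * z ≤ (y + 2 * z) ^ 2 := by nlinarith
  rcases le_total X (3 * Y) with h | h
  · have hsq : (y + 2 * z) ^ 2 ≤ (3 / 2 * (X + Y)) ^ 2 := pow_le_pow_left₀ h0 h1 2
    rw [abs_of_nonpos (by linarith)]
    nlinarith [mul_nonneg (sub_nonneg.mpr hl) (sub_nonneg.mpr h)]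
  · have hsq : (y + 2 * z) ^ 2 ≤ (3 / 2 * (X / 3 + 3 * Y)) ^ 2 := pow_le_pow_left₀ h0 h2 2
    rw [abs_of_nonneg (by linarith)]
    nlinarith [mul_nonneg (sub_nonneg.mpr h) (sub_nonneg.mpr hr), mul_nonneg hY.le (sub_nonneg.mpr h)]

theorem left_est {U W y z : ℝ} (hy : 0 ≤ y) (hyz : y ≤ z) (hU : 0 < U) (hW : 0 < W)
    (h3 : 3 * (U * W) = 1 + y ^ 2 + z ^ 2) (hz : z ≤ 2 * U) (h1 : y + 2 * z ≤ 3 / 2 * (U + W))
    (hl : U ≤ W) : 1 + y ^ 2 + z ^ 2 ≤ 36 := by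
  have hz0 : 0 ≤ z := hy.trans hyz
  have h0 : 0 ≤ y + 2 * z := by linarith
  have hyz2 : y * y ≤ y * z := mul_le_mul_of_nonneg_left hyz hy
  have hyz3 : y * y ≤ z * z := mul_le_mul hyz hyz hy hz0
  rcases le_total U (9 / 25 * W) with h | h
  · have hzz : z * z ≤ (2 * U) * (2 * U) := mul_le_mul hz hz hz0 (by linarith)
    have hUU : U * U ≤ (9 / 25 * W) * U := mul_le_mul_of_nonneg_right h hU.le
    nlinarith
  · have hsq : (y + 2 * z) ^ 2 ≤ (3 / 2 * (U + W)) ^ 2 := pow_le_pow_left₀ h0 h1 2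
    have hmain : 4 * (3 * (U * W) - 1) ≤ (y + 2 * z) ^ 2 := by nlinarith [mul_nonneg hy hz0]
    have hprod : (U - 9 / 25 * W) * (U - 25 / 9 * W) ≤ 0 := by
      apply mul_nonpos_of_nonneg_of_nonpos
      · linarith
      · linarith
    nlinarith

end Pool.Agent.Helper132.H3Refl
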