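import Pool.Agent.Helper132.H3Refl.Defs

set_option autoImplicit false
set_option linter.unusedVariables false
open scoped ENNReal
noncomputable section
namespace Pool.Agent.Helper132.H3Refl

theorem measurable_lift796 : Measurable lift := by
  have h : Continuous lift := by
    unfold lift
    refine continuous_pi fun i => ?_
    fin_cases i
    · simp only [Fin.zero_eta, Matrix.cons_val_zero]
      fun_prop
    · simp only [Fin.mk_one, Matrix.cons_val_one, Matrix.cons_val_zero]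
      fun_prop
    · simp only [Fin.reduceFinMk, Matrix.cons_val]
      fun_prop
    · simp only [Fin.reduceFinMk, Matrix.cons_val]
      fun_prop
  exact h.measurable

theorem hvol_le (F : Set V) (hF : MeasurableSet F) (b : ℝ → ℝ → ℝ≥0∞)
    (hb : ∀ y z, ∫⁻ s : ℝ in {s | lift ![s, y, z] ∈ F}, ENNReal.ofReal (1 / √(1 + s ^ 2 + y ^ 2 + z ^ 2)) ≤ b y z) :
    hvol F ≤ ∫⁻ y : ℝ, ∫⁻ z : ℝ, b y z := by
  classical
  set w : (Fin 3 → ℝ) → ℝ≥0∞ := fun u => ENNReal.ofReal (1 / √(1 + u 0 ^ 2 + u 1 ^ 2 + u 2 ^ 2)) with hw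
  have hwm : Measurable w := by
    apply Measurable.ennreal_ofReal
    apply Measurable.div measurable_const
    apply Measurable.sqrt
    fun_prop
  have hS : MeasurableSet {u : Fin 3 → ℝ | lift u ∈ F} := measurable_lift796 hF
  set G : (Fin 3 → ℝ) → ℝ≥0∞ := Set.indicator {u : Fin 3 → ℝ | lift u ∈ F} w with hG
  have hGm : Measurable G := hwm.indicator hS
  have h1 : hvol F = ∫⁻ u, G u := by
    rw [hG, MeasureTheory.lintegral_indicator hS]
    rfl
  have h2 : ∫⁻ u, G u = ∫⁻ p : ℝ × (Fin 2 → ℝ),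
      G ((MeasurableEquiv.piFinSuccAbove (fun _ : Fin 3 => ℝ) 0).symm p) := by
    have := (MeasureTheory.volume_preserving_piFinSuccAbove (fun _ : Fin 3 => ℝ) 0).symm
    rw [← this.lintegral_comp hGm]
  have hm1 : Measurable (fun p : ℝ × (Fin 2 → ℝ) =>
      G ((MeasurableEquiv.piFinSuccAbove (fun _ : Fin 3 => ℝ) 0).symm p)) :=
    hGm.comp (MeasurableEquiv.measurable _)
  have h3 : ∫⁻ p : ℝ × (Fin 2 → ℝ),
      G ((MeasurableEquiv.piFinSuccAbove (fun _ : Fin 3 => ℝ) 0).symm p) =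
      ∫⁻ v : Fin 2 → ℝ, ∫⁻ s : ℝ, G ((MeasurableEquiv.piFinSuccAbove (fun _ : Fin 3 => ℝ) 0).symm (s, v)) := by
    have := MeasureTheory.lintegral_prod_symm (μ := (MeasureTheory.volume : MeasureTheory.Measure ℝ))
      (ν := (MeasureTheory.volume : MeasureTheory.Measure (Fin 2 → ℝ)))
      (fun p : ℝ × (Fin 2 → ℝ) => G ((MeasurableEquiv.piFinSuccAbove (fun _ : Fin 3 => ℝ) 0).symm p))
      hm1.aemeasurable
    exact this
  set H : (Fin 2 → ℝ) → ℝ≥0∞ := fun v =>
    ∫⁻ s : ℝ, G ((MeasurableEquiv.piFinSuccAbove (fun _ : Fin 3 => ℝ) 0).symm (s, v)) with hH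
  have hHm : Measurable H := hm1.lintegral_prod_left'
  have h4 : ∫⁻ v : Fin 2 → ℝ, H v = ∫⁻ p : ℝ × ℝ, H (MeasurableEquiv.finTwoArrow.symm p) := by
    have := (MeasureTheory.volume_preserving_finTwoArrow ℝ).symm
    rw [← this.lintegral_comp hHm]
  have h5 : ∫⁻ p : ℝ × ℝ, H (MeasurableEquiv.finTwoArrow.symm p) =
      ∫⁻ y : ℝ, ∫⁻ z : ℝ, H (MeasurableEquiv.finTwoArrow.symm (y, z)) := by
    have := MeasureTheory.lintegral_prod (μ := (MeasureTheory.volume : MeasureTheory.Measure ℝ))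
      (ν := (MeasureTheory.volume : MeasureTheory.Measure ℝ))
      (fun p : ℝ × ℝ => H (MeasurableEquiv.finTwoArrow.symm p))
      (hHm.comp (MeasurableEquiv.measurable _)).aemeasurable
    exact this
  rw [h1, h2, h3, h4, h5]
  refine MeasureTheory.lintegral_mono fun y => MeasureTheory.lintegral_mono fun z => ?_
  refine le_trans (le_of_eq ?_) (hb y z)
  have hcons : ∀ s : ℝ, (MeasurableEquiv.piFinSuccAbove (fun _ : Fin 3 => ℝ) 0).symm
      (s, MeasurableEquiv.finTwoArrow.symm (y, z)) = ![s, y, z] := by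
    intro s
    ext i
    fin_cases i <;> rfl
  have hSs : MeasurableSet {s : ℝ | lift ![s, y, z] ∈ F} := by
    have : Measurable fun s : ℝ => lift ![s, y, z] := by
      apply measurable_lift796.comp
      apply measurable_pi_iff.mpr
      intro i
      fin_cases i
      · exact measurable_id
      · exact measurable_const
      · exact measurable_const
    exact this hF
  show ∫⁻ s : ℝ, G ((MeasurableEquiv.piFinSuccAbove (fun _ : Fin 3 => ℝ) 0).symm
      (s, MeasurableEquiv.finTwoArrow.symm (y, z))) = _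
  rw [← MeasureTheory.lintegral_indicator hSs]
  refine MeasureTheory.lintegral_congr fun s => ?_
  rw [hcons s, hG]
  by_cases hs : lift ![s, y, z] ∈ F
  · rw [Set.indicator_of_mem (show ![s, y, z] ∈ {u : Fin 3 → ℝ | lift u ∈ F} from hs),
      Set.indicator_of_mem (show s ∈ {s : ℝ | lift ![s, y, z] ∈ F} from hs)]
    simp [hw]
  · rw [Set.indicator_of_notMem (show ![s, y, z] ∉ {u : Fin 3 → ℝ | lift u ∈ F} from hs),
      Set.indicator_of_notMem (show s ∉ {s : ℝ | lift ![s, y, z] ∈ F} from hs)]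

theorem hasDeriv_r796 {ρ : ℝ} (hρ : 0 < ρ) (s : ℝ) :
    HasDerivAt (fun s : ℝ => √(ρ ^ 2 + s ^ 2)) (s / √(ρ ^ 2 + s ^ 2)) s := by
  have h1 : HasDerivAt (fun s : ℝ => ρ ^ 2 + s ^ 2) (2 * s) s := by
    simpa using (hasDerivAt_pow 2 s).const_add (ρ ^ 2)
  have h2 : ρ ^ 2 + s ^ 2 ≠ 0 := by positivity
  have h3 := h1.sqrt h2
  have h4 : 2 * s / (2 * √(ρ ^ 2 + s ^ 2)) = s / √(ρ ^ 2 + s ^ 2) := by
    rw [mul_div_mul_left _ _ two_ne_zero]
  rwa [h4] at h3

theorem inner_slab {κ μ ρ δ : ℝ} (hκ : 0 < κ) (hμ : 0 < μ) (hρ : 0 < ρ) (hδ : 0 ≤ δ) :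
    ∫⁻ s : ℝ in {s | |κ * (√(ρ ^ 2 + s ^ 2) + s) - μ * (√(ρ ^ 2 + s ^ 2) - s)| ≤ δ},
      ENNReal.ofReal (1 / √(ρ ^ 2 + s ^ 2)) ≤ ENNReal.ofReal (δ / (√(κ * μ) * ρ)) := by
  set r : ℝ → ℝ := fun s => √(ρ ^ 2 + s ^ 2) with hr
  set ψ : ℝ → ℝ := fun s => κ * (r s + s) - μ * (r s - s) with hψ
  set S : Set ℝ := {s | |κ * (√(ρ ^ 2 + s ^ 2) + s) - μ * (√(ρ ^ 2 + s ^ 2) - s)| ≤ δ} with hS
  have hrpos : ∀ s, 0 < r s := fun s => Real.sqrt_pos.mpr (by positivity)
  have hrsq : ∀ s, r s * r s = ρ ^ 2 + s ^ 2 := fun s => Real.mul_self_sqrt (by positivity)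
  have hrs : ∀ s, |s| < r s := fun s => by
    rw [hr]
    apply Real.lt_sqrt_of_sq_lt
    rw [sq_abs]; nlinarith [sq_pos_of_pos hρ]
  have hr1 : ∀ s, 0 < r s + s := fun s => by have := hrs s; have := neg_abs_le s; linarith
  have hr2 : ∀ s, 0 < r s - s := fun s => by have := hrs s; have := le_abs_self s; linarith
  set ψ' : ℝ → ℝ := fun s => (κ * (r s + s) + μ * (r s - s)) / r s with hψ'
  have hder : ∀ s, HasDerivAt ψ (ψ' s) s := by
    intro s
    have h := hasDeriv_r796 hρ s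
    have h1 : HasDerivAt ψ (κ * (s / r s + 1) - μ * (s / r s - 1)) s :=
      ((h.add (hasDerivAt_id s)).const_mul κ).sub ((h.sub (hasDerivAt_id s)).const_mul μ)
    have h2 : κ * (s / r s + 1) - μ * (s / r s - 1) = ψ' s := by
      have := (hrpos s).ne'
      rw [hψ']
      field_simp
      ring
    rwa [h2] at h1
  have hc : 0 < √(κ * μ) := Real.sqrt_pos.mpr (mul_pos hκ hμ)
  have hcc : √(κ * μ) * √(κ * μ) = κ * μ := Real.mul_self_sqrt (mul_pos hκ hμ).le
  have hlow : ∀ s, 2 * √(κ * μ) * ρ / r s ≤ ψ' s := by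
    intro s
    rw [hψ']
    apply div_le_div_of_nonneg_right _ (hrpos s).le
    have h1 : 0 < κ * (r s + s) + μ * (r s - s) :=
      add_pos (mul_pos hκ (hr1 s)) (mul_pos hμ (hr2 s))
    apply (pow_le_pow_iff_left₀ (by positivity) h1.le two_ne_zero).mp
    have h2 : (r s + s) * (r s - s) = ρ ^ 2 := by nlinarith [hrsq s]
    have h3 : (2 * √(κ * μ) * ρ) ^ 2 = 4 * (κ * (r s + s)) * (μ * (r s - s)) := by
      calc (2 * √(κ * μ) * ρ) ^ 2 = 4 * (√(κ * μ) * √(κ * μ)) * ρ ^ 2 := by ring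
        _ = 4 * (κ * μ) * ((r s + s) * (r s - s)) := by rw [hcc, h2]
        _ = _ := by ring
    rw [h3]
    nlinarith [sq_nonneg (κ * (r s + s) - μ * (r s - s))]
  have hψ'pos : ∀ s, 0 < ψ' s := fun s =>
    div_pos (add_pos (mul_pos hκ (hr1 s)) (mul_pos hμ (hr2 s))) (hrpos s)
  have hmono : StrictMono ψ := by
    apply strictMono_of_deriv_pos
    intro s
    rw [(hder s).deriv]
    exact hψ'pos s
  have hSm : MeasurableSet S := by
    apply IsClosed.measurableSet
    apply isClosed_le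
    · fun_prop
    · fun_prop
  have hcov := MeasureTheory.lintegral_image_eq_lintegral_abs_deriv_mul hSm
    (fun x _ => (hder x).hasDerivWithinAt) (hmono.injective.injOn) (fun _ => (1 : ℝ≥0∞))
  rw [MeasureTheory.lintegral_const] at hcov
  simp only [MeasureTheory.Measure.restrict_apply MeasurableSet.univ, Set.univ_inter, one_mul,
    mul_one] at hcov
  have himg : ψ '' S ⊆ Set.Icc (-δ) δ := by
    rintro _ ⟨s, hs, rfl⟩
    exact abs_le.mp hs
  have hvol : MeasureTheory.volume (ψ '' S) ≤ ENNReal.ofReal (2 * δ) := by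
    refine (MeasureTheory.measure_mono himg).trans (le_of_eq ?_)
    rw [Real.volume_Icc]
    congr 1; ring
  calc ∫⁻ s in S, ENNReal.ofReal (1 / √(ρ ^ 2 + s ^ 2))
      ≤ ∫⁻ s in S, ENNReal.ofReal (1 / (2 * √(κ * μ) * ρ)) * ENNReal.ofReal |ψ' s| := by
        refine MeasureTheory.lintegral_mono fun s => ?_
        rw [← ENNReal.ofReal_mul (by positivity)]
        apply ENNReal.ofReal_le_ofReal
        rw [abs_of_pos (hψ'pos s)]
        have h1 := hlow s
        have h2 : 1 / √(ρ ^ 2 + s ^ 2) = 1 / (2 * √(κ * μ) * ρ) * (2 * √(κ * μ) * ρ / r s) := by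
          have h3 := (hrpos s).ne'
          have h4 : 2 * √(κ * μ) * ρ ≠ 0 := by positivity
          show 1 / r s = _
          field_simp
        rw [h2]
        exact mul_le_mul_of_nonneg_left h1 (by positivity)
    _ = ENNReal.ofReal (1 / (2 * √(κ * μ) * ρ)) * ∫⁻ s in S, ENNReal.ofReal |ψ' s| := by
        rw [MeasureTheory.lintegral_const_mul']
        exact ENNReal.ofReal_ne_top
    _ = ENNReal.ofReal (1 / (2 * √(κ * μ) * ρ)) * MeasureTheory.volume (ψ '' S) := by rw [hcov]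
    _ ≤ ENNReal.ofReal (1 / (2 * √(κ * μ) * ρ)) * ENNReal.ofReal (2 * δ) := by gcongr
    _ = ENNReal.ofReal (δ / (√(κ * μ) * ρ)) := by
        rw [← ENNReal.ofReal_mul (by positivity)]
        congr 1
        field_simp

theorem inner_left {ρ m : ℝ} (hρ : 0 < ρ) (hm : 0 < m) :
    ∫⁻ s : ℝ in {s | s ≤ 0 ∧ m ≤ √(ρ ^ 2 + s ^ 2) + s},
      ENNReal.ofReal (1 / √(ρ ^ 2 + s ^ 2)) ≤ ENNReal.ofReal (|Real.log (ρ / m)|) := by
  set r : ℝ → ℝ := fun s => √(ρ ^ 2 + s ^ 2) with hr
  set S : Set ℝ := {s | s ≤ 0 ∧ m ≤ √(ρ ^ 2 + s ^ 2) + s} with hS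
  have hrpos : ∀ s, 0 < r s := fun s => Real.sqrt_pos.mpr (by positivity)
  have hrsq : ∀ s, r s * r s = ρ ^ 2 + s ^ 2 := fun s => Real.mul_self_sqrt (by positivity)
  have hrs : ∀ s, |s| < r s := fun s => by
    rw [hr]
    apply Real.lt_sqrt_of_sq_lt
    rw [sq_abs]; nlinarith [sq_pos_of_pos hρ]
  have hr1 : ∀ s, 0 < r s + s := fun s => by have := hrs s; have := neg_abs_le s; linarith
  set φ : ℝ → ℝ := fun s => Real.log (r s + s) with hφ
  have hder : ∀ s, HasDerivAt φ (1 / r s) s := by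
    intro s
    have h := hasDeriv_r796 hρ s
    have h1 : HasDerivAt φ ((s / r s + 1) / (r s + s)) s :=
      (h.add (hasDerivAt_id s)).log (hr1 s).ne'
    have h2 : (s / r s + 1) / (r s + s) = 1 / r s := by
      have h3 := (hrpos s).ne'
      have h4 := (hr1 s).ne'
      field_simp
      ring
    rwa [h2] at h1
  have hmono : StrictMono φ := by
    apply strictMono_of_deriv_pos
    intro s
    rw [(hder s).deriv]
    exact one_div_pos.mpr (hrpos s)
  have hSm : MeasurableSet S := by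
    apply IsClosed.measurableSet
    exact IsClosed.inter (isClosed_le continuous_id continuous_const)
      (isClosed_le (f := fun _ : ℝ => m) (g := fun s : ℝ => √(ρ ^ 2 + s ^ 2) + s) continuous_const
        (by fun_prop))
  have hcov := MeasureTheory.lintegral_image_eq_lintegral_abs_deriv_mul hSm
    (fun x _ => (hder x).hasDerivWithinAt) (hmono.injective.injOn) (fun _ => (1 : ℝ≥0∞))
  rw [MeasureTheory.lintegral_const] at hcov
  simp only [MeasureTheory.Measure.restrict_apply MeasurableSet.univ, Set.univ_inter, one_mul,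
    mul_one] at hcov
  have himg : φ '' S ⊆ Set.Icc (Real.log m) (Real.log ρ) := by
    rintro _ ⟨s, hs, rfl⟩
    refine ⟨Real.log_le_log hm hs.2, Real.log_le_log (hr1 s) ?_⟩
    have h1 : r s ≤ ρ - s := by
      apply Real.sqrt_le_iff.mpr
      refine ⟨by linarith [hs.1], ?_⟩
      nlinarith [hs.1]
    linarith
  have hvol : MeasureTheory.volume (φ '' S) ≤ ENNReal.ofReal (|Real.log (ρ / m)|) := by
    refine (MeasureTheory.measure_mono himg).trans ?_
    rw [Real.volume_Icc]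
    apply ENNReal.ofReal_le_ofReal
    rw [← Real.log_div hρ.ne' hm.ne']
    exact le_abs_self _
  refine le_trans (le_of_eq ?_) hvol
  rw [hcov]
  refine MeasureTheory.lintegral_congr fun s => ?_
  rw [abs_of_pos (one_div_pos.mpr (hrpos s))]

end Pool.Agent.Helper132.H3Refl
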