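import Pool.Agent.Helper132.H3Refl.Defs

set_option autoImplicit false
set_option linter.unusedVariables false
open scoped ENNReal
noncomputable section
namespace Pool.Agent.Helper132.H3Refl

theorem prod_aux (f : ℝ → ℝ → ℝ≥0∞) (S : Set ℝ) (hS : MeasurableSet S)
    (hSv : MeasureTheory.volume S < ∞) (g : ℝ → ℝ≥0∞) (hg : ∫⁻ z, g z < ∞)
    (h : ∀ y z, f y z ≤ S.indicator (fun _ => 1) y * g z) :
    ∫⁻ y : ℝ, ∫⁻ z : ℝ, f y z < ∞ := by
  calc ∫⁻ y : ℝ, ∫⁻ z : ℝ, f y z
      ≤ ∫⁻ y : ℝ, ∫⁻ z : ℝ, S.indicator (fun _ => 1) y * g z := by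
        refine MeasureTheory.lintegral_mono fun y => MeasureTheory.lintegral_mono fun z => h y z
    _ = ∫⁻ y : ℝ, S.indicator (fun _ => (1 : ℝ≥0∞)) y * ∫⁻ z : ℝ, g z := by
        refine MeasureTheory.lintegral_congr fun y => ?_
        rw [MeasureTheory.lintegral_const_mul']
        by_cases hy : y ∈ S <;> simp [hy]
    _ = (∫⁻ y : ℝ, S.indicator (fun _ => (1 : ℝ≥0∞)) y) * ∫⁻ z : ℝ, g z := by
        rw [MeasureTheory.lintegral_mul_const' _ _ hg.ne]
    _ = MeasureTheory.volume S * ∫⁻ z : ℝ, g z := by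
        rw [MeasureTheory.lintegral_indicator_const hS, one_mul]
    _ < ∞ := ENNReal.mul_lt_top hSv hg

theorem bound_fin (C : ℝ) : ∫⁻ y : ℝ, ∫⁻ z : ℝ, (if 0 ≤ y ∧ y ≤ z ∧ y * z ≤ 4 then
    ENNReal.ofReal (C / (1 + z ^ 2)) else 0) < ∞ := by
  refine prod_aux _ (Set.Icc 0 2) measurableSet_Icc (by simp [Real.volume_Icc])
    (fun z => ENNReal.ofReal (|C| * (1 + z ^ 2)⁻¹)) ?_ ?_
  · exact (integrable_inv_one_add_sq.const_mul |C|).lintegral_lt_top
  · intro y z
    split_ifs with h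
    · obtain ⟨h1, h2, h3⟩ := h
      have hy : y ∈ Set.Icc (0 : ℝ) 2 := ⟨h1, by nlinarith⟩
      rw [Set.indicator_of_mem hy, one_mul]
      apply ENNReal.ofReal_le_ofReal
      rw [div_eq_mul_inv]
      exact mul_le_mul_of_nonneg_right (le_abs_self C) (by positivity)
    · exact zero_le

theorem bound_fin' (C : ℝ) : ∫⁻ y : ℝ, ∫⁻ z : ℝ, (if 0 ≤ y ∧ y ≤ z ∧ z ≤ 6 then
    ENNReal.ofReal (C * (1 + |Real.log z|)) else 0) < ∞ := by
  refine prod_aux _ (Set.Icc 0 6) measurableSet_Icc (by simp [Real.volume_Icc])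
    ((Set.Icc (0 : ℝ) 6).indicator fun z => ENNReal.ofReal (|C| * (1 + |Real.log z|))) ?_ ?_
  · rw [MeasureTheory.lintegral_indicator measurableSet_Icc]
    have h1 : IntervalIntegrable (fun z => |C| * (1 + |Real.log z|)) MeasureTheory.volume 0 6 := by
      refine IntervalIntegrable.const_mul ?_ _
      refine IntervalIntegrable.add intervalIntegrable_const ?_
      exact (intervalIntegral.intervalIntegrable_log').abs
    rw [intervalIntegrable_iff_integrableOn_Icc_of_le (by norm_num)] at h1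
    exact h1.lintegral_lt_top
  · intro y z
    split_ifs with h
    · obtain ⟨h1, h2, h3⟩ := h
      have hy : y ∈ Set.Icc (0 : ℝ) 6 := ⟨h1, by linarith⟩
      have hz : z ∈ Set.Icc (0 : ℝ) 6 := ⟨by linarith, h3⟩
      rw [Set.indicator_of_mem hy, Set.indicator_of_mem hz, one_mul]
      apply ENNReal.ofReal_le_ofReal
      exact mul_le_mul_of_nonneg_right (le_abs_self C) (by positivity)
    · exact zero_le

end Pool.Agent.Helper132.H3Refl
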