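import Pool.Agent.Helper132.H3Refl.H2
import Pool.Agent.Helper132.H3Refl.I1
import Pool.Agent.Helper132.H3Refl.J1
import Pool.Agent.Helper132.H3Refl.J2

set_option autoImplicit false
set_option linter.unusedVariables false
open scoped ENNReal
noncomputable section
namespace Pool.Agent.Helper132.H3Refl

theorem J_lift (s y z U' W' y' z' : ℝ) : J (lift ![s, y, z]) (mk U' W' y' z') =
    -(3 / 2) * (((√(1 + s ^ 2 + y ^ 2 + z ^ 2) + s) / √3) * W' +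
      ((√(1 + s ^ 2 + y ^ 2 + z ^ 2) - s) / √3) * U') + y * y' + z * z' := by
  rw [mk_surj (lift ![s, y, z]), J_mk]
  simp [lift]

theorem PP_facts (n : ℕ) (s y z : ℝ) (h : lift ![s, y, z] ∈ PP n) :
    0 ≤ y ∧ y ≤ z ∧ z ≤ 2 * ((√(1 + s ^ 2 + y ^ 2 + z ^ 2) + s) / √3) ∧
    (1 / 3) ^ n * ((√(1 + s ^ 2 + y ^ 2 + z ^ 2) + s) / √3) ≤
      3 ^ n * ((√(1 + s ^ 2 + y ^ 2 + z ^ 2) - s) / √3) ∧
    ∀ j ≤ n, y + 2 * z ≤ 3 / 2 * ((1 / 3) ^ j * ((√(1 + s ^ 2 + y ^ 2 + z ^ 2) + s) / √3) +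
      3 ^ j * ((√(1 + s ^ 2 + y ^ 2 + z ^ 2) - s) / √3)) := by
  have h1 := h.2 (Sum.inl 0)
  have h2 := h.2 (Sum.inl 1)
  have h3 := h.2 (Sum.inl 2)
  have h4 := h.2 (Sum.inl 3)
  have e1 : EE n (Sum.inl 0) = mk 0 0 (-1) 0 := rfl
  have e2 : EE n (Sum.inl 1) = mk 0 0 1 (-1) := rfl
  have e3 : EE n (Sum.inl 2) = mk 0 (4 / 3) 0 1 := rfl
  have e4 : EE n (Sum.inl 3) = mk (3 ^ n) (-(1 / 3) ^ n) 0 0 := rfl
  rw [e1, J_lift] at h1
  rw [e2, J_lift] at h2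
  rw [e3, J_lift] at h3
  rw [e4, J_lift] at h4
  refine ⟨by linarith, by linarith, by linarith, by linarith, ?_⟩
  intro j hj
  have h5 := h.2 (Sum.inr ⟨j, by omega⟩)
  have e5 : EE n (Sum.inr ⟨j, by omega⟩) = mk (3 ^ j) ((1 / 3) ^ j) 1 2 := rfl
  rw [e5, J_lift] at h5
  linarith

theorem exists_slab (n : ℕ) {U W : ℝ} (h1 : W < U) (h2 : U ≤ 9 ^ n * W) :
    ∃ j < n, 9 ^ j * W ≤ U ∧ U ≤ 9 ^ (j + 1) * W := by
  induction n with
  | zero => simp at h2; linarith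
  | succ n ih =>
    by_cases h : U ≤ 9 ^ n * W
    · obtain ⟨j, hj, h3⟩ := ih h
      exact ⟨j, by omega, h3⟩
    · exact ⟨n, by omega, (not_le.mp h).le, h2⟩

theorem fin_est {X Y y z : ℝ} (hy : 0 ≤ y) (hyz : y ≤ z) (hX : 0 < X) (hY : 0 < Y)
    (hXY : 3 * (X * Y) = 1 + y ^ 2 + z ^ 2) (hr : X ≤ 9 * Y)
    (hest : y * z + 3 / 2 * Y * |X - 3 * Y| ≤ 4) :
    y * z ≤ 4 ∧ |X - 3 * Y| ≤ 14 / √(1 + y ^ 2 + z ^ 2) := by
  have hρpos : 0 < √(1 + y ^ 2 + z ^ 2) := Real.sqrt_pos.mpr (by positivity)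
  have hyz0 : 0 ≤ y * z := mul_nonneg hy (hy.trans hyz)
  have habs0 : 0 ≤ |X - 3 * Y| := abs_nonneg _
  have hY0 := mul_nonneg hY.le habs0
  have e1 : 3 / 2 * Y * |X - 3 * Y| = 3 / 2 * (Y * |X - 3 * Y|) := by ring
  rw [e1] at hest
  refine ⟨by linarith, ?_⟩
  rw [le_div_iff₀ hρpos]
  have hYρ : √(1 + y ^ 2 + z ^ 2) ≤ 21 / 4 * Y := by
    apply Real.sqrt_le_iff.mpr
    refine ⟨by positivity, ?_⟩
    rw [← hXY]
    have h1 : X * Y ≤ 9 * Y * Y := mul_le_mul_of_nonneg_right hr hY.le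
    have h2 : 0 < Y * Y := mul_pos hY hY
    have e2 : (21 / 4 * Y) ^ 2 = 441 / 16 * (Y * Y) := by ring
    rw [e2]
    linarith
  have h8 : Y * |X - 3 * Y| ≤ 8 / 3 := by linarith
  calc |X - 3 * Y| * √(1 + y ^ 2 + z ^ 2) ≤ |X - 3 * Y| * (21 / 4 * Y) :=
        mul_le_mul_of_nonneg_left hYρ habs0
    _ = 21 / 4 * (Y * |X - 3 * Y|) := by ring
    _ ≤ 21 / 4 * (8 / 3) := by linarith
    _ = 14 := by norm_num

theorem sub_sets (n : ℕ) (y z : ℝ) (hz : z ≠ 0) :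
    {s : ℝ | lift ![s, y, z] ∈ PP n} ⊆
      {s : ℝ | (0 ≤ y ∧ y ≤ z ∧ z ≤ 6) ∧ (s ≤ 0 ∧ √3 / 2 * z ≤ √(√(1 + y ^ 2 + z ^ 2) ^ 2 + s ^ 2) + s)} ∪
      ⋃ j ∈ Finset.range n, {s : ℝ | (0 ≤ y ∧ y ≤ z ∧ y * z ≤ 4) ∧
        |(1 / 3) ^ j / √3 * (√(√(1 + y ^ 2 + z ^ 2) ^ 2 + s ^ 2) + s) -
          3 * 3 ^ j / √3 * (√(√(1 + y ^ 2 + z ^ 2) ^ 2 + s ^ 2) - s)| ≤
            14 / √(1 + y ^ 2 + z ^ 2)} := by
  intro s hs
  have hs' : lift ![s, y, z] ∈ PP n := hs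
  obtain ⟨hy, hyz, hzU, hww, hff⟩ := PP_facts n s y z hs'
  have hρ2 : √(1 + y ^ 2 + z ^ 2) ^ 2 = 1 + y ^ 2 + z ^ 2 := Real.sq_sqrt (by positivity)
  have hx0 : √(√(1 + y ^ 2 + z ^ 2) ^ 2 + s ^ 2) = √(1 + s ^ 2 + y ^ 2 + z ^ 2) := by
    rw [hρ2]
    congr 1
    ring
  have hρpos : 0 < √(1 + y ^ 2 + z ^ 2) := Real.sqrt_pos.mpr (by positivity)
  have hx0sq : √(1 + s ^ 2 + y ^ 2 + z ^ 2) ^ 2 = 1 + s ^ 2 + y ^ 2 + z ^ 2 :=
    Real.sq_sqrt (by positivity)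
  have hx0abs : |s| < √(1 + s ^ 2 + y ^ 2 + z ^ 2) := by
    rw [← Real.sqrt_sq_eq_abs]
    apply Real.sqrt_lt_sqrt (sq_nonneg s)
    nlinarith [sq_nonneg y, sq_nonneg z]
  have h3pos : (0:ℝ) < √3 := by positivity
  have h3sq : √(3:ℝ) * √3 = 3 := Real.mul_self_sqrt (by norm_num)
  rw [abs_lt] at hx0abs
  set x0 := √(1 + s ^ 2 + y ^ 2 + z ^ 2) with hx0def
  have hU : 0 < (x0 + s) / √3 := div_pos (by linarith [hx0abs.1]) h3pos
  have hW : 0 < (x0 - s) / √3 := div_pos (by linarith [hx0abs.2]) h3pos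
  have hUW : 3 * (((x0 + s) / √3) * ((x0 - s) / √3)) = 1 + y ^ 2 + z ^ 2 := by
    rw [div_mul_div_comm, h3sq]
    have : (x0 + s) * (x0 - s) = x0 ^ 2 - s ^ 2 := by ring
    rw [this, hx0sq]
    ring
  by_cases hs0 : s ≤ 0
  · left
    have hle : (x0 + s) / √3 ≤ (x0 - s) / √3 := by
      apply div_le_div_of_nonneg_right _ h3pos.le
      linarith
    have h1 := hff 0 (Nat.zero_le n)
    simp only [pow_zero, one_mul] at h1
    have h36 := left_est hy hyz hU hW hUW hzU h1 hle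
    refine ⟨⟨hy, hyz, ?_⟩, hs0, ?_⟩
    · nlinarith [sq_nonneg y]
    · rw [hx0]
      have : z * √3 ≤ 2 * (x0 + s) := by
        have := mul_le_mul_of_nonneg_right hzU h3pos.le
        rwa [mul_assoc, div_mul_cancel₀ _ h3pos.ne'] at this
      linarith
  · right
    have hlt : (x0 - s) / √3 < (x0 + s) / √3 := by
      apply div_lt_div_of_pos_right _ h3pos
      linarith
    have hUn : (x0 + s) / √3 ≤ 9 ^ n * ((x0 - s) / √3) := by
      have hm := mul_le_mul_of_nonneg_left hww (by positivity : (0:ℝ) ≤ 3 ^ n)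
      rw [← mul_assoc, ← mul_assoc, ← mul_pow, ← mul_pow] at hm
      norm_num at hm
      exact hm
    obtain ⟨j, hj, hj1, hj2⟩ := exists_slab n hlt hUn
    simp only [Set.mem_iUnion]
    refine ⟨j, Finset.mem_range.mpr hj, ?_⟩
    have h9 : (9:ℝ) ^ j = 3 ^ j * 3 ^ j := by
      rw [← mul_pow]; norm_num
    have h13 : (1 / 3 : ℝ) ^ j * 3 ^ j = 1 := by
      rw [← mul_pow]; norm_num
    have hp3 : (0:ℝ) < 3 ^ j := by positivity
    have hp13 : (0:ℝ) < (1 / 3) ^ j := by positivity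
    have hX : 0 < (1 / 3) ^ j * ((x0 + s) / √3) := mul_pos hp13 hU
    have hY : 0 < 3 ^ j * ((x0 - s) / √3) := mul_pos hp3 hW
    have hXY : 3 * (((1 / 3) ^ j * ((x0 + s) / √3)) * (3 ^ j * ((x0 - s) / √3))) =
        1 + y ^ 2 + z ^ 2 := by
      rw [← hUW]
      linear_combination (3 * (((x0 + s) / √3) * ((x0 - s) / √3))) * h13
    have hf1 := hff j hj.le
    have hf2 := hff (j + 1) hj
    have hl : 3 ^ j * ((x0 - s) / √3) ≤ (1 / 3) ^ j * ((x0 + s) / √3) := by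
      have hm := mul_le_mul_of_nonneg_left hj1 hp13.le
      rw [h9] at hm
      calc 3 ^ j * ((x0 - s) / √3) = (1 / 3) ^ j * (3 ^ j * 3 ^ j * ((x0 - s) / √3)) := by
            linear_combination (-(3 ^ j * ((x0 - s) / √3))) * h13
        _ ≤ _ := hm
    have hr : (1 / 3) ^ j * ((x0 + s) / √3) ≤ 9 * (3 ^ j * ((x0 - s) / √3)) := by
      have hm := mul_le_mul_of_nonneg_left hj2 hp13.le
      rw [pow_succ, h9] at hm
      calc (1 / 3) ^ j * ((x0 + s) / √3) ≤ (1 / 3) ^ j * (3 ^ j * 3 ^ j * 9 * ((x0 - s) / √3)) := hm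
        _ = 9 * (3 ^ j * ((x0 - s) / √3)) := by
            linear_combination (9 * (3 ^ j * ((x0 - s) / √3))) * h13
    have hf2' : y + 2 * z ≤ 3 / 2 * ((1 / 3) ^ j * ((x0 + s) / √3) / 3 +
        3 * (3 ^ j * ((x0 - s) / √3))) := by
      have e : (1 / 3 : ℝ) ^ (j + 1) * ((x0 + s) / √3) + 3 ^ (j + 1) * ((x0 - s) / √3) =
          (1 / 3) ^ j * ((x0 + s) / √3) / 3 + 3 * (3 ^ j * ((x0 - s) / √3)) := by
        rw [pow_succ, pow_succ]; ring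
      rw [← e]
      exact hf2
    have hest := slab_est hy hyz hX hY hXY hf1 hf2' hl hr
    set X := (1 / 3) ^ j * ((x0 + s) / √3) with hXdef
    set Y := 3 ^ j * ((x0 - s) / √3) with hYdef
    have eX : (1 / 3) ^ j / √3 * (x0 + s) = X := by rw [hXdef]; ring
    have eY : 3 * 3 ^ j / √3 * (x0 - s) = 3 * Y := by rw [hYdef]; ring
    have hfin := fin_est hy hyz hX hY hXY hr hest
    refine ⟨⟨hy, hyz, hfin.1⟩, ?_⟩
    rw [hx0, eX, eY]
    exact hfin.2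

theorem log_bd {y z : ℝ} (hz : 0 < z) (hy : 0 ≤ y) (hyz : y ≤ z) (hz6 : z ≤ 6) :
    |Real.log (√(1 + y ^ 2 + z ^ 2) / (√3 / 2 * z))| ≤
      (Real.log 9 + |Real.log (√3 / 2)| + 1) * (1 + |Real.log z|) := by
  have hρpos : 0 < √(1 + y ^ 2 + z ^ 2) := Real.sqrt_pos.mpr (by positivity)
  have h32 : (0:ℝ) < √3 / 2 := by positivity
  rw [Real.log_div hρpos.ne' (by positivity), Real.log_mul h32.ne' hz.ne']
  have h1 : 0 ≤ Real.log (√(1 + y ^ 2 + z ^ 2)) := by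
    apply Real.log_nonneg
    rw [Real.one_le_sqrt]
    nlinarith [sq_nonneg y, sq_nonneg z]
  have h2 : Real.log (√(1 + y ^ 2 + z ^ 2)) ≤ Real.log 9 := by
    apply Real.log_le_log hρpos
    apply Real.sqrt_le_iff.mpr
    refine ⟨by norm_num, ?_⟩
    nlinarith
  have h3 : |Real.log (√(1 + y ^ 2 + z ^ 2)) - (Real.log (√3 / 2) + Real.log z)| ≤
      Real.log 9 + |Real.log (√3 / 2)| + |Real.log z| := by
    have a1 := abs_sub (Real.log (√(1 + y ^ 2 + z ^ 2))) (Real.log (√3 / 2) + Real.log z)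
    have a2 := abs_add_le (Real.log (√3 / 2)) (Real.log z)
    rw [abs_of_nonneg h1] at a1
    linarith
  have h9 : 0 ≤ Real.log 9 := Real.log_nonneg (by norm_num)
  have hA := abs_nonneg (Real.log (√3 / 2))
  have hB := abs_nonneg (Real.log z)
  nlinarith [mul_nonneg h9 hB, mul_nonneg hA hB]

theorem lint_biUnion_le (t : Finset ℕ) (A : ℕ → Set ℝ) (f : ℝ → ℝ≥0∞) :
    ∫⁻ s in (⋃ j ∈ t, A j), f s ≤ ∑ j ∈ t, ∫⁻ s in A j, f s := by
  induction t using Finset.induction_on with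
  | empty => simp
  | insert a t ha ih =>
    rw [Finset.set_biUnion_insert, Finset.sum_insert ha]
    exact (MeasureTheory.lintegral_union_le _ _ _).trans (add_le_add le_rfl ih)

theorem inner_bd (n : ℕ) (y z : ℝ) (hz : z ≠ 0) :
    ∫⁻ s : ℝ in {s | lift ![s, y, z] ∈ PP n},
      ENNReal.ofReal (1 / √(1 + s ^ 2 + y ^ 2 + z ^ 2)) ≤
    (if 0 ≤ y ∧ y ≤ z ∧ z ≤ 6 then
      ENNReal.ofReal ((Real.log 9 + |Real.log (√3 / 2)| + 1) * (1 + |Real.log z|)) else 0) +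
    (if 0 ≤ y ∧ y ≤ z ∧ y * z ≤ 4 then ENNReal.ofReal ((14 * n) / (1 + z ^ 2)) else 0) := by
  have hρ2 : √(1 + y ^ 2 + z ^ 2) ^ 2 = 1 + y ^ 2 + z ^ 2 := Real.sq_sqrt (by positivity)
  have hρpos : 0 < √(1 + y ^ 2 + z ^ 2) := Real.sqrt_pos.mpr (by positivity)
  have hfun : (fun s : ℝ => ENNReal.ofReal (1 / √(1 + s ^ 2 + y ^ 2 + z ^ 2))) =
      fun s : ℝ => ENNReal.ofReal (1 / √(√(1 + y ^ 2 + z ^ 2) ^ 2 + s ^ 2)) := by
    funext s
    rw [hρ2, show 1 + s ^ 2 + y ^ 2 + z ^ 2 = 1 + y ^ 2 + z ^ 2 + s ^ 2 by ring]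
  rw [hfun]
  refine (MeasureTheory.lintegral_mono_set (sub_sets n y z hz)).trans ?_
  refine (MeasureTheory.lintegral_union_le _ _ _).trans ?_
  refine add_le_add ?_ ?_
  · by_cases hc : 0 ≤ y ∧ y ≤ z ∧ z ≤ 6
    · rw [if_pos hc]
      have hzpos : 0 < z := lt_of_le_of_ne (hc.1.trans hc.2.1) (Ne.symm hz)
      have hset : {s : ℝ | (0 ≤ y ∧ y ≤ z ∧ z ≤ 6) ∧
          (s ≤ 0 ∧ √3 / 2 * z ≤ √(√(1 + y ^ 2 + z ^ 2) ^ 2 + s ^ 2) + s)} =
          {s : ℝ | s ≤ 0 ∧ √3 / 2 * z ≤ √(√(1 + y ^ 2 + z ^ 2) ^ 2 + s ^ 2) + s} := by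
        ext s
        exact ⟨fun h => h.2, fun h => ⟨hc, h⟩⟩
      rw [hset]
      refine (inner_left hρpos (by positivity : (0:ℝ) < √3 / 2 * z)).trans ?_
      exact ENNReal.ofReal_le_ofReal (log_bd hzpos hc.1 hc.2.1 hc.2.2)
    · rw [if_neg hc]
      have hset : {s : ℝ | (0 ≤ y ∧ y ≤ z ∧ z ≤ 6) ∧
          (s ≤ 0 ∧ √3 / 2 * z ≤ √(√(1 + y ^ 2 + z ^ 2) ^ 2 + s ^ 2) + s)} = ∅ := by
        ext s
        exact ⟨fun h => (hc h.1).elim, fun h => h.elim⟩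
      rw [hset]
      simp
  · by_cases hc : 0 ≤ y ∧ y ≤ z ∧ y * z ≤ 4
    · rw [if_pos hc]
      refine (lint_biUnion_le _ _ _).trans ?_
      have hone : ∀ j ∈ Finset.range n,
          ∫⁻ s : ℝ in {s : ℝ | (0 ≤ y ∧ y ≤ z ∧ y * z ≤ 4) ∧
            |(1 / 3) ^ j / √3 * (√(√(1 + y ^ 2 + z ^ 2) ^ 2 + s ^ 2) + s) -
              3 * 3 ^ j / √3 * (√(√(1 + y ^ 2 + z ^ 2) ^ 2 + s ^ 2) - s)| ≤
                14 / √(1 + y ^ 2 + z ^ 2)},
            ENNReal.ofReal (1 / √(√(1 + y ^ 2 + z ^ 2) ^ 2 + s ^ 2)) ≤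
          ENNReal.ofReal (14 / (1 + z ^ 2)) := by
        intro j _
        have hset : {s : ℝ | (0 ≤ y ∧ y ≤ z ∧ y * z ≤ 4) ∧
            |(1 / 3) ^ j / √3 * (√(√(1 + y ^ 2 + z ^ 2) ^ 2 + s ^ 2) + s) -
              3 * 3 ^ j / √3 * (√(√(1 + y ^ 2 + z ^ 2) ^ 2 + s ^ 2) - s)| ≤
                14 / √(1 + y ^ 2 + z ^ 2)} =
            {s : ℝ | |(1 / 3) ^ j / √3 * (√(√(1 + y ^ 2 + z ^ 2) ^ 2 + s ^ 2) + s) -
              3 * 3 ^ j / √3 * (√(√(1 + y ^ 2 + z ^ 2) ^ 2 + s ^ 2) - s)| ≤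
                14 / √(1 + y ^ 2 + z ^ 2)} := by
          ext s
          exact ⟨fun h => h.2, fun h => ⟨hc, h⟩⟩
        rw [hset]
        refine (inner_slab (κ := (1 / 3) ^ j / √3) (μ := 3 * 3 ^ j / √3) (by positivity)
          (by positivity) hρpos (by positivity)).trans ?_
        apply ENNReal.ofReal_le_ofReal
        have h3sq : √(3:ℝ) * √3 = 3 := Real.mul_self_sqrt (by norm_num)
        have h13 : (1 / 3 : ℝ) ^ j * 3 ^ j = 1 := by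
          rw [← mul_pow]; norm_num
        have hkm : (1 / 3 : ℝ) ^ j / √3 * (3 * 3 ^ j / √3) = 1 := by
          rw [div_mul_div_comm, h3sq, div_eq_one_iff_eq (by norm_num)]
          linear_combination 3 * h13
        rw [hkm, Real.sqrt_one, one_mul, div_div, ← sq, hρ2]
        apply div_le_div_of_nonneg_left (by norm_num) (by positivity)
        nlinarith [sq_nonneg y]
      refine (Finset.sum_le_sum hone).trans ?_
      rw [Finset.sum_const, Finset.card_range, nsmul_eq_mul]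
      rw [show (14 * (n:ℝ)) / (1 + z ^ 2) = n * (14 / (1 + z ^ 2)) by ring,
        ENNReal.ofReal_mul (by positivity), ENNReal.ofReal_natCast]
    · rw [if_neg hc]
      have hset : (⋃ j ∈ Finset.range n, {s : ℝ | (0 ≤ y ∧ y ≤ z ∧ y * z ≤ 4) ∧
            |(1 / 3) ^ j / √3 * (√(√(1 + y ^ 2 + z ^ 2) ^ 2 + s ^ 2) + s) -
              3 * 3 ^ j / √3 * (√(√(1 + y ^ 2 + z ^ 2) ^ 2 + s ^ 2) - s)| ≤
                14 / √(1 + y ^ 2 + z ^ 2)}) = ∅ := by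
        ext s
        simp only [Set.mem_iUnion, Set.mem_empty_iff_false, iff_false]
        rintro ⟨j, _, h⟩
        exact hc h.1
      rw [hset]
      simp

theorem PP_vol (n : ℕ) : hvol (PP n) < ∞ := by
  have hb : ∀ y z : ℝ, ∫⁻ s : ℝ in {s | lift ![s, y, z] ∈ PP n},
      ENNReal.ofReal (1 / √(1 + s ^ 2 + y ^ 2 + z ^ 2)) ≤
      (if z = 0 then ∞ else 0) + ((if 0 ≤ y ∧ y ≤ z ∧ z ≤ 6 then
      ENNReal.ofReal ((Real.log 9 + |Real.log (√3 / 2)| + 1) * (1 + |Real.log z|)) else 0) +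
    (if 0 ≤ y ∧ y ≤ z ∧ y * z ≤ 4 then ENNReal.ofReal ((14 * n) / (1 + z ^ 2)) else 0)) := by
    intro y z
    by_cases hz : z = 0
    · rw [if_pos hz, top_add]
      exact le_top
    · rw [if_neg hz, zero_add]
      exact inner_bd n y z hz
  refine (hvol_le (PP n) (PP_meas n) _ hb).trans_lt ?_
  have hm1 : Measurable (fun p : ℝ × ℝ => (if 0 ≤ p.1 ∧ p.1 ≤ p.2 ∧ p.2 ≤ 6 then
      ENNReal.ofReal ((Real.log 9 + |Real.log (√3 / 2)| + 1) * (1 + |Real.log p.2|)) else 0)) := by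
    apply Measurable.ite
    · exact (measurableSet_le measurable_const measurable_fst).inter
        ((measurableSet_le measurable_fst measurable_snd).inter
          (measurableSet_le measurable_snd measurable_const))
    · exact ENNReal.measurable_ofReal.comp
        (((Real.measurable_log.comp measurable_snd).abs.const_add 1).const_mul _)
    · exact measurable_const
  have hz0 : ∀ y : ℝ, ∫⁻ z : ℝ, ((if z = 0 then ∞ else 0) + ((if 0 ≤ y ∧ y ≤ z ∧ z ≤ 6 then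
      ENNReal.ofReal ((Real.log 9 + |Real.log (√3 / 2)| + 1) * (1 + |Real.log z|)) else 0) +
      (if 0 ≤ y ∧ y ≤ z ∧ y * z ≤ 4 then ENNReal.ofReal ((14 * n) / (1 + z ^ 2)) else 0))) =
      (∫⁻ z : ℝ, (if 0 ≤ y ∧ y ≤ z ∧ z ≤ 6 then
      ENNReal.ofReal ((Real.log 9 + |Real.log (√3 / 2)| + 1) * (1 + |Real.log z|)) else 0)) +
      ∫⁻ z : ℝ, (if 0 ≤ y ∧ y ≤ z ∧ y * z ≤ 4 then
        ENNReal.ofReal ((14 * n) / (1 + z ^ 2)) else 0) := by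
    intro y
    rw [← MeasureTheory.lintegral_add_left (f := fun z : ℝ => (if 0 ≤ y ∧ y ≤ z ∧ z ≤ 6 then
      ENNReal.ofReal ((Real.log 9 + |Real.log (√3 / 2)| + 1) * (1 + |Real.log z|)) else 0))
      (hm1.comp (measurable_prodMk_left (x := y)))]
    apply MeasureTheory.lintegral_congr_ae
    have h0 : ∀ᵐ z : ℝ, z ≠ 0 := by
      have : (MeasureTheory.volume : MeasureTheory.Measure ℝ) {0} = 0 :=
        MeasureTheory.measure_singleton _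
      exact MeasureTheory.compl_mem_ae_iff.mpr this
    filter_upwards [h0] with z hz
    rw [if_neg hz, zero_add]
  simp_rw [hz0]
  rw [MeasureTheory.lintegral_add_left hm1.lintegral_prod_right']
  exact ENNReal.add_lt_top.mpr ⟨bound_fin' _, bound_fin _⟩

end Pool.Agent.Helper132.H3Refl
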