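import Pool.Agent.Helper132.H3Refl.D1
import Pool.Agent.Helper132.H3Refl.G1
import Pool.Agent.Helper132.H3Refl.H1
import Pool.Agent.Helper132.H3Refl.H2
import Pool.Agent.Helper132.H3Refl.J3
import Pool.Agent.Helper132.H3Refl.Angle

set_option autoImplicit false
set_option linter.unusedVariables false
open scoped ENNReal
noncomputable section
namespace Pool.Agent.Helper132.H3Refl

theorem Gam_le (n : ℕ) : Gam n ≤ IsomH3 := by
  unfold Gam
  rw [Subgroup.closure_le]
  rintro _ ⟨i, rfl⟩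
  exact reflE_isom (EE_pos n i)

theorem Gam_discr (n : ℕ) (hn : 1 ≤ n) : Discr (Gam n) := by
  obtain ⟨b, -, hb⟩ := PP_interior n hn
  exact discr_of_tits (EE n) (EE_pos n) (EE_angle n) b hb

theorem Gam_cover (n : ℕ) (hn : 1 ≤ n) {x : V} (hx : x ∈ H3) : ∃ g ∈ Gam n, g x ∈ PP n := by
  obtain ⟨b, hb1, hb⟩ := PP_interior n hn
  obtain ⟨g, hg, h⟩ := cover_of_discr (EE n) (EE_pos n) b hb1 hb (Gam_discr n hn) x hx
  exact ⟨g, hg, (Gam_le n hg).2 x hx, h⟩

theorem Gam_refl (n : ℕ) : ReflGroup (Gam n) ∨ n = 0 := by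
  rcases Nat.eq_zero_or_pos n with h | h
  · exact Or.inr h
  · refine Or.inl ⟨Gam_le n, ?_, Gam_discr n h, ?_⟩
    · apply le_antisymm
      · conv_lhs => unfold Gam
        rw [Subgroup.closure_le]
        rintro _ ⟨i, rfl⟩
        apply Subgroup.subset_closure
        refine ⟨Subgroup.subset_closure ⟨i, rfl⟩, EE n i, EE_pos n i, fun x => rfl⟩
      · rw [Subgroup.closure_le]
        rintro g ⟨hg, -⟩
        exact hg
    · refine ⟨PP n, PP_meas n, fun x hx => hx.1, PP_vol n, fun x hx => Gam_cover n h hx⟩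

end Pool.Agent.Helper132.H3Refl
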