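import Pool.Agent.Helper132.H3Refl.Angle
import Pool.Agent.Helper132.H3Refl.D1
import Pool.Agent.Helper132.H3Refl.H1

set_option autoImplicit false
set_option linter.unusedVariables false
open scoped ENNReal
noncomputable section
namespace Pool.Agent.Helper132.H3Refl

theorem idv_aux_mk_add (U W y z U' W' y' z' : ℝ) :
    mk U W y z + mk U' W' y' z' = mk (U + U') (W + W') (y + y') (z + z') := by
  ext i
  fin_cases i <;> simp [mk] <;> ring

theorem idv_aux_mk_smul (a U W y z : ℝ) :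
    a • mk U W y z = mk (a * U) (a * W) (a * y) (a * z) := by
  ext i
  fin_cases i <;> simp [mk] <;> ring

theorem idv_aux_mk_neg (U W y z : ℝ) : -mk U W y z = mk (-U) (-W) (-y) (-z) := by
  ext i
  fin_cases i <;> simp [mk] <;> ring

theorem idv_aux_reflE_neg (e : V) : reflE (-e) = reflE e := by
  ext1 x
  rw [reflE_apply, reflE_apply, J_neg_right, J_neg_right, J_neg_left, neg_neg, smul_neg, ← neg_smul]
  congr 2
  ring

theorem idv_aux_par {e v : V} {k Q : ℝ} (hQ : J e e = Q) (hQ0 : 0 < Q) (hv : J v v = 0)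
    (hev : J e v = 0) (x : V) :
    reflE (e + k • v) (reflE e x) = Ei v (-(2 * k / Q) • e) x := by
  have hve : J v e = 0 := by rw [J_symm]; exact hev
  have h1 : J (e + k • v) (e + k • v) = Q := by
    rw [J_add_left, J_add_right, J_add_right, J_smul_left, J_smul_left, J_smul_right,
      J_smul_right, hQ, hv, hev, hve]
    ring
  have h2 : J (reflE e x) (e + k • v) = k * J x v - J x e := by
    rw [reflE_apply, J_sub_left, J_add_right, J_add_right, J_smul_left, J_smul_left, J_smul_right,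
      J_smul_right, hQ, hev]
    field_simp
    ring
  rw [reflE_apply (e + k • v), h1, h2, reflE_apply, hQ]
  unfold Ei
  rw [J_smul_left, J_smul_right, J_smul_right, hQ]
  ext i
  simp only [Pi.sub_apply, Pi.add_apply, Pi.smul_apply, smul_eq_mul]
  field_simp
  ring

theorem idv_aux_fin {n : ℕ} {e v : V} {k Q : ℝ} (hQ : J e e = Q) (hQ0 : 0 < Q) (hv : J v v = 0)
    (hev : J e v = 0) (hk : k ≠ 0) (h1 : reflE (e + k • v) ∈ Gam n) (h2 : reflE e ∈ Gam n) :
    ∃ (t : V) (T : V ≃ₗ[ℝ] V), T ∈ Gam n ∧ IsEi T v t ∧ J v t = 0 ∧ 0 < J t t := by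
  refine ⟨-(2 * k / Q) • e, reflE (e + k • v) * reflE e, (Gam n).mul_mem h1 h2, ?_, ?_, ?_⟩
  · intro x
    exact idv_aux_par hQ hQ0 hv hev x
  · rw [J_smul_right, J_symm, hev, mul_zero]
  · rw [J_smul_left, J_smul_right, hQ]
    have : 0 < (2 * k / Q) * (2 * k / Q) := by
      rw [← sq]
      exact sq_pos_of_ne_zero (div_ne_zero (mul_ne_zero two_ne_zero hk) hQ0.ne')
    nlinarith

theorem idv_aux_al (n : ℕ) : reflE al ∈ Gam n := Subgroup.subset_closure ⟨Sum.inl 0, rfl⟩
theorem idv_aux_be (n : ℕ) : reflE be ∈ Gam n := Subgroup.subset_closure ⟨Sum.inl 1, rfl⟩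
theorem idv_aux_gg (n : ℕ) : reflE gg ∈ Gam n := Subgroup.subset_closure ⟨Sum.inl 2, rfl⟩
theorem idv_aux_ff {n j : ℕ} (h : j ≤ n) : reflE (ff j) ∈ Gam n :=
  Subgroup.subset_closure ⟨Sum.inr ⟨j, by omega⟩, rfl⟩

theorem idv_trans {n : ℕ} {c : V} (hc : c ∈ idv n) :
    ∃ (t : V) (T : V ≃ₗ[ℝ] V), T ∈ Gam n ∧ IsEi T c t ∧ J c t = 0 ∧ 0 < J t t := by
  have hal : J al al = 1 := by unfold al; rw [J_mk]; norm_num
  have hbe : J be be = 2 := by unfold be; rw [J_mk]; norm_num
  have halI : reflE al ∈ IsomH3 := reflE_isom (by rw [hal]; norm_num)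
  have hbeI : reflE be ∈ IsomH3 := reflE_isom (by rw [hbe]; norm_num)
  rcases hc with rfl | ⟨j, hj, rfl⟩
  · -- the vertex `NN`
    have h1 : reflE be al = mk 0 0 0 (-1) := by
      rw [reflE_apply, hbe]
      have : J al be = -1 := by unfold al be; rw [J_mk]; norm_num
      rw [this, sub_eq_add_neg, ← neg_smul]
      unfold al be
      rw [idv_aux_mk_smul, idv_aux_mk_add]
      norm_num
    have h2 : reflE be * reflE al * (reflE be)⁻¹ = reflE (mk 0 0 0 (-1)) := by
      rw [conj_reflE hbeI, h1]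
    have h2m : reflE (mk 0 0 0 (-1)) ∈ Gam n := by
      rw [← h2]
      exact (Gam n).mul_mem ((Gam n).mul_mem (idv_aux_be n) (idv_aux_al n))
        ((Gam n).inv_mem (idv_aux_be n))
    have h2I : reflE (mk 0 0 0 (-1)) ∈ IsomH3 := reflE_isom (by rw [J_mk]; norm_num)
    have h3 : reflE (mk 0 0 0 (-1)) gg = -(gg + (-(8 / 3) : ℝ) • NN) := by
      rw [reflE_apply]
      have e1 : J gg (mk 0 0 0 (-1)) = -1 := by unfold gg; rw [J_mk]; norm_num
      have e2 : J (mk 0 0 0 (-1)) (mk 0 0 0 (-1)) = 1 := by rw [J_mk]; norm_num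
      rw [e1, e2, sub_eq_add_neg, ← neg_smul]
      unfold gg NN
      rw [idv_aux_mk_smul, idv_aux_mk_smul, idv_aux_mk_add, idv_aux_mk_add, idv_aux_mk_neg]
      norm_num
    have h4 : reflE (gg + (-(8 / 3) : ℝ) • NN) ∈ Gam n := by
      rw [← idv_aux_reflE_neg, ← h3, ← conj_reflE h2I]
      exact (Gam n).mul_mem ((Gam n).mul_mem h2m (idv_aux_gg n)) ((Gam n).inv_mem h2m)
    refine idv_aux_fin (e := gg) (v := NN) (k := -(8 / 3)) (Q := 1) ?_ (by norm_num) ?_ ?_
      (by norm_num) h4 (idv_aux_gg n)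
    · unfold gg; rw [J_mk]; norm_num
    · unfold NN; rw [J_mk]; norm_num
    · unfold gg NN; rw [J_mk]; norm_num
  · have hp : (3:ℝ) ^ j * (1 / 3) ^ j = 1 := by rw [← mul_pow]; norm_num
    have h3 : reflE al (ff (j + 1)) = -(ff j + (-4 : ℝ) • cc j) := by
      rw [reflE_apply]
      have e1 : J (ff (j + 1)) al = -1 := by unfold ff al; rw [J_mk]; ring
      rw [e1, hal, sub_eq_add_neg, ← neg_smul]
      unfold ff al cc
      rw [idv_aux_mk_smul, idv_aux_mk_smul, idv_aux_mk_add, idv_aux_mk_add, idv_aux_mk_neg]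
      congr 1 <;> ring
    have h4 : reflE (ff j + (-4 : ℝ) • cc j) ∈ Gam n := by
      rw [← idv_aux_reflE_neg, ← h3, ← conj_reflE halI]
      exact (Gam n).mul_mem ((Gam n).mul_mem (idv_aux_al n) (idv_aux_ff (by omega)))
        ((Gam n).inv_mem (idv_aux_al n))
    refine idv_aux_fin (e := ff j) (v := cc j) (k := -4) (Q := 2) ?_ (by norm_num) ?_ ?_
      (by norm_num) h4 (idv_aux_ff hj.le)
    · unfold ff; rw [J_mk]; linear_combination (-3 : ℝ) * hp
    · unfold cc; rw [J_mk, pow_succ]; linear_combination (-1 : ℝ) * hp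
    · unfold ff cc; rw [J_mk, pow_succ]; linear_combination (-2 : ℝ) * hp

end Pool.Agent.Helper132.H3Refl
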