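import Pool.Agent.Helper132.H3Refl.H1
import Pool.Agent.Helper132.H3Refl.I1

set_option autoImplicit false
set_option linter.unusedVariables false
open scoped ENNReal
noncomputable section
namespace Pool.Agent.Helper132.H3Refl

theorem cob_coords {n : ℕ} {x : V} (hx : x ∈ PP n) :
    ∃ U W y z : ℝ, x = mk U W y z ∧ 0 < U ∧ 0 < W ∧ 0 ≤ y ∧ y ≤ z ∧
      3 * (U * W) = 1 + y ^ 2 + z ^ 2 ∧ z ≤ 2 * U ∧
      (∀ j : ℕ, j ≤ n → y + 2 * z ≤ 3 / 2 * ((1 / 3) ^ j * U + 3 ^ j * W)) ∧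
      (1 / 3) ^ n * U ≤ 3 ^ n * W := by
  obtain ⟨⟨hJ, h0⟩, hw⟩ := hx
  obtain ⟨U, W, y, z, hxe⟩ : ∃ U W y z : ℝ, x = mk U W y z := ⟨_, _, _, _, mk_surj x⟩
  have hal := hw (Sum.inl 0)
  have hbe := hw (Sum.inl 1)
  have hgg := hw (Sum.inl 2)
  have hww := hw (Sum.inl 3)
  have hff : ∀ j : ℕ, j ≤ n → J x (ff j) ≤ 0 := fun j hj => hw (Sum.inr ⟨j, by omega⟩)
  have e1 : EE n (Sum.inl 0) = mk 0 0 (-1) 0 := rfl
  have e2 : EE n (Sum.inl 1) = mk 0 0 1 (-1) := rfl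
  have e3 : EE n (Sum.inl 2) = mk 0 (4 / 3) 0 1 := rfl
  have e4 : EE n (Sum.inl 3) = mk (3 ^ n) (-(1 / 3) ^ n) 0 0 := rfl
  rw [e1, hxe, J_mk] at hal
  rw [e2, hxe, J_mk] at hbe
  rw [e3, hxe, J_mk] at hgg
  rw [e4, hxe, J_mk] at hww
  rw [hxe, J_mk] at hJ
  have hx0 : x 0 = √3 * (U + W) / 2 := by rw [hxe]; rfl
  have hs3 : 0 < √(3 : ℝ) := Real.sqrt_pos.mpr (by norm_num)
  have hUW : 0 < U + W := by
    rw [hx0] at h0
    by_contra hle
    push Not at hle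
    have : √3 * (U + W) / 2 ≤ 0 := by
      have := mul_nonpos_of_nonneg_of_nonpos hs3.le hle
      linarith
    linarith
  have hprod : 0 < U * W := by nlinarith [sq_nonneg y, sq_nonneg z]
  have hU : 0 < U := by
    by_contra hle
    push Not at hle
    have hW : 0 < W := by linarith
    have := mul_nonpos_of_nonpos_of_nonneg hle hW.le
    linarith
  have hW : 0 < W := by
    by_contra hle
    push Not at hle
    have := mul_nonpos_of_nonneg_of_nonpos hU.le hle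
    linarith
  refine ⟨U, W, y, z, hxe, hU, hW, by linarith, by linarith, by nlinarith, by linarith, ?_,
    by linarith⟩
  intro j hj
  have := hff j hj
  rw [hxe, ff, J_mk] at this
  linarith

theorem cob_abs {U W y z C : ℝ} (hU : 0 < U) (hW : 0 < W) (h1 : U + W ≤ C) (hy : |y| ≤ C)
    (hz : |z| ≤ C) : ∀ i, |mk U W y z i| ≤ C := by
  have hs3 : 0 < √(3 : ℝ) := Real.sqrt_pos.mpr (by norm_num)
  have hs2 : √(3 : ℝ) ≤ 2 := by
    rw [Real.sqrt_le_left (by norm_num)]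
    norm_num
  intro i
  fin_cases i
  · show |√3 * (U + W) / 2| ≤ C
    rw [abs_of_nonneg (by positivity)]
    nlinarith
  · show |√3 * (U - W) / 2| ≤ C
    rw [abs_div, abs_mul, abs_of_pos hs3, abs_of_pos (by norm_num : (0 : ℝ) < 2)]
    have h2 : |U - W| ≤ U + W := by
      rw [abs_le]
      constructor <;> linarith
    have h3 : 0 ≤ |U - W| := abs_nonneg _
    nlinarith
  · exact hy
  · exact hz

theorem cob_exists {U W : ℝ} (n : ℕ) (h1 : W < U) (h2 : U ≤ 9 ^ n * W) :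
    ∃ j, j < n ∧ 9 ^ j * W ≤ U ∧ U ≤ 9 ^ (j + 1) * W := by
  induction n with
  | zero =>
    rw [pow_zero, one_mul] at h2
    linarith
  | succ n ih =>
    by_cases h : U ≤ 9 ^ n * W
    · obtain ⟨j, hj, h3, h4⟩ := ih h
      exact ⟨j, by omega, h3, h4⟩
    · push Not at h
      exact ⟨n, by omega, h.le, h2⟩

theorem cob_cusp {X Y y z ε : ℝ} (hε : 0 < ε) (hy : 0 ≤ y) (hyz : y ≤ z) (hX : 0 < X)
    (h3 : 3 * (X * Y) = 1 + y ^ 2 + z ^ 2) (hyz4 : y * z ≤ 4)
    (hXY : Y * |X - 3 * Y| ≤ 8 / 3) (hY : 1 + 5 / ε ≤ Y) : X / 2 + 3 * Y / 2 - z < ε := by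
  have hY1 : 1 ≤ Y := by
    have : 0 < 5 / ε := by positivity
    linarith
  have hYε : 5 < ε * Y := by
    have h1 : ε * (1 + 5 / ε) = ε + 5 := by field_simp
    have h2 : ε * (1 + 5 / ε) ≤ ε * Y := mul_le_mul_of_nonneg_left hY hε.le
    linarith
  have hz : 0 ≤ z := hy.trans hyz
  have h5 : |X - 3 * Y| ≤ 8 / 3 := by
    have := abs_nonneg (X - 3 * Y)
    nlinarith
  have h6 : (X - 3 * Y) ^ 2 ≤ 64 / 9 := by
    have h7 := abs_nonneg (X - 3 * Y)
    rw [← sq_abs]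
    nlinarith
  have hy4 : y ^ 2 ≤ 4 := by nlinarith
  have h8 : (X / 2 + 3 * Y / 2 - z) * (X / 2 + 3 * Y / 2 + z) = (X - 3 * Y) ^ 2 / 4 + 1 + y ^ 2 := by
    linear_combination h3
  have h9 : (X / 2 + 3 * Y / 2 - z) * (X / 2 + 3 * Y / 2 + z) ≤ 7 := by
    rw [h8]
    linarith
  by_contra hge
  push Not at hge
  have h10 : 3 * Y / 2 ≤ X / 2 + 3 * Y / 2 + z := by linarith
  have h11 : ε * (3 * Y / 2) ≤ (X / 2 + 3 * Y / 2 - z) * (X / 2 + 3 * Y / 2 + z) :=
    mul_le_mul hge h10 (by positivity) (by linarith)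
  nlinarith

theorem cusp_or_bdd (n : ℕ) (ε : ℝ) (hε : 0 < ε) :
    ∃ C : ℝ, ∀ x ∈ PP n, (∃ c ∈ idv n, -(J x c) < ε) ∨ ∀ i, |x i| ≤ C := by
  obtain ⟨Y0, hY0⟩ : ∃ Y0, Y0 = 1 + 5 / ε := ⟨_, rfl⟩
  have h5ε : 0 < 5 / ε := by positivity
  have h18ε : 0 < 18 / ε := by positivity
  have hY01 : 1 ≤ Y0 := by linarith
  have h3n : (0 : ℝ) < 3 ^ n := by positivity
  have hq : 0 < 3 ^ n * (9 * Y0) := by positivity
  refine ⟨4 + 18 / ε + 6 + 3 ^ n * (9 * Y0) + Y0 + 6 * Y0 + 2, fun x hx => ?_⟩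
  obtain ⟨U, W, y, z, hxe, hU, hW, hy, hyz, h3, hz2, hff, hww⟩ := cob_coords hx
  have hz : 0 ≤ z := hy.trans hyz
  rcases le_or_gt U W with hUW | hUW
  · have hf0 := hff 0 (Nat.zero_le _)
    rw [pow_zero, pow_zero, one_mul, one_mul] at hf0
    have h36 := left_est hy hyz hU hW h3 hz2 hf0 hUW
    have hUW12 : U * W ≤ 12 := by linarith
    by_cases hsm : 3 / 2 * U < ε
    · left
      refine ⟨NN, Or.inl rfl, ?_⟩
      rw [hxe, NN, J_mk]
      linarith
    · right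
      push Not at hsm
      have hU4 : U ≤ 4 := by nlinarith
      have hW18 : W ≤ 18 / ε := by
        rw [le_div_iff₀ hε]
        nlinarith
      have hz6 : z ≤ 6 := by nlinarith
      rw [hxe]
      apply cob_abs hU hW (by linarith)
      · rw [abs_of_nonneg hy]; linarith
      · rw [abs_of_nonneg hz]; linarith
  · have h9n : U ≤ 9 ^ n * W := by
      have e1 : (9 : ℝ) ^ n = 3 ^ n * 3 ^ n := by
        rw [← mul_pow]; norm_num
      have e2 : (3 : ℝ) ^ n * (1 / 3) ^ n = 1 := by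
        rw [← mul_pow]; norm_num
      have e3 : U = 3 ^ n * ((1 / 3) ^ n * U) := by rw [← mul_assoc, e2, one_mul]
      rw [e3, e1, mul_assoc]
      exact mul_le_mul_of_nonneg_left hww h3n.le
    obtain ⟨j, hj, hl, hr⟩ := cob_exists n hUW h9n
    have e1 : (9 : ℝ) ^ j = 3 ^ j * 3 ^ j := by
      rw [← mul_pow]; norm_num
    have e2 : (3 : ℝ) ^ j * (1 / 3) ^ j = 1 := by
      rw [← mul_pow]; norm_num
    have h3j : (0 : ℝ) < 3 ^ j := by positivity
    have h3j' : (0 : ℝ) < (1 / 3) ^ j := by positivity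
    obtain ⟨X, hXd⟩ : ∃ X, X = (1 / 3) ^ j * U := ⟨_, rfl⟩
    obtain ⟨Y, hYd⟩ : ∃ Y, Y = 3 ^ j * W := ⟨_, rfl⟩
    have hX : 0 < X := by rw [hXd]; positivity
    have hY : 0 < Y := by rw [hYd]; positivity
    have hXY : X * Y = U * W := by
      rw [hXd, hYd]
      linear_combination (U * W) * e2
    have hUX : U = 3 ^ j * X := by
      rw [hXd]
      linear_combination (-U) * e2
    have hYX : Y ≤ X := by
      rw [hXd, hYd]
      have h4 : (1 / 3) ^ j * (9 ^ j * W) ≤ (1 / 3) ^ j * U := mul_le_mul_of_nonneg_left hl h3j'.le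
      have h5 : (1 / 3 : ℝ) ^ j * (9 ^ j * W) = 3 ^ j * W := by
        rw [e1]
        linear_combination (3 ^ j * W) * e2
      linarith
    have hX9 : X ≤ 9 * Y := by
      rw [hXd, hYd]
      have h4 : (1 / 3) ^ j * U ≤ (1 / 3) ^ j * (9 ^ (j + 1) * W) :=
        mul_le_mul_of_nonneg_left hr h3j'.le
      have h5 : (1 / 3 : ℝ) ^ j * (9 ^ (j + 1) * W) = 9 * (3 ^ j * W) := by
        rw [pow_succ, e1]
        linear_combination (9 * 3 ^ j * W) * e2
      linarith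
    have hfj := hff j hj.le
    rw [← hXd, ← hYd] at hfj
    have hfj1 := hff (j + 1) hj
    have e6 : (1 / 3 : ℝ) ^ (j + 1) * U = X / 3 := by rw [hXd, pow_succ]; ring
    have e7 : (3 : ℝ) ^ (j + 1) * W = 3 * Y := by rw [hYd, pow_succ]; ring
    rw [e6, e7] at hfj1
    have h3' : 3 * (X * Y) = 1 + y ^ 2 + z ^ 2 := by rw [hXY]; exact h3
    have hslab := slab_est hy hyz hX hY h3' hfj hfj1 hYX hX9
    have habs : 0 ≤ 3 / 2 * Y * |X - 3 * Y| := by positivity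
    have hyzn : 0 ≤ y * z := mul_nonneg hy hz
    have hyz4 : y * z ≤ 4 := by linarith
    have hXY3 : Y * |X - 3 * Y| ≤ 8 / 3 := by linarith
    by_cases hbig : Y0 ≤ Y
    · left
      refine ⟨cc j, Or.inr ⟨j, hj, rfl⟩, ?_⟩
      have hcusp := cob_cusp hε hy hyz hX h3' hyz4 hXY3 (by rw [← hY0]; exact hbig)
      rw [hxe, cc, J_mk]
      have e8 : U * (1 / 3) ^ (j + 1) = X / 3 := by rw [mul_comm]; exact e6
      have e9 : W * 3 ^ j = Y := by rw [mul_comm]; exact hYd.symm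
      rw [e8, e9]
      linarith
    · right
      push Not at hbig
      have hU' : U ≤ 3 ^ n * (9 * Y0) := by
        rw [hUX]
        apply mul_le_mul _ (by linarith) hX.le h3n.le
        exact pow_le_pow_right₀ (by norm_num) hj.le
      have hW' : W ≤ Y0 := by
        have h1 : 1 ≤ (3 : ℝ) ^ j := one_le_pow₀ (by norm_num)
        have : W ≤ 3 ^ j * W := le_mul_of_one_le_left hW.le h1
        rw [← hYd] at this
        linarith
      have hz6 : z ≤ 6 * Y0 := by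
        have h1 : z ^ 2 ≤ 27 * Y0 ^ 2 := by
          have h2 : X * Y ≤ (9 * Y0) * Y0 :=
            mul_le_mul (by linarith) hbig.le hY.le (by linarith)
          nlinarith [sq_nonneg y]
        nlinarith
      rw [hxe]
      apply cob_abs hU hW (by linarith)
      · rw [abs_of_nonneg hy]; linarith
      · rw [abs_of_nonneg hz]; linarith

end Pool.Agent.Helper132.H3Refl
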