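import Pool.Agent.Helper132.H3Refl.A1
import Pool.Agent.Helper132.H3Refl.A2
import Pool.Agent.Helper132.H3Refl.B1
import Pool.Agent.Helper132.H3Refl.C1
import Pool.Agent.Helper132.H3Refl.D1
import Pool.Agent.Helper132.H3Refl.E1
import Pool.Agent.Helper132.H3Refl.E2
import Pool.Agent.Helper132.H3Refl.Gam
import Pool.Agent.Helper132.H3Refl.H1
import Pool.Agent.Helper132.H3Refl.H3

set_option autoImplicit false
set_option linter.unusedVariables false
open scoped ENNReal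
noncomputable section
namespace Pool.Agent.Helper132.H3Refl

theorem k1_mk_add (U W y z U' W' y' z' : ℝ) :
    mk U W y z + mk U' W' y' z' = mk (U + U') (W + W') (y + y') (z + z') := by
  ext i
  fin_cases i <;> simp [mk] <;> ring

theorem k1_mk_smul (a U W y z : ℝ) :
    a • mk U W y z = mk (a * U) (a * W) (a * y) (a * z) := by
  ext i
  fin_cases i <;> simp [mk] <;> ring

/-- `v` is a forward null vector with a translation of `Gam n` based at it -/
def K1Cusp (n : ℕ) (v : V) : Prop :=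
  J v v = 0 ∧ 0 < v 0 ∧ ∃ (t : V) (T : V ≃ₗ[ℝ] V), T ∈ Gam n ∧ IsEi T v t ∧ J v t = 0 ∧ 0 < J t t

theorem k1_cusp_idv {n : ℕ} {c : V} (hc : c ∈ idv n) : K1Cusp n c :=
  ⟨(idv_null hc).1, (idv_null hc).2, idv_trans hc⟩

theorem k1_cusp_conj {n : ℕ} {v : V} (h : K1Cusp n v) {g : V ≃ₗ[ℝ] V} (hg : g ∈ Gam n) :
    K1Cusp n (g v) := by
  obtain ⟨h1, h2, t, T, hT, hE, hvt, htt⟩ := h
  have hgi := Gam_le n hg
  refine ⟨by rw [hgi.1]; exact h1, isom_fwd hgi h1.le h2, g t, g * T * g⁻¹, ?_, ei_conj hgi hE, ?_, ?_⟩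
  · exact (Gam n).mul_mem ((Gam n).mul_mem hg hT) ((Gam n).inv_mem hg)
  · rw [hgi.1]; exact hvt
  · rw [hgi.1]; exact htt

theorem k1_decomp (v : V) : v = ∑ i : Fin 4, v i • (Pi.single i (1:ℝ) : V) := by
  ext j
  simp [Finset.sum_apply, Pi.single_apply]

theorem k1_near_coord {ε : ℝ} {g : V ≃ₗ[ℝ] V} (hg : near ε g) (v : V) (j : Fin 4) :
    |g v j - v j| ≤ (∑ i, |v i|) * ε := by
  have e1 : g v = ∑ i : Fin 4, v i • g (Pi.single i (1:ℝ) : V) := by
    conv_lhs => rw [k1_decomp v]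
    rw [map_sum]
    exact Finset.sum_congr rfl fun i _ => map_smul g _ _
  have e2 : g v j - v j = ∑ i : Fin 4, v i * (g (Pi.single i (1:ℝ) : V) j - (Pi.single i (1:ℝ) : V) j) := by
    rw [e1]
    have e3 : v j = ∑ i : Fin 4, v i * (Pi.single i (1:ℝ) : V) j := by
      simp [Pi.single_apply]
    conv_lhs => rw [e3]
    rw [Finset.sum_apply, ← Finset.sum_sub_distrib]
    refine Finset.sum_congr rfl fun i _ => ?_
    simp only [Pi.smul_apply, smul_eq_mul]
    ring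
  rw [e2, Finset.sum_mul]
  refine (Finset.abs_sum_le_sum_abs _ _).trans (Finset.sum_le_sum fun i _ => ?_)
  rw [abs_mul]
  exact mul_le_mul_of_nonneg_left (hg i j).le (abs_nonneg _)

theorem k1_J_le (v w : V) (B : ℝ) (hw : ∀ j, |w j| ≤ B) : |J v w| ≤ (∑ i, |v i|) * B := by
  have h : ∀ j, |v j * w j| ≤ |v j| * B := fun j => by
    rw [abs_mul]
    exact mul_le_mul_of_nonneg_left (hw j) (abs_nonneg _)
  have h0 := h 0
  have h1 := h 1
  have h2 := h 2
  have h3 := h 3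
  rw [Fin.sum_univ_four]
  unfold J
  have a1 := abs_add_le (-(v 0 * w 0) + v 1 * w 1 + v 2 * w 2) (v 3 * w 3)
  have a2 := abs_add_le (-(v 0 * w 0) + v 1 * w 1) (v 2 * w 2)
  have a3 := abs_add_le (-(v 0 * w 0)) (v 1 * w 1)
  rw [abs_neg] at a3
  nlinarith

theorem k1_fix {n : ℕ} {v : V} (h : K1Cusp n v) : ∃ ε > 0, ∀ M : Subgroup (V ≃ₗ[ℝ] V), M ≤ IsomH3 →
    Discr M → Gam n ≤ M → ∀ g ∈ M, near ε g → ∃ r : ℝ, 0 < r ∧ g v = r • v := by
  obtain ⟨h1, h2, t, T, hT, hE, hvt, htt⟩ := h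
  set S : ℝ := ∑ i, |v i| with hS
  have hS0 : 0 ≤ S := Finset.sum_nonneg fun i _ => abs_nonneg _
  refine ⟨1 / (J t t * (S * S + 1)), by positivity, ?_⟩
  intro M hM hd hG g hg hn
  have hgi := hM hg
  have hz : J v (g v) = 0 := by
    by_contra hne
    have h3 := shimizu hM hd h1 h2 hvt htt (hG hT) hE hg hne
    have h4 : J v (g v) = J v (g v - v) := by rw [J_sub_right, h1, sub_zero]
    have h5 := k1_J_le v (g v - v) (S * (1 / (J t t * (S * S + 1)))) (fun j => by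
      rw [Pi.sub_apply]
      exact k1_near_coord hn v j)
    rw [← h4, ← hS] at h5
    have h6 : -(J v (g v)) ≤ |J v (g v)| := neg_le_abs _
    have h7 : J t t * (S * (S * (1 / (J t t * (S * S + 1))))) = S * S / (S * S + 1) := by
      have : S * S + 1 ≠ 0 := by positivity
      field_simp
    have h8 : S * S / (S * S + 1) ≤ 1 := by
      rw [div_le_one (by positivity)]
      linarith
    have h9 : J t t * (-(J v (g v))) ≤ J t t * (S * (S * (1 / (J t t * (S * S + 1))))) :=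
      mul_le_mul_of_nonneg_left (h6.trans h5) htt.le
    rw [h7] at h9
    linarith
  exact null_prop h1 h2 (by rw [hgi.1]; exact h1) (isom_fwd hgi h1.le h2) hz

theorem k1_near_mono {ε δ : ℝ} (h : ε ≤ δ) {g : V ≃ₗ[ℝ] V} (hg : near ε g) : near δ g :=
  fun i j => (hg i j).trans_le h

theorem k1_refl_mem (n : ℕ) (i : Fin 4 ⊕ Fin (n + 1)) : reflE (EE n i) ∈ Gam n :=
  Subgroup.subset_closure ⟨i, rfl⟩

theorem k1_v3 : reflE be (mk 1 (1 / 3) 0 1) = mk 1 (1 / 3) 1 0 := by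
  have h1 : J (mk 1 (1 / 3) 0 1) be = -1 := by unfold be; rw [J_mk]; norm_num
  have h2 : J be be = 2 := by unfold be; rw [J_mk]; norm_num
  rw [reflE_apply, h1, h2]
  have h3 : -((2 * (-1) / 2 : ℝ) • be) = mk 0 0 1 (-1) := by
    unfold be
    rw [← neg_smul, k1_mk_smul]
    norm_num
  rw [sub_eq_add_neg, h3, k1_mk_add]
  norm_num

theorem k1_v4 : reflE al (mk 1 (1 / 3) 1 0) = mk 1 (1 / 3) (-1) 0 := by
  have h1 : J (mk 1 (1 / 3) 1 0) al = -1 := by unfold al; rw [J_mk]; norm_num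
  have h2 : J al al = 1 := by unfold al; rw [J_mk]; norm_num
  rw [reflE_apply, h1, h2]
  have h3 : -((2 * (-1) / 1 : ℝ) • al) = mk 0 0 (-2) 0 := by
    unfold al
    rw [← neg_smul, k1_mk_smul]
    norm_num
  rw [sub_eq_add_neg, h3, k1_mk_add]
  norm_num

theorem unif_discr (n : ℕ) (hn : 1 ≤ n) : ∃ ε > 0, ∀ M : Subgroup (V ≃ₗ[ℝ] V), M ≤ IsomH3 → Discr M →
    Gam n ≤ M → ∀ g ∈ M, near ε g → g = 1 := by
  have c1 : K1Cusp n (mk 0 1 0 0) := k1_cusp_idv (Or.inl rfl)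
  have c2 : K1Cusp n (mk 1 (1 / 3) 0 1) := by
    have h : cc 0 = mk 1 (1 / 3) 0 1 := by unfold cc; norm_num
    rw [← h]
    exact k1_cusp_idv (Or.inr ⟨0, hn, rfl⟩)
  have c3 : K1Cusp n (mk 1 (1 / 3) 1 0) := by
    rw [← k1_v3]
    exact k1_cusp_conj c2 (k1_refl_mem n (Sum.inl 1))
  have c4 : K1Cusp n (mk 1 (1 / 3) (-1) 0) := by
    rw [← k1_v4]
    exact k1_cusp_conj c3 (k1_refl_mem n (Sum.inl 0))
  obtain ⟨e1, he1, f1⟩ := k1_fix c1
  obtain ⟨e2, he2, f2⟩ := k1_fix c2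
  obtain ⟨e3, he3, f3⟩ := k1_fix c3
  obtain ⟨e4, he4, f4⟩ := k1_fix c4
  refine ⟨min (min e1 e2) (min e3 e4), by positivity, ?_⟩
  intro M hM hd hG g hg hnear
  obtain ⟨r1, p1, q1⟩ := f1 M hM hd hG g hg
    (k1_near_mono ((min_le_left _ _).trans (min_le_left _ _)) hnear)
  obtain ⟨r2, p2, q2⟩ := f2 M hM hd hG g hg
    (k1_near_mono ((min_le_left _ _).trans (min_le_right _ _)) hnear)
  obtain ⟨r3, p3, q3⟩ := f3 M hM hd hG g hg
    (k1_near_mono ((min_le_right _ _).trans (min_le_left _ _)) hnear)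
  obtain ⟨r4, p4, q4⟩ := f4 M hM hd hG g hg
    (k1_near_mono ((min_le_right _ _).trans (min_le_right _ _)) hnear)
  have hgi := hM hg
  have key : ∀ (v w : V) (r s : ℝ), g v = r • v → g w = s • w → J v w ≠ 0 → r * s = 1 := by
    intro v w r s hv hw hne
    have h := hgi.1 v w
    rw [hv, hw, J_smul_left, J_smul_right, ← mul_assoc] at h
    have h' : (r * s - 1) * J v w = 0 := by linarith
    rcases mul_eq_zero.mp h' with h'' | h''
    · linarith
    · exact absurd h'' hne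
  have k12 := key _ _ _ _ q1 q2 (by rw [J_mk]; norm_num)
  have k13 := key _ _ _ _ q1 q3 (by rw [J_mk]; norm_num)
  have k23 := key _ _ _ _ q2 q3 (by rw [J_mk]; norm_num)
  have k14 := key _ _ _ _ q1 q4 (by rw [J_mk]; norm_num)
  have r23 : r2 = r3 := by
    have : r1 * (r2 - r3) = 0 := by linarith
    rcases mul_eq_zero.mp this with h | h
    · linarith
    · linarith
  have r2one : r2 = 1 := by
    rw [← r23] at k23
    nlinarith
  have r1one : r1 = 1 := by rw [r2one] at k12; linarith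
  have r3one : r3 = 1 := by linarith
  have r4one : r4 = 1 := by rw [r1one] at k14; linarith
  rw [r1one, one_smul] at q1
  rw [r2one, one_smul] at q2
  rw [r3one, one_smul] at q3
  rw [r4one, one_smul] at q4
  have main : ∀ U W y z : ℝ, g (mk U W y z) = mk U W y z := by
    intro U W y z
    have e : mk U W y z = (W - U / 3) • mk 0 1 0 0 + z • mk 1 (1 / 3) 0 1 +
        ((U - z + y) / 2) • mk 1 (1 / 3) 1 0 + ((U - z - y) / 2) • mk 1 (1 / 3) (-1) 0 := by
      rw [k1_mk_smul, k1_mk_smul, k1_mk_smul, k1_mk_smul, k1_mk_add, k1_mk_add, k1_mk_add]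
      congr 1 <;> ring
    rw [e, map_add, map_add, map_add, map_smul, map_smul, map_smul, map_smul, q1, q2, q3, q4]
  apply LinearEquiv.ext
  intro x
  rw [mk_surj x]
  exact main _ _ _ _

end Pool.Agent.Helper132.H3Refl
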