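import Pool.Agent.Helper132.H3Refl.Gam
import Pool.Agent.Helper132.H3Refl.H1
import Pool.Agent.Helper132.H3Refl.K1

set_option autoImplicit false
set_option linter.unusedVariables false
open scoped ENNReal
noncomputable section
namespace Pool.Agent.Helper132.H3Refl

theorem exists_max (n : ℕ) (hn : 1 ≤ n) : ∃ M : Subgroup (V ≃ₗ[ℝ] V), MaxRefl M ∧ Gam n ≤ M := by
  have hG0 : ReflGroup (Gam n) := by
    rcases Gam_refl n with h | h
    · exact h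
    · omega
  obtain ⟨ε, hε, hunif⟩ := unif_discr n hn
  have hz : ∀ c ⊆ {M : Subgroup (V ≃ₗ[ℝ] V) | ReflGroup M ∧ Gam n ≤ M}, IsChain (· ≤ ·) c →
      ∀ y ∈ c, ∃ ub ∈ {M : Subgroup (V ≃ₗ[ℝ] V) | ReflGroup M ∧ Gam n ≤ M}, ∀ z ∈ c, z ≤ ub := by
    intro c hc hchain y hy
    have hdir : DirectedOn (· ≤ ·) c := hchain.directedOn
    have hmem : ∀ x, x ∈ sSup c ↔ ∃ M ∈ c, x ∈ M := fun x =>
      Subgroup.mem_sSup_of_directedOn ⟨y, hy⟩ hdir
    have hle : ∀ M ∈ c, M ≤ sSup c := fun M hM => le_sSup hM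
    refine ⟨sSup c, ⟨?_, (hc hy).2.trans (hle y hy)⟩, hle⟩
    refine ⟨?_, ?_, ?_, ?_⟩
    · intro x hx
      obtain ⟨M, hM, hxM⟩ := (hmem x).mp hx
      exact (hc hM).1.le hxM
    · apply le_antisymm
      · intro x hx
        obtain ⟨M, hM, hxM⟩ := (hmem x).mp hx
        rw [(hc hM).1.gen] at hxM
        refine Subgroup.closure_mono ?_ hxM
        rintro g ⟨hg, hr⟩
        exact ⟨hle M hM hg, hr⟩
      · rw [Subgroup.closure_le]
        rintro g ⟨hg, -⟩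
        exact hg
    · refine ⟨ε, hε, fun g hg hnear => ?_⟩
      obtain ⟨M, hM, hgM⟩ := (hmem g).mp hg
      exact hunif M (hc hM).1.le (hc hM).1.discr (hc hM).2 g hgM hnear
    · obtain ⟨F, h1, h2, h3, h4⟩ := (hc hy).1.fincov
      refine ⟨F, h1, h2, h3, fun x hx => ?_⟩
      obtain ⟨g, hg, hgx⟩ := h4 x hx
      exact ⟨g, hle y hy hg, hgx⟩
  obtain ⟨M, hM1, hM2⟩ := zorn_le_nonempty₀ _ hz (Gam n) ⟨hG0, le_refl _⟩
  refine ⟨M, ⟨hM2.prop.1, fun Γ' hΓ' hle => ?_⟩, hM1⟩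
  exact le_antisymm (hM2.le_of_ge ⟨hΓ', hM1.trans hle⟩ hle) hle

end Pool.Agent.Helper132.H3Refl
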