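import Pool.Agent.Helper132.H3Refl.A1
import Pool.Agent.Helper132.H3Refl.A2
import Pool.Agent.Helper132.H3Refl.B1

set_option autoImplicit false
set_option linter.unusedVariables false
open scoped ENNReal
noncomputable section
namespace Pool.Agent.Helper132.H3Refl

/-- the base point -/
private def oo : V := ![1, 0, 0, 0]

private theorem oo_J (x : V) : J x oo = - x 0 := by
  simp [J, oo]

private theorem oo_J' (x : V) : J oo x = - x 0 := by
  simp [J, oo]

private theorem oo_mem : oo ∈ H3 := by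
  refine ⟨?_, ?_⟩
  · rw [oo_J]; simp [oo]
  · simp [oo]

private theorem null_coord {w : V} (h : J w w = 0) (h0 : 0 ≤ w 0) (i : Fin 4) : |w i| ≤ w 0 := by
  simp only [J] at h
  apply abs_le_of_sq_le_sq _ h0
  fin_cases i
  · exact le_rfl
  · show w 1 ^ 2 ≤ w 0 ^ 2
    nlinarith [mul_self_nonneg (w 1), mul_self_nonneg (w 2), mul_self_nonneg (w 3)]
  · show w 2 ^ 2 ≤ w 0 ^ 2
    nlinarith [mul_self_nonneg (w 1), mul_self_nonneg (w 2), mul_self_nonneg (w 3)]
  · show w 3 ^ 2 ≤ w 0 ^ 2
    nlinarith [mul_self_nonneg (w 1), mul_self_nonneg (w 2), mul_self_nonneg (w 3)]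

private theorem J_single (i : Fin 4) (x : V) : |J (Pi.single i 1) x| = |x i| := by
  fin_cases i <;> simp [J]

private theorem null_bound {w d : V} (hw : J w w = 0) (hw0 : 0 < w 0) (hd : d ∈ H3) {C m : ℝ}
    (hC : d 0 ≤ C) (hm : -(J w d) ≤ m) (i : Fin 4) : |w i| ≤ 2 * m * C := by
  refine (null_coord hw hw0.le i).trans ?_
  have h1 := causal_ineq (a := w) (b := d) (c := oo) hw.le hw0 (by rw [oo_mem.1]; norm_num)
    oo_mem.2 hd
  rw [oo_J, oo_J'] at h1
  have h2 : J w d < 0 := causal_neg hw.le hw0 (by rw [hd.1]; norm_num) hd.2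
  have h3 := hd.2
  have h4 : -(J w d) * d 0 ≤ m * C := by
    apply mul_le_mul hm hC h3.le
    linarith
  nlinarith

theorem exists_close {z : V} (hz : J z z = 0) (hz0 : 0 < z 0) {ε : ℝ} (hε : 0 < ε) :
    ∃ y ∈ H3, -(J y z) < ε := by
  set a : ℝ := z 0 with ha
  have hq0 : 0 < 1 + a ^ 2 / ε ^ 2 := by positivity
  set q : ℝ := √(1 + a ^ 2 / ε ^ 2) with hq
  have hqpos : 0 < q := Real.sqrt_pos.mpr hq0
  have hqq : q * q = 1 + a ^ 2 / ε ^ 2 := Real.mul_self_sqrt hq0.le
  set s : ℝ := a / (2 * ε ^ 2) with hs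
  have hs0 : 0 < s := by positivity
  have hsa : 2 * s * a = a ^ 2 / ε ^ 2 := by
    rw [hs]; field_simp
  refine ⟨q⁻¹ • (oo + s • z), ⟨?_, ?_⟩, ?_⟩
  · rw [J_smul_left, J_smul_right, J_add_left, J_add_right, J_add_right, J_smul_right,
      J_smul_left, J_smul_left, J_smul_right, hz, oo_mem.1, oo_J', oo_J, ← ha]
    have : -1 + s * -a + (s * -a + s * (s * 0)) = -(q * q) := by
      rw [hqq, ← hsa]; ring
    rw [this]
    field_simp
  · have : (q⁻¹ • (oo + s • z)) 0 = q⁻¹ * (1 + s * a) := by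
      show q⁻¹ * (oo 0 + s * z 0) = q⁻¹ * (1 + s * a)
      rw [show oo 0 = 1 from rfl]
    rw [this]
    positivity
  · rw [J_smul_left, J_add_left, J_smul_left, hz, oo_J', ← ha]
    have h1 : -(q⁻¹ * (-a + s * 0)) = a / q := by
      field_simp; ring
    rw [h1, div_lt_iff₀ hqpos]
    apply lt_of_pow_lt_pow_left₀ 2 (by positivity)
    have : (ε * q) ^ 2 = ε ^ 2 + a ^ 2 := by
      have : (ε * q) ^ 2 = ε ^ 2 * (q * q) := by ring
      rw [this, hqq]
      field_simp
    rw [this]
    have : 0 < ε ^ 2 := by positivity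
    linarith

theorem ei_near (C τ ε : ℝ) (hτ : 0 < τ) (hε : 0 < ε) : ∃ δ : ℝ, 0 < δ ∧ ∀ d ∈ H3, (∀ i, |d i| ≤ C) →
    ∀ z t : V, J z z = 0 → 0 < z 0 → J z t = 0 → J t t = τ → -(J d z) < δ →
      ∀ g : V ≃ₗ[ℝ] V, IsEi g z t → near ε g := by
  set C' : ℝ := |C| + 1 with hC'
  have hC'0 : 0 < C' := by positivity
  set M : ℝ := 3 * √τ * C' with hM
  have hsτ : 0 < √τ := Real.sqrt_pos.mpr hτ
  have hM0 : 0 < M := by positivity
  set K : ℝ := 2 * M + τ / 2 + 1 with hK
  have hK0 : 0 < K := by positivity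
  set m : ℝ := min 1 (ε / K) with hm
  have hm0 : 0 < m := lt_min one_pos (by positivity)
  have hm1 : m ≤ 1 := min_le_left _ _
  have hmK : m * K ≤ ε := by
    have := min_le_right 1 (ε / K)
    rw [← hm] at this
    exact (le_div_iff₀ hK0).mp this
  refine ⟨m / (2 * C'), by positivity, ?_⟩
  intro d hd hdC z t hz hz0 hzt htt hdz g hg i j
  have hd0 : d 0 ≤ C' := by
    have h1 := le_abs_self (d 0)
    have h2 := hdC 0
    have h3 := le_abs_self C
    linarith
  have hJdz : J d z < 0 := by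
    rw [J_symm]
    exact causal_neg hz.le hz0 (by rw [hd.1]; norm_num) hd.2
  -- the corrected vector
  set r : ℝ := -(J d t) / (J d z) with hr
  obtain ⟨t1, ht1⟩ : ∃ t1 : V, t1 = t + r • z := ⟨_, rfl⟩
  have hdt1 : J d t1 = 0 := by
    rw [ht1, J_add_right, J_smul_right, hr, div_mul_cancel₀ _ hJdz.ne]
    ring
  have ht1t1 : J t1 t1 = τ := by
    rw [ht1, J_add_left, J_add_right, J_add_right, J_smul_left, J_smul_right, J_smul_left,
      J_smul_right, hz, J_symm t z, hzt, htt]
    ring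
  have hzi : ∀ k, |z k| ≤ m := by
    intro k
    have h1 := null_bound hz hz0 hd hd0 (m := m / (2 * C')) (by rw [J_symm]; exact hdz.le) k
    have h2 : 2 * (m / (2 * C')) * C' = m := by field_simp
    rwa [h2] at h1
  -- null vector `w`
  obtain ⟨w, hw⟩ : ∃ w : V, w = t1 + √τ • d := ⟨_, rfl⟩
  have hss : √τ * √τ = τ := Real.mul_self_sqrt hτ.le
  have hww : J w w = 0 := by
    rw [hw, J_add_left, J_add_right, J_add_right, J_smul_left, J_smul_right, J_smul_left,
      J_smul_right, hd.1, J_symm t1 d, hdt1, ht1t1]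
    linear_combination -hss
  have hwd : J w d = -√τ := by
    rw [hw, J_add_left, J_smul_left, hd.1, J_symm t1 d, hdt1]
    ring
  have hw0 : 0 < w 0 := by
    by_contra hneg
    rcases lt_or_eq_of_le (not_lt.mp hneg) with h | h
    · have h5 : J (-w) d < 0 := by
        apply causal_neg _ _ (by rw [hd.1]; norm_num) hd.2
        · rw [J_neg_left, J_neg_right, hww]; norm_num
        · simp only [Pi.neg_apply]; linarith
      rw [J_neg_left, hwd] at h5
      linarith
    · have h6 : ∀ k, w k = 0 := by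
        intro k
        have := null_coord hww h.ge k
        rw [h] at this
        exact abs_eq_zero.mp (le_antisymm this (abs_nonneg _))
      have h7 : w = 0 := funext h6
      rw [h7, J_zero_left] at hwd
      linarith
  have hwk : ∀ k, |w k| ≤ 2 * √τ * C' := fun k =>
    null_bound hww hw0 hd hd0 (by rw [hwd, neg_neg]) k
  have ht1k : ∀ k, |t1 k| ≤ M := by
    intro k
    have h1 : t1 k = w k - √τ * d k := by
      rw [hw]; simp
    have h2 : |d k| ≤ C' := by
      have h2 := hdC k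
      have h3 := le_abs_self C
      linarith
    calc |t1 k| = |w k - √τ * d k| := by rw [h1]
      _ ≤ |w k| + |√τ * d k| := abs_sub _ _
      _ ≤ 2 * √τ * C' + √τ * C' := by
          rw [abs_mul, abs_of_pos hsτ]
          have := mul_le_mul_of_nonneg_left h2 hsτ.le
          linarith [hwk k]
      _ = M := by rw [hM]; ring
  -- the difference
  have hdiff : g (Pi.single i 1) j - (Pi.single i 1 : V) j
      = J (Pi.single i 1) z * t1 j - J (Pi.single i 1) t1 * z j
        - (τ / 2 * J (Pi.single i 1) z) * z j := by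
    rw [hg (Pi.single i 1)]
    simp only [Ei, htt, ht1, Pi.add_apply, Pi.sub_apply, Pi.smul_apply, smul_eq_mul, J_add_right,
      J_smul_right]
    ring
  rw [hdiff]
  have hA : |J (Pi.single i 1) z| ≤ m := by rw [J_single]; exact hzi i
  have hB : |J (Pi.single i 1) t1| ≤ M := by rw [J_single]; exact ht1k i
  set A : ℝ := J (Pi.single i 1) z
  set B : ℝ := J (Pi.single i 1) t1
  have e1 : |A * t1 j| ≤ m * M := by
    rw [abs_mul]; exact mul_le_mul hA (ht1k j) (abs_nonneg _) hm0.le
  have e2 : |B * z j| ≤ M * m := by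
    rw [abs_mul]; exact mul_le_mul hB (hzi j) (abs_nonneg _) hM0.le
  have e3 : |(τ / 2 * A) * z j| ≤ (τ / 2 * m) * m := by
    rw [abs_mul, abs_mul, abs_of_pos (half_pos hτ)]
    exact mul_le_mul (mul_le_mul_of_nonneg_left hA (half_pos hτ).le) (hzi j) (abs_nonneg _)
      (by positivity)
  have e4 : |A * t1 j - B * z j - (τ / 2 * A) * z j| ≤ m * M + M * m + (τ / 2 * m) * m :=
    (abs_sub _ _).trans (add_le_add ((abs_sub _ _).trans (add_le_add e1 e2)) e3)
  have e5 : (τ / 2 * m) * m ≤ (τ / 2 * m) * 1 :=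
    mul_le_mul_of_nonneg_left hm1 (by positivity)
  have e6 : m * K = 2 * (m * M) + τ / 2 * m + m := by rw [hK]; ring
  have e7 : M * m = m * M := mul_comm _ _
  linarith

end Pool.Agent.Helper132.H3Refl
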