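import Pool.Agent.Helper132.H3Refl.A1
import Pool.Agent.Helper132.H3Refl.A2
import Pool.Agent.Helper132.H3Refl.B1
import Pool.Agent.Helper132.H3Refl.C1
import Pool.Agent.Helper132.H3Refl.D1
import Pool.Agent.Helper132.H3Refl.E1
import Pool.Agent.Helper132.H3Refl.E2
import Pool.Agent.Helper132.H3Refl.E3
import Pool.Agent.Helper132.H3Refl.Gam
import Pool.Agent.Helper132.H3Refl.H1
import Pool.Agent.Helper132.H3Refl.H3
import Pool.Agent.Helper132.H3Refl.I2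
import Pool.Agent.Helper132.H3Refl.M1

set_option autoImplicit false
set_option linter.unusedVariables false
open scoped ENNReal
noncomputable section
namespace Pool.Agent.Helper132.H3Refl

theorem j9852_le {a c : V} (ha : J a a = 0) (ha0 : 0 < a 0) (hc : J c c = 0) (hc0 : 0 < c 0) :
    J a c ≤ 0 := by
  simp only [J] at ha hc ⊢
  have h1 : (a 1 * c 1 + a 2 * c 2 + a 3 * c 3) ^ 2 ≤ (a 0 * c 0) ^ 2 := by
    have e1 : a 1 * a 1 + a 2 * a 2 + a 3 * a 3 = a 0 * a 0 := by linarith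
    have e2 : c 1 * c 1 + c 2 * c 2 + c 3 * c 3 = c 0 * c 0 := by linarith
    have e3 : (a 0 * c 0) ^ 2 = (a 1 * a 1 + a 2 * a 2 + a 3 * a 3) * (c 1 * c 1 + c 2 * c 2 + c 3 * c 3) := by
      rw [e1, e2]; ring
    rw [e3]
    nlinarith [sq_nonneg (a 1 * c 2 - a 2 * c 1), sq_nonneg (a 1 * c 3 - a 3 * c 1),
      sq_nonneg (a 2 * c 3 - a 3 * c 2)]
  have h2 := abs_le_of_sq_le_sq' h1 (by positivity)
  linarith [h2.2]

theorem j9852_finite (n : ℕ) : (idv n).Finite := by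
  have : idv n ⊆ {NN} ∪ cc '' (Set.Iio n) := by
    rintro c (rfl | ⟨j, hj, rfl⟩)
    · exact Or.inl rfl
    · exact Or.inr ⟨j, hj, rfl⟩
  exact ((Set.finite_singleton _).union ((Set.finite_Iio n).image _)).subset this

theorem j9852_bound (n : ℕ) : ∃ Bd : ℝ, 0 < Bd ∧ ∀ c ∈ idv n, ∃ (t : V) (T : V ≃ₗ[ℝ] V),
    T ∈ Gam n ∧ IsEi T c t ∧ J c t = 0 ∧ 0 < J t t ∧ J t t ≤ Bd := by
  have hex : ∀ c : V, ∃ (t : V), c ∈ idv n → ∃ (T : V ≃ₗ[ℝ] V),
      T ∈ Gam n ∧ IsEi T c t ∧ J c t = 0 ∧ 0 < J t t := by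
    intro c
    by_cases hc : c ∈ idv n
    · obtain ⟨t, T, h⟩ := idv_trans hc
      exact ⟨t, fun _ => ⟨T, h⟩⟩
    · exact ⟨0, fun h => absurd h hc⟩
  choose F hF using hex
  obtain ⟨Bd, hBd⟩ := ((j9852_finite n).image (fun c => J (F c) (F c))).bddAbove
  refine ⟨max Bd 1, by positivity, fun c hc => ?_⟩
  obtain ⟨T, h1, h2, h3, h4⟩ := hF c hc
  exact ⟨F c, T, h1, h2, h3, h4, (hBd ⟨c, hc, rfl⟩).trans (le_max_left _ _)⟩

theorem j9852_ne_one {w s x : V} (hs : 0 < J s s) (hws : J w s = 0) (hw : J w w = 0) (hw0 : 0 < w 0)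
    (hx : x ∈ H3) (h : IsEi (1 : V ≃ₗ[ℝ] V) w s) : False := by
  have h1 : x = Ei w s x := h x
  have h2 : J x s = J (Ei w s x) s := by rw [← h1]
  unfold Ei at h2
  rw [J_sub_left, J_sub_left, J_add_left, J_smul_left, J_smul_left, J_smul_left, hws] at h2
  have h3 : J x w * J s s = 0 := by linarith
  have h4 : J w x < 0 := causal_neg hw.le hw0 (by rw [hx.1]; norm_num) hx.2
  rw [J_symm] at h4
  rcases mul_eq_zero.1 h3 with h5 | h5
  · linarith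
  · linarith

theorem cusp_image (n : ℕ) (hn : 1 ≤ n) {M : Subgroup (V ≃ₗ[ℝ] V)} (hM : M ≤ IsomH3) (hd : Discr M)
    (hG : Gam n ≤ M) {g : V ≃ₗ[ℝ] V} (hg : g ∈ M) {c : V} (hc : c ∈ idv n) :
    ∃ γ ∈ Gam n, ∃ c' ∈ idv n, ∃ r : ℝ, 0 < r ∧ g c = r • γ c' := by
  obtain ⟨hc1, hc0⟩ := idv_null hc
  obtain ⟨t, T, hT, hTE, hct, htt⟩ := idv_trans hc
  obtain ⟨Bd, hBd0, hBd⟩ := j9852_bound n
  obtain ⟨εM, hεM, hdM⟩ := hd
  have hd' : Discr M := ⟨εM, hεM, hdM⟩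
  have hgI := hM hg
  have hz : J (g c) (g c) = 0 := by rw [hgI.1]; exact hc1
  have hz0 : 0 < (g c) 0 := isom_fwd hgI hc1.le hc0
  obtain ⟨C, hC⟩ := cusp_or_bdd n 1 one_pos
  obtain ⟨δ, hδ, hnear⟩ := ei_near C (J t t) εM htt hεM
  set P := J t t * Bd with hP
  have hP0 : 0 < P := mul_pos htt hBd0
  obtain ⟨ε, hε0, hεδ, hε1, hεP⟩ : ∃ ε : ℝ, 0 < ε ∧ ε < δ ∧ ε ≤ 1 ∧ ε * P < 1 := by
    refine ⟨min (δ / 2) (1 / (P + 1)), by positivity, ?_, ?_, ?_⟩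
    · exact lt_of_le_of_lt (min_le_left _ _) (by linarith)
    · refine (min_le_right _ _).trans ?_
      rw [div_le_one (by positivity)]
      linarith
    · have h1 : min (δ / 2) (1 / (P + 1)) * P ≤ 1 / (P + 1) * P :=
        mul_le_mul_of_nonneg_right (min_le_right _ _) hP0.le
      refine lt_of_le_of_lt h1 ?_
      rw [one_div, inv_mul_eq_div, div_lt_one (by positivity)]
      linarith
  obtain ⟨y, hy, hyz⟩ := exists_close hz hz0 hε0
  obtain ⟨γ, hγ, hγy⟩ := Gam_cover n hn hy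
  have hγM : γ ∈ M := hG hγ
  have hγI := hM hγM
  have hdH : γ y ∈ H3 := hγI.2 _ hy
  have hJdz : -(J (γ y) (γ (g c))) < ε := by rw [hγI.1]; exact hyz
  have hγz : J (γ (g c)) (γ (g c)) = 0 := by rw [hγI.1]; exact hz
  have hγz0 : 0 < (γ (g c)) 0 := isom_fwd hγI hz.le hz0
  have hTM : T ∈ M := hG hT
  have hγgM : γ * g ∈ M := M.mul_mem hγM hg
  have hT1M : (γ * g) * T * (γ * g)⁻¹ ∈ M := M.mul_mem (M.mul_mem hγgM hTM) (M.inv_mem hγgM)
  have hT1E : IsEi ((γ * g) * T * (γ * g)⁻¹) (γ (g c)) (γ (g t)) := ei_conj (hM hγgM) hTE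
  have hzt : J (γ (g c)) (γ (g t)) = 0 := by rw [hγI.1, hgI.1]; exact hct
  have htt' : J (γ (g t)) (γ (g t)) = J t t := by rw [hγI.1, hgI.1]
  rcases hC _ hγy with ⟨c1, hc1i, hc1d⟩ | hbdd
  · obtain ⟨hc1n, hc10⟩ := idv_null hc1i
    obtain ⟨t', T', hT', hTE', hct', htt'0, htB⟩ := hBd c1 hc1i
    have h1 := causal_ineq hγz.le hγz0 hc1n.le hc10 hdH
    have h2 : J (γ (g c)) (γ y) < 0 := causal_neg hγz.le hγz0 (by rw [hdH.1]; norm_num) hdH.2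
    have h3 : J c1 (γ y) < 0 := causal_neg hc1n.le hc10 (by rw [hdH.1]; norm_num) hdH.2
    have h4 : J (γ (g c)) c1 ≤ 0 := j9852_le hγz hγz0 hc1n hc10
    rw [J_symm] at hJdz hc1d
    have h5 : J (γ (g c)) (γ y) * J c1 (γ y) ≤ ε := by nlinarith
    have h6 : (J (γ (g c)) c1) ^ 2 ≤ (2 * ε) ^ 2 := by
      apply sq_le_sq'
      · linarith
      · linarith
    have h7 : J t t * J t' t' ≤ P := mul_le_mul_of_nonneg_left htB htt.le
    have hsmall : J (γ (g t)) (γ (g t)) * J t' t' * (J (γ (g c)) c1) ^ 2 < 4 := by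
      rw [htt']
      have h8 : J t t * J t' t' * (J (γ (g c)) c1) ^ 2 ≤ P * (2 * ε) ^ 2 :=
        mul_le_mul h7 h6 (sq_nonneg _) hP0.le
      have h9 : P * (2 * ε) ^ 2 = 4 * (ε * P) * ε := by ring
      have h10 : 4 * (ε * P) * ε ≤ 4 * (ε * P) * 1 := mul_le_mul_of_nonneg_left hε1 (by positivity)
      linarith
    have h11 := shimizu_two hM hd' hγz hγz0 hzt (by rw [htt']; exact htt) hT1M hT1E hc1n hc10 hct' htt'0
      (hG hT') hTE' hsmall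
    obtain ⟨r, hr, hrz⟩ := null_prop hc1n hc10 hγz hγz0 (by rw [J_symm]; exact h11)
    refine ⟨γ⁻¹, (Gam n).inv_mem hγ, c1, hc1i, r, hr, ?_⟩
    have h12 : γ⁻¹ (γ (g c)) = g c := by
      show (γ⁻¹ * γ) (g c) = g c
      rw [inv_mul_cancel]
      rfl
    rw [← h12, hrz, map_smul]
  · exfalso
    have h1 := hnear _ hdH hbdd _ _ hγz hγz0 hzt htt' (lt_trans hJdz hεδ) _ hT1E
    have h2 := hdM _ hT1M h1
    rw [h2] at hT1E
    exact j9852_ne_one (by rw [htt']; exact htt) hzt hγz hγz0 hdH hT1E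

end Pool.Agent.Helper132.H3Refl
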