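import Pool.Agent.Helper132.H3Refl.A1
import Pool.Agent.Helper132.H3Refl.A2
import Pool.Agent.Helper132.H3Refl.B1
import Pool.Agent.Helper132.H3Refl.C1
import Pool.Agent.Helper132.H3Refl.D1
import Pool.Agent.Helper132.H3Refl.Gam
import Pool.Agent.Helper132.H3Refl.H1
import Pool.Agent.Helper132.H3Refl.M2

set_option autoImplicit false
set_option linter.unusedVariables false
open scoped ENNReal
noncomputable section
namespace Pool.Agent.Helper132.H3Refl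

/-- the rational numbers inside the reals -/
def rrQ : Subfield ℝ := (algebraMap ℚ ℝ).fieldRange

theorem rrQ_mem (x : ℝ) : x ∈ rrQ ↔ ∃ q : ℚ, x = q := by
  unfold rrQ
  rw [RingHom.mem_fieldRange]
  constructor
  · rintro ⟨q, hq⟩; exact ⟨q, by rw [← hq]; rfl⟩
  · rintro ⟨q, hq⟩; exact ⟨q, by rw [hq]; rfl⟩

def rrU (x : V) : ℝ := (x 0 + x 1) / √3
def rrW (x : V) : ℝ := (x 0 - x 1) / √3

theorem rrU_mk (U W y z : ℝ) : rrU (mk U W y z) = U := by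
  have h : √(3:ℝ) ≠ 0 := by positivity
  unfold rrU mk
  simp only [Matrix.cons_val_zero, Matrix.cons_val_one]
  field_simp
  ring

theorem rrW_mk (U W y z : ℝ) : rrW (mk U W y z) = W := by
  have h : √(3:ℝ) ≠ 0 := by positivity
  unfold rrW mk
  simp only [Matrix.cons_val_zero, Matrix.cons_val_one]
  field_simp
  ring

theorem rr2_mk (U W y z : ℝ) : mk U W y z 2 = y := by simp [mk]
theorem rr3_mk (U W y z : ℝ) : mk U W y z 3 = z := by simp [mk]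

theorem rr_eq (x : V) : x = mk (rrU x) (rrW x) (x 2) (x 3) := mk_surj x

theorem isRat_iff (x : V) : IsRat x ↔ rrU x ∈ rrQ ∧ rrW x ∈ rrQ ∧ x 2 ∈ rrQ ∧ x 3 ∈ rrQ := by
  constructor
  · rintro ⟨U, W, y, z, rfl⟩
    rw [rrU_mk, rrW_mk, rr2_mk, rr3_mk]
    exact ⟨(rrQ_mem _).2 ⟨U, rfl⟩, (rrQ_mem _).2 ⟨W, rfl⟩, (rrQ_mem _).2 ⟨y, rfl⟩,
      (rrQ_mem _).2 ⟨z, rfl⟩⟩
  · rintro ⟨h1, h2, h3, h4⟩
    obtain ⟨U, hU⟩ := (rrQ_mem _).1 h1
    obtain ⟨W, hW⟩ := (rrQ_mem _).1 h2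
    obtain ⟨y, hy⟩ := (rrQ_mem _).1 h3
    obtain ⟨z, hz⟩ := (rrQ_mem _).1 h4
    exact ⟨U, W, y, z, by rw [← hU, ← hW, ← hy, ← hz]; exact rr_eq x⟩

theorem rrU_add (x y : V) : rrU (x + y) = rrU x + rrU y := by
  unfold rrU; simp only [Pi.add_apply]; ring
theorem rrW_add (x y : V) : rrW (x + y) = rrW x + rrW y := by
  unfold rrW; simp only [Pi.add_apply]; ring
theorem rrU_smul (r : ℝ) (x : V) : rrU (r • x) = r * rrU x := by
  unfold rrU; simp only [Pi.smul_apply, smul_eq_mul]; ring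
theorem rrW_smul (r : ℝ) (x : V) : rrW (r • x) = r * rrW x := by
  unfold rrW; simp only [Pi.smul_apply, smul_eq_mul]; ring
theorem rrU_sub (x y : V) : rrU (x - y) = rrU x - rrU y := by
  unfold rrU; simp only [Pi.sub_apply]; ring
theorem rrW_sub (x y : V) : rrW (x - y) = rrW x - rrW y := by
  unfold rrW; simp only [Pi.sub_apply]; ring

theorem isRat_add {x y : V} (hx : IsRat x) (hy : IsRat y) : IsRat (x + y) := by
  rw [isRat_iff] at *
  obtain ⟨a1, a2, a3, a4⟩ := hx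
  obtain ⟨b1, b2, b3, b4⟩ := hy
  rw [rrU_add, rrW_add]
  exact ⟨add_mem a1 b1, add_mem a2 b2, add_mem a3 b3, add_mem a4 b4⟩

theorem isRat_smul {r : ℝ} {x : V} (hr : r ∈ rrQ) (hx : IsRat x) : IsRat (r • x) := by
  rw [isRat_iff] at *
  obtain ⟨a1, a2, a3, a4⟩ := hx
  rw [rrU_smul, rrW_smul]
  exact ⟨mul_mem hr a1, mul_mem hr a2, mul_mem hr a3, mul_mem hr a4⟩

theorem isRat_sub {x y : V} (hx : IsRat x) (hy : IsRat y) : IsRat (x - y) := by
  rw [isRat_iff] at *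
  obtain ⟨a1, a2, a3, a4⟩ := hx
  obtain ⟨b1, b2, b3, b4⟩ := hy
  rw [rrU_sub, rrW_sub]
  exact ⟨sub_mem a1 b1, sub_mem a2 b2, sub_mem a3 b3, sub_mem a4 b4⟩

theorem rr_rat (q : ℚ) : (q : ℝ) ∈ rrQ := (rrQ_mem _).2 ⟨q, rfl⟩

theorem isRat_mk {U W y z : ℝ} (h1 : U ∈ rrQ) (h2 : W ∈ rrQ) (h3 : y ∈ rrQ) (h4 : z ∈ rrQ) :
    IsRat (mk U W y z) := by
  rw [isRat_iff, rrU_mk, rrW_mk, rr2_mk, rr3_mk]
  exact ⟨h1, h2, h3, h4⟩

theorem J_coord (x y : V) : J x y = -(3 / 2) * (rrU x * rrW y + rrW x * rrU y) + x 2 * y 2 +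
    x 3 * y 3 := by
  conv_lhs => rw [rr_eq x, rr_eq y]
  rw [J_mk]

theorem rr_natDiv (a b : ℕ) : ((a : ℝ) / b) ∈ rrQ := by
  rw [rrQ_mem]; exact ⟨(a : ℚ) / b, by push_cast; rfl⟩

theorem J_rat {x y : V} (hx : IsRat x) (hy : IsRat y) : J x y ∈ rrQ := by
  rw [isRat_iff] at *
  obtain ⟨a1, a2, a3, a4⟩ := hx
  obtain ⟨b1, b2, b3, b4⟩ := hy
  rw [J_coord]
  have h32 : -(3 / 2 : ℝ) ∈ rrQ := by
    rw [rrQ_mem]; exact ⟨-(3 / 2), by push_cast; rfl⟩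
  exact add_mem (add_mem (mul_mem h32 (add_mem (mul_mem a1 b2) (mul_mem a2 b1)))
    (mul_mem a3 b3)) (mul_mem a4 b4)

theorem rr_zero : (0 : ℝ) ∈ rrQ := zero_mem _
theorem rr_one : (1 : ℝ) ∈ rrQ := one_mem _
theorem rr_third : (1 / 3 : ℝ) ∈ rrQ := by
  rw [rrQ_mem]; exact ⟨1 / 3, by push_cast; rfl⟩
theorem rr_three : (3 : ℝ) ∈ rrQ := by
  rw [rrQ_mem]; exact ⟨3, by push_cast; rfl⟩
theorem rr_two : (2 : ℝ) ∈ rrQ := by
  rw [rrQ_mem]; exact ⟨2, by push_cast; rfl⟩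
theorem rr_43 : (4 / 3 : ℝ) ∈ rrQ := by
  rw [rrQ_mem]; exact ⟨4 / 3, by push_cast; rfl⟩

theorem EE_rat (n : ℕ) (i) : IsRat (EE n i) := by
  rcases i with i | j
  · fin_cases i
    · exact isRat_mk rr_zero rr_zero (neg_mem rr_one) rr_zero
    · exact isRat_mk rr_zero rr_zero rr_one (neg_mem rr_one)
    · exact isRat_mk rr_zero rr_43 rr_zero rr_one
    · exact isRat_mk (pow_mem rr_three n) (neg_mem (pow_mem rr_third n)) rr_zero rr_zero
  · exact isRat_mk (pow_mem rr_three _) (pow_mem rr_third _) rr_one rr_two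

theorem reflE_rat {e x : V} (he : IsRat e) (hx : IsRat x) : IsRat (reflE e x) := by
  rw [reflE_apply]
  exact isRat_sub hx (isRat_smul (div_mem (mul_mem rr_two (J_rat hx he)) (J_rat he he)) he)

theorem reflE_inv (e : V) : (reflE e)⁻¹ = reflE e := by
  rw [inv_eq_iff_mul_eq_one]
  apply LinearEquiv.ext
  intro x
  exact refl_refl e x

theorem Gam_rat (n : ℕ) {γ : V ≃ₗ[ℝ] V} (hγ : γ ∈ Gam n) :
    (∀ x, IsRat x → IsRat (γ x)) ∧ ∀ x, IsRat x → IsRat (γ⁻¹ x) := by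
  unfold Gam at hγ
  induction hγ using Subgroup.closure_induction with
  | mem g hg =>
    obtain ⟨i, rfl⟩ := hg
    refine ⟨fun x hx => reflE_rat (EE_rat n i) hx, fun x hx => ?_⟩
    simp only [reflE_inv]
    exact reflE_rat (EE_rat n i) hx
  | one => exact ⟨fun x hx => hx, fun x hx => by rw [inv_one]; exact hx⟩
  | mul a b _ _ ha hb =>
    refine ⟨fun x hx => ha.1 _ (hb.1 x hx), fun x hx => ?_⟩
    rw [mul_inv_rev]
    exact hb.2 _ (ha.2 x hx)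
  | inv a _ ha =>
    refine ⟨ha.2, fun x hx => ?_⟩
    rw [inv_inv]
    exact ha.1 x hx

theorem idv_rat {n : ℕ} {c : V} (hc : c ∈ idv n) : IsRat c := by
  rcases hc with rfl | ⟨j, _, rfl⟩
  · exact isRat_mk rr_zero rr_one rr_zero rr_zero
  · exact isRat_mk (pow_mem rr_three _) (pow_mem rr_third _) rr_zero rr_one

/-- the image of a rational cusp is a positive multiple of a rational vector -/
theorem cusp_rat (n : ℕ) (hn : 1 ≤ n) {M : Subgroup (V ≃ₗ[ℝ] V)} (hM : M ≤ IsomH3) (hd : Discr M)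
    (hG : Gam n ≤ M) {g : V ≃ₗ[ℝ] V} (hg : g ∈ M) {γ : V ≃ₗ[ℝ] V} (hγ : γ ∈ Gam n) {c : V}
    (hc : c ∈ idv n) : ∃ r : ℝ, 0 < r ∧ ∃ u, IsRat u ∧ g (γ c) = r • u := by
  obtain ⟨γ', hγ', c', hc', r, hr, h⟩ := cusp_image n hn hM hd hG (mul_mem hg (hG hγ)) hc
  exact ⟨r, hr, γ' c', (Gam_rat n hγ').1 _ (idv_rat hc'), h⟩

def rv1 : V := mk 0 1 0 0
def rv2 : V := mk 1 (1 / 3) 0 1
def rv3 : V := mk 1 (1 / 3) 1 0
def rv4 : V := mk 1 (1 / 3) (-1) 0

theorem mk_add' (a b c d a' b' c' d' r : ℝ) :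
    mk a b c d - r • mk a' b' c' d' = mk (a - r * a') (b - r * b') (c - r * c') (d - r * d') := by
  ext i
  fin_cases i
  · simp [mk]; ring
  · simp [mk]; ring
  · simp [mk]
  · simp [mk]

theorem rv2_eq : cc 0 = rv2 := by
  unfold cc rv2; norm_num

theorem rv3_eq : reflE be rv2 = rv3 := by
  rw [reflE_apply]
  unfold be rv2 rv3
  rw [J_mk, J_mk, mk_add']
  norm_num

theorem rv4_eq : reflE al rv3 = rv4 := by
  rw [reflE_apply]
  unfold al rv3 rv4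
  rw [J_mk, J_mk, mk_add']
  norm_num

theorem rv_decomp (U W y z : ℝ) : mk U W y z =
    (W - U / 3) • rv1 + z • rv2 + ((U - z + y) / 2) • rv3 + ((U - z - y) / 2) • rv4 := by
  unfold rv1 rv2 rv3 rv4
  ext i
  fin_cases i
  · simp [mk]; ring
  · simp [mk]; ring
  · simp [mk]; ring
  · simp [mk]

theorem rr_ratio {a b c d : ℝ} (ha : a ∈ rrQ) (hb : b ∈ rrQ) (h : a = c * b) (ha0 : a ≠ 0) :
    c ∈ rrQ := by
  have hb0 : b ≠ 0 := by
    rintro rfl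
    exact ha0 (by rw [h, mul_zero])
  have : c = a / b := by rw [h]; field_simp
  rw [this]
  exact div_mem ha hb

theorem refl_rat (n : ℕ) (hn : 1 ≤ n) {M : Subgroup (V ≃ₗ[ℝ] V)} (hM : M ≤ IsomH3) (hd : Discr M)
    (hG : Gam n ≤ M) {g : V ≃ₗ[ℝ] V} (hg : g ∈ M) (hr : IsRefl g) : ∀ x, IsRat x → IsRat (g x) := by
  have hbe : reflE be ∈ Gam n := Subgroup.subset_closure ⟨Sum.inl 1, rfl⟩
  have hal : reflE al ∈ Gam n := Subgroup.subset_closure ⟨Sum.inl 0, rfl⟩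
  have hc0 : cc 0 ∈ idv n := Or.inr ⟨0, by omega, rfl⟩
  have hNN : NN ∈ idv n := Or.inl rfl
  obtain ⟨r1, hr1, u1, hu1, h1⟩ := cusp_rat n hn hM hd hG hg (one_mem (Gam n)) hNN
  obtain ⟨r2, hr2, u2, hu2, h2⟩ := cusp_rat n hn hM hd hG hg (one_mem (Gam n)) hc0
  obtain ⟨r3, hr3, u3, hu3, h3⟩ := cusp_rat n hn hM hd hG hg hbe hc0
  obtain ⟨r4, hr4, u4, hu4, h4⟩ := cusp_rat n hn hM hd hG hg (mul_mem hal hbe) hc0
  have h1' : g rv1 = r1 • u1 := h1
  have h2' : g rv2 = r2 • u2 := by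
    have : g (cc 0) = r2 • u2 := h2
    rwa [rv2_eq] at this
  have h3' : g rv3 = r3 • u3 := by
    rw [rv2_eq, rv3_eq] at h3; exact h3
  have h4' : g rv4 = r4 • u4 := by
    have : g (reflE al (reflE be (cc 0))) = r4 • u4 := h4
    rwa [rv2_eq, rv3_eq, rv4_eq] at this
  have hJ := (hM hg).1
  have hJij : ∀ {x y u v : V} {r s : ℝ}, g x = r • u → g y = s • v → J x y = (r * s) * J u v := by
    intro x y u v r s hx hy
    rw [← hJ x y, hx, hy, J_smul_left, J_smul_right]; ring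
  have j12 : J rv1 rv2 = -(3 / 2) := by unfold rv1 rv2; rw [J_mk]; norm_num
  have j13 : J rv1 rv3 = -(3 / 2) := by unfold rv1 rv3; rw [J_mk]; norm_num
  have j23 : J rv2 rv3 = -1 := by unfold rv2 rv3; rw [J_mk]; norm_num
  have j24 : J rv2 rv4 = -1 := by unfold rv2 rv4; rw [J_mk]; norm_num
  have q32 : (-(3 / 2) : ℝ) ∈ rrQ := by
    rw [rrQ_mem]; exact ⟨-(3 / 2), by push_cast; rfl⟩
  have q1 : (-1 : ℝ) ∈ rrQ := neg_mem rr_one
  have p12 : r1 * r2 ∈ rrQ := rr_ratio (d := 0) q32 (J_rat hu1 hu2)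
    (by rw [← j12]; exact hJij h1' h2') (by norm_num)
  have p13 : r1 * r3 ∈ rrQ := rr_ratio (d := 0) q32 (J_rat hu1 hu3)
    (by rw [← j13]; exact hJij h1' h3') (by norm_num)
  have p23 : r2 * r3 ∈ rrQ := rr_ratio (d := 0) q1 (J_rat hu2 hu3)
    (by rw [← j23]; exact hJij h2' h3') (by norm_num)
  have p24 : r2 * r4 ∈ rrQ := rr_ratio (d := 0) q1 (J_rat hu2 hu4)
    (by rw [← j24]; exact hJij h2' h4') (by norm_num)
  have t2 : r2 / r1 ∈ rrQ := by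
    have : r2 / r1 = (r2 * r3) / (r1 * r3) := by field_simp
    rw [this]; exact div_mem p23 p13
  have t3 : r3 / r1 ∈ rrQ := by
    have : r3 / r1 = (r2 * r3) / (r1 * r2) := by field_simp
    rw [this]; exact div_mem p23 p12
  have t4 : r4 / r1 ∈ rrQ := by
    have : r4 / r1 = (r2 * r4) / (r1 * r2) := by field_simp
    rw [this]; exact div_mem p24 p12
  -- `g x = r1 • A x` with `A x` rational
  have hA : ∀ x, IsRat x → ∃ w, IsRat w ∧ g x = r1 • w := by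
    intro x hx
    have hx' := (isRat_iff x).1 hx
    obtain ⟨a1, a2, a3, a4⟩ := hx'
    refine ⟨(rrW x - rrU x / 3) • u1 + (x 3 * (r2 / r1)) • u2 +
      ((rrU x - x 3 + x 2) / 2 * (r3 / r1)) • u3 + ((rrU x - x 3 - x 2) / 2 * (r4 / r1)) • u4,
      ?_, ?_⟩
    · apply isRat_add (isRat_add (isRat_add (isRat_smul ?_ hu1) (isRat_smul ?_ hu2))
        (isRat_smul ?_ hu3)) (isRat_smul ?_ hu4)
      · exact sub_mem a2 (div_mem a1 rr_three)
      · exact mul_mem a4 t2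
      · exact mul_mem (div_mem (add_mem (sub_mem a1 a4) a3) rr_two) t3
      · exact mul_mem (div_mem (sub_mem (sub_mem a1 a4) a3) rr_two) t4
    · conv_lhs => rw [rr_eq x, rv_decomp]
      rw [map_add, map_add, map_add, map_smul, map_smul, map_smul, map_smul, h1', h2', h3', h4']
      simp only [smul_add, smul_smul]
      congr 1
      · congr 1
        · congr 1
          · congr 1; ring
          · congr 1; field_simp
        · congr 1; field_simp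
      · congr 1; field_simp
  -- the trace
  have hr1Q : r1 ∈ rrQ := by
    obtain ⟨e, he, hge⟩ := hr
    obtain ⟨w1, hw1, g1⟩ := hA (mk 1 0 0 0) (isRat_mk rr_one rr_zero rr_zero rr_zero)
    obtain ⟨w2, hw2, g2⟩ := hA (mk 0 1 0 0) (isRat_mk rr_zero rr_one rr_zero rr_zero)
    obtain ⟨w3, hw3, g3⟩ := hA (mk 0 0 1 0) (isRat_mk rr_zero rr_zero rr_one rr_zero)
    obtain ⟨w4, hw4, g4⟩ := hA (mk 0 0 0 1) (isRat_mk rr_zero rr_zero rr_zero rr_one)
    have c1 : r1 * rrU w1 = 1 - (2 * J (mk 1 0 0 0) e / J e e) * rrU e := by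
      rw [← rrU_smul, ← g1, hge, rrU_sub, rrU_smul, rrU_mk]
    have c2 : r1 * rrW w2 = 1 - (2 * J (mk 0 1 0 0) e / J e e) * rrW e := by
      rw [← rrW_smul, ← g2, hge, rrW_sub, rrW_smul, rrW_mk]
    have c3 : r1 * w3 2 = 1 - (2 * J (mk 0 0 1 0) e / J e e) * e 2 := by
      have : r1 * w3 2 = (r1 • w3) 2 := rfl
      rw [this, ← g3, hge, Pi.sub_apply, Pi.smul_apply, rr2_mk, smul_eq_mul]
    have c4 : r1 * w4 3 = 1 - (2 * J (mk 0 0 0 1) e / J e e) * e 3 := by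
      have : r1 * w4 3 = (r1 • w4) 3 := rfl
      rw [this, ← g4, hge, Pi.sub_apply, Pi.smul_apply, rr3_mk, smul_eq_mul]
    rw [J_coord, rrU_mk, rrW_mk, rr2_mk, rr3_mk] at c1 c2 c3 c4
    have hJee := J_coord e e
    have hsum : r1 * (rrU w1 + rrW w2 + w3 2 + w4 3) = 2 := by
      have hne : J e e ≠ 0 := he.ne'
      have e1 : r1 * (rrU w1 + rrW w2 + w3 2 + w4 3) =
        r1 * rrU w1 + r1 * rrW w2 + r1 * w3 2 + r1 * w4 3 := by ring
      rw [e1, c1, c2, c3, c4]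
      have e2 : 1 - 2 * (-(3 / 2) * (1 * rrW e + 0 * rrU e) + 0 * e 2 + 0 * e 3) / J e e * rrU e +
          (1 - 2 * (-(3 / 2) * (0 * rrW e + 1 * rrU e) + 0 * e 2 + 0 * e 3) / J e e * rrW e) +
          (1 - 2 * (-(3 / 2) * (0 * rrW e + 0 * rrU e) + 1 * e 2 + 0 * e 3) / J e e * e 2) +
          (1 - 2 * (-(3 / 2) * (0 * rrW e + 0 * rrU e) + 0 * e 2 + 1 * e 3) / J e e * e 3) =
          4 - 2 * ((-(3 / 2) * (rrU e * rrW e + rrW e * rrU e) + e 2 * e 2 + e 3 * e 3) /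
            J e e) := by ring
      rw [e2, ← hJee, div_self hne]
      norm_num
    have hT : rrU w1 + rrW w2 + w3 2 + w4 3 ∈ rrQ :=
      add_mem (add_mem (add_mem ((isRat_iff _).1 hw1).1 ((isRat_iff _).1 hw2).2.1)
        ((isRat_iff _).1 hw3).2.2.1) ((isRat_iff _).1 hw4).2.2.2
    exact rr_ratio (d := 0) rr_two hT hsum.symm (by norm_num)
  intro x hx
  obtain ⟨w, hw, hgx⟩ := hA x hx
  rw [hgx]
  exact isRat_smul hr1Q hw

end Pool.Agent.Helper132.H3Refl
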