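import Pool.Agent.Helper132.H3Refl.Defs

set_option autoImplicit false
set_option linter.unusedVariables false
open scoped ENNReal
noncomputable section
namespace Pool.Agent.Helper132.H3Refl

theorem quasi_of_rat {M : Subgroup (V ≃ₗ[ℝ] V)} (h : ∀ g ∈ M, ∀ x, IsRat x → IsRat (g x)) :
    QuasiArith M := by
  have hbot : (⊥ : Subfield ℝ) = (algebraMap ℚ ℝ).fieldRange := Subfield.bot_eq_of_charZero
  have hmem : ∀ q : ℚ, (q : ℝ) ∈ (⊥ : Subfield ℝ) := by
    intro q
    rw [hbot]
    exact ⟨q, by simp⟩
  have hex : ∀ x : (⊥ : Subfield ℝ), ∃ q : ℚ, x = ((⟨(q : ℝ), hmem q⟩ : (⊥ : Subfield ℝ))) := by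
    rintro ⟨x, hx⟩
    have hx' := hx
    rw [hbot] at hx'
    obtain ⟨q, hq⟩ := hx'
    refine ⟨q, Subtype.ext ?_⟩
    show x = (q : ℝ)
    rw [← hq]; simp
  have hex2 : ∀ x : (⊥ : Subfield ℝ), ∃ q : ℚ, x = ((q : (⊥ : Subfield ℝ))) := by
    intro x
    obtain ⟨q, hq⟩ := hex x
    refine ⟨q, ?_⟩
    rw [hq]
    apply Subtype.ext
    simp
  refine ⟨⊥, ?_, ?_, ?_⟩
  · -- finite dimensional
    have hsurj : Function.Surjective (Algebra.linearMap ℚ (⊥ : Subfield ℝ)) := by
      intro x
      obtain ⟨q, hq⟩ := hex2 x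
      refine ⟨q, ?_⟩
      rw [hq]
      simp
    exact Module.Finite.of_surjective _ hsurj
  · intro τ x
    obtain ⟨q, hq⟩ := hex2 x
    rw [hq, map_ratCast]
    exact Complex.ratCast_im q
  · obtain ⟨c, hc⟩ : ∃ c : (⊥ : Subfield ℝ), (c : ℝ) = -3/2 :=
      ⟨⟨((-3/2 : ℚ) : ℝ), hmem _⟩, by norm_num⟩
    let F : Matrix (Fin 4) (Fin 4) (⊥ : Subfield ℝ) :=
      !![0, c, 0, 0; c, 0, 0, 0; 0, 0, 1, 0; 0, 0, 0, 1]
    refine ⟨F, ?_, ?_, ?_⟩
    · ext i j
      fin_cases i <;> fin_cases j <;> simp [F]
    · intro σ hσ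
      exfalso
      apply hσ
      apply RingHom.ext
      intro x
      obtain ⟨q, hq⟩ := hex2 x
      rw [hq, map_ratCast, map_ratCast]
    · let P : V ≃ₗ[ℝ] V :=
        { toFun := fun x => mk (x 0) (x 1) (x 2) (x 3)
          map_add' := by
            intro x y
            ext i
            fin_cases i <;> simp [mk] <;> ring
          map_smul' := by
            intro a x
            ext i
            fin_cases i <;> simp [mk] <;> ring
          invFun := fun x => ![(x 0 + x 1) / √3, (x 0 - x 1) / √3, x 2, x 3]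
          left_inv := by
            intro x
            have h3 : √(3:ℝ) ≠ 0 := by positivity
            ext i
            fin_cases i
            · simp [mk]; field_simp; ring
            · simp [mk]; field_simp; ring
            · simp [mk]
            · simp [mk]
          right_inv := by
            intro x
            exact (mk_surj x).symm }
      have hP : ∀ x, P x = mk (x 0) (x 1) (x 2) (x 3) := fun x => rfl
      have hPs : ∀ U W y z : ℝ, P.symm (mk U W y z) = ![U, W, y, z] := by
        intro U W y z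
        rw [LinearEquiv.symm_apply_eq, hP]
        simp
      refine ⟨P, ?_, ?_⟩
      · intro x y
        rw [hP, hP, J_mk]
        simp [Fin.sum_univ_four, F, hc]
        ring
      · intro g hg i j
        have hr : IsRat (P (Pi.single j 1)) := by
          rw [hP]
          refine ⟨(Pi.single j 1 : Fin 4 → ℚ) 0, (Pi.single j 1 : Fin 4 → ℚ) 1,
            (Pi.single j 1 : Fin 4 → ℚ) 2, (Pi.single j 1 : Fin 4 → ℚ) 3, ?_⟩
          fin_cases j <;> simp
        obtain ⟨U, W, y, z, hU⟩ := h g hg _ hr
        rw [hU, hPs]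
        fin_cases i
        · exact hmem U
        · exact hmem W
        · exact hmem y
        · exact hmem z

end Pool.Agent.Helper132.H3Refl
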