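import Pool.Agent.Helper132.H3Refl.L1
import Pool.Agent.Helper132.H3Refl.N1
import Pool.Agent.Helper132.H3Refl.N2
import Pool.Agent.Helper132.H3Refl.Gam

set_option autoImplicit false
set_option linter.unusedVariables false
open scoped ENNReal
noncomputable section
namespace Pool.Agent.Helper132.H3Refl

theorem max_quasi (n : ℕ) (hn : 1 ≤ n) : ∃ M : Subgroup (V ≃ₗ[ℝ] V), MaxRefl M ∧ QuasiArith M ∧ Gam n ≤ M := by
  obtain ⟨M, hM, hG⟩ := exists_max n hn
  refine ⟨M, hM, quasi_of_rat ?_, hG⟩
  have key : ∀ g ∈ M, (∀ x, IsRat x → IsRat (g x)) ∧ (∀ x, IsRat x → IsRat (g⁻¹ x)) := by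
    intro g hg
    have hgen := hM.1.gen
    rw [hgen] at hg
    induction hg using Subgroup.closure_induction with
    | mem g hg =>
      have h1 := refl_rat n hn hM.1.le hM.1.discr hG hg.1 hg.2
      refine ⟨h1, ?_⟩
      have h2 : g⁻¹ = g := by
        obtain ⟨e, he, hge⟩ := hg.2
        rw [inv_eq_iff_mul_eq_one]
        apply LinearEquiv.ext
        intro x
        show g (g x) = x
        rw [hge, hge]
        exact refl_refl e x
      rw [h2]
      exact h1
    | one => exact ⟨fun x hx => hx, fun x hx => by simpa using hx⟩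
    | mul a b _ _ ha hb =>
      refine ⟨fun x hx => ha.1 _ (hb.1 _ hx), fun x hx => ?_⟩
      rw [mul_inv_rev]
      exact hb.2 _ (ha.2 _ hx)
    | inv a _ ha =>
      refine ⟨ha.2, fun x hx => ?_⟩
      rw [inv_inv]
      exact ha.1 x hx
  exact fun g hg => (key g hg).1

end Pool.Agent.Helper132.H3Refl
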