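import Pool.Agent.Helper132.H3Refl.A1
import Pool.Agent.Helper132.H3Refl.A2
import Pool.Agent.Helper132.H3Refl.B1
import Pool.Agent.Helper132.H3Refl.C1
import Pool.Agent.Helper132.H3Refl.D1

set_option autoImplicit false
set_option linter.unusedVariables false
open scoped ENNReal
noncomputable section
namespace Pool.Agent.Helper132.H3Refl

theorem rot_a {a b : V} (ha : 0 < J a a) (hb : 0 < J b b)
    (h : 9 * (J a b) ^ 2 = 8 * (J a a * J b b)) :
    reflE a (reflE b a) = (23 / 9 : ℝ) • a - (2 * J a b / J b b) • b := by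
  rw [reflE_apply b a, reflE_apply a, J_sub_left, J_smul_left, J_symm b a]
  have h1 : 2 * (J a a - 2 * J a b / J b b * J a b) / J a a = 2 - 32 / 9 := by
    field_simp
    nlinarith
  rw [h1]
  module

theorem rot_b {a b : V} (hb : 0 < J b b) :
    reflE a (reflE b b) = (2 * J a b / J a a) • a - b := by
  have h0 : reflE b b = -b := by
    rw [reflE_apply]
    have : 2 * J b b / J b b = 2 := by field_simp
    rw [this]
    module
  rw [h0, reflE_apply, J_neg_left, J_symm b a]
  have h1 : 2 * -J a b / J a a = -(2 * J a b / J a a) := by ring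
  rw [h1]
  module

theorem rot_aa {a b : V} (ha : 0 < J a a) (hb : 0 < J b b)
    (h : 9 * (J a b) ^ 2 = 8 * (J a a * J b b)) :
    reflE a (reflE b (reflE a (reflE b a))) = (14 / 9 : ℝ) • reflE a (reflE b a) - a := by
  have e1 : reflE a (reflE b (reflE a (reflE b a))) =
      (23 / 9 : ℝ) • reflE a (reflE b a) - (2 * J a b / J b b) • reflE a (reflE b b) := by
    conv_lhs => rw [rot_a ha hb h]
    rw [map_sub, map_sub, map_smul, map_smul, map_smul, map_smul]
  rw [e1, rot_b hb, rot_a ha hb h]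
  have h2 : (2 * J a b / J b b) * (2 * J a b / J a a) = 32 / 9 := by
    field_simp
    nlinarith
  have h3 : (2 * J a b / J b b) • ((2 * J a b / J a a) • a - b) =
      (32 / 9 : ℝ) • a - (2 * J a b / J b b) • b := by
    rw [smul_sub, smul_smul, h2]
  rw [h3]
  module

theorem rot_seq {a b : V} (ha : 0 < J a a) (hb : 0 < J b b)
    (h : 9 * (J a b) ^ 2 = 8 * (J a a * J b b)) (k : ℕ) :
    ∃ N M : ℤ, ¬ (3 ∣ N) ∧ ¬ (3 ∣ M) ∧
      (9 : ℝ) ^ k * J (((reflE a * reflE b) ^ k) a) a = N * J a a ∧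
      (9 : ℝ) ^ (k + 1) * J (((reflE a * reflE b) ^ (k + 1)) a) a = M * J a a := by
  induction k with
  | zero =>
    refine ⟨1, 7, by norm_num, by norm_num, ?_, ?_⟩
    · rw [pow_zero, pow_zero, one_mul, Int.cast_one, one_mul]; rfl
    · rw [zero_add, pow_one, pow_one]
      show 9 * J (reflE a (reflE b a)) a = _
      rw [rot_a ha hb h, J_sub_left, J_smul_left, J_smul_left, J_symm b a]
      have h1 : 2 * J a b / J b b * J a b = 16 / 9 * J a a := by
        field_simp
        nlinarith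
      rw [h1]
      push_cast
      ring
  | succ k ih =>
    obtain ⟨N, M, hN, hM, h1, h2⟩ := ih
    refine ⟨M, 14 * M - 81 * N, hM, by omega, h2, ?_⟩
    have h3 : ((reflE a * reflE b) ^ (k + 1 + 1)) a =
        (14 / 9 : ℝ) • ((reflE a * reflE b) ^ (k + 1)) a - ((reflE a * reflE b) ^ k) a := by
      have e1 : ((reflE a * reflE b) ^ (k + 1 + 1)) a =
          ((reflE a * reflE b) ^ k) (reflE a (reflE b (reflE a (reflE b a)))) := by
        rw [pow_succ, pow_succ]; rfl
      have e2 : ((reflE a * reflE b) ^ (k + 1)) a =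
          ((reflE a * reflE b) ^ k) (reflE a (reflE b a)) := by
        rw [pow_succ]; rfl
      rw [e1, e2, rot_aa ha hb h, map_sub, map_smul]
    rw [h3, J_sub_left, J_smul_left]
    push_cast
    have e3 : (9 : ℝ) ^ (k + 1 + 1) = 9 * 9 ^ (k + 1) := by rw [pow_succ]; ring
    have e4 : (9 : ℝ) ^ (k + 1 + 1) = 81 * 9 ^ k := by rw [pow_succ, pow_succ]; ring
    calc (9 : ℝ) ^ (k + 1 + 1) * (14 / 9 * J (((reflE a * reflE b) ^ (k + 1)) a) a -
          J (((reflE a * reflE b) ^ k) a) a) =
        (9 : ℝ) ^ (k + 1 + 1) * (14 / 9) * J (((reflE a * reflE b) ^ (k + 1)) a) a -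
          (9 : ℝ) ^ (k + 1 + 1) * J (((reflE a * reflE b) ^ k) a) a := by ring
      _ = 14 * ((9 : ℝ) ^ (k + 1) * J (((reflE a * reflE b) ^ (k + 1)) a) a) -
          81 * ((9 : ℝ) ^ k * J (((reflE a * reflE b) ^ k) a) a) := by
        nth_rewrite 1 [e3]
        rw [e4]
        ring
      _ = _ := by rw [h1, h2]; ring

theorem rot_infinite {a b : V} (ha : 0 < J a a) (hb : 0 < J b b) (h : 9 * (J a b) ^ 2 = 8 * (J a a * J b b))
    (k : ℕ) (hk : 1 ≤ k) : (reflE a * reflE b) ^ k ≠ 1 := by
  intro h1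
  obtain ⟨N, M, hN, _, h2, _⟩ := rot_seq ha hb h k
  rw [h1] at h2
  have h3 : ((1 : V ≃ₗ[ℝ] V)) a = a := rfl
  rw [h3] at h2
  have h4 : (9 : ℝ) ^ k = N := mul_right_cancel₀ ha.ne' h2
  have h5 : (9 : ℤ) ^ k = N := by exact_mod_cast h4
  apply hN
  rw [← h5]
  exact dvd_pow (by norm_num) (by omega)

theorem rot_fix {a b : V} (ha : 0 < J a a) (hb : 0 < J b b)
    (h : 9 * (J a b) ^ 2 = 8 * (J a a * J b b)) : ∃ y ∈ H3, J y a = 0 ∧ J y b = 0 := by
  set o : V := Pi.single 0 1 with ho
  have hoo : J o o = -1 := by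
    simp [ho, J]
  set A := J a a with hA
  set B := J b b with hB
  set c := J a b with hc
  have hAB : 0 < A * B := mul_pos ha hb
  set D := A * B - c ^ 2 with hD
  have hD0 : 0 < D := by rw [hD]; nlinarith
  set p := (B * J o a - c * J o b) / D with hp
  set q := (A * J o b - c * J o a) / D with hq
  set y1 : V := o - p • a - q • b with hy1
  have hba : J b a = c := by rw [J_symm b a]
  have hya : J y1 a = 0 := by
    rw [hy1, J_sub_left, J_sub_left, J_smul_left, J_smul_left, hba, ← hA, hp, hq]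
    field_simp
    rw [hD]; ring
  have hyb : J y1 b = 0 := by
    rw [hy1, J_sub_left, J_sub_left, J_smul_left, J_smul_left, ← hB, ← hc, hp, hq]
    field_simp
    rw [hD]; ring
  have hyy : J y1 y1 ≤ -1 := by
    have e1 : J y1 y1 = J y1 o := by
      nth_rewrite 2 [hy1]
      rw [J_sub_right, J_sub_right, J_smul_right, J_smul_right, hya, hyb]
      ring
    have e2 : J y1 o = -1 - (p * J o a + q * J o b) := by
      rw [hy1, J_sub_left, J_sub_left, J_smul_left, J_smul_left, hoo, J_symm a o, J_symm b o]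
      ring
    have e3 : p * J o a + q * J o b =
        (B * (J o a) ^ 2 - 2 * c * J o a * J o b + A * (J o b) ^ 2) / D := by
      rw [hp, hq]; field_simp; ring
    have e4 : 0 ≤ B * (J o a) ^ 2 - 2 * c * J o a * J o b + A * (J o b) ^ 2 := by
      have e5 : 0 ≤ B * (B * (J o a) ^ 2 - 2 * c * J o a * J o b + A * (J o b) ^ 2) := by
        have e6 : B * (B * (J o a) ^ 2 - 2 * c * J o a * J o b + A * (J o b) ^ 2) =
            (B * J o a - c * J o b) ^ 2 + D * (J o b) ^ 2 := by rw [hD]; ring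
        rw [e6]
        positivity
      exact nonneg_of_mul_nonneg_right e5 hb
    rw [e1, e2, e3]
    have e7 := div_nonneg e4 hD0.le
    linarith
  have hy10 : y1 0 ≠ 0 := by
    intro h0
    simp only [J] at hyy
    rw [h0] at hyy
    nlinarith [mul_self_nonneg (y1 1), mul_self_nonneg (y1 2), mul_self_nonneg (y1 3)]
  have hs : 0 < √(-J y1 y1) := Real.sqrt_pos.mpr (by linarith)
  have hs2 : √(-J y1 y1) * √(-J y1 y1) = -J y1 y1 := Real.mul_self_sqrt (by linarith)
  rcases lt_or_gt_of_ne hy10 with hneg | hpos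
  · refine ⟨(-(1 / √(-J y1 y1))) • y1, ⟨?_, ?_⟩, ?_, ?_⟩
    · rw [J_smul_left, J_smul_right]
      field_simp
      nlinarith
    · rw [Pi.smul_apply, smul_eq_mul]
      have : 0 < 1 / √(-J y1 y1) := by positivity
      nlinarith
    · rw [J_smul_left, hya, mul_zero]
    · rw [J_smul_left, hyb, mul_zero]
  · refine ⟨(1 / √(-J y1 y1)) • y1, ⟨?_, ?_⟩, ?_, ?_⟩
    · rw [J_smul_left, J_smul_right]
      field_simp
      nlinarith
    · rw [Pi.smul_apply, smul_eq_mul]
      positivity
    · rw [J_smul_left, hya, mul_zero]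
    · rw [J_smul_left, hyb, mul_zero]

theorem rot_contra {M : Subgroup (V ≃ₗ[ℝ] V)} (hM : M ≤ IsomH3) (hd : Discr M) {a b : V} (ha : 0 < J a a)
    (hb : 0 < J b b) (h : 9 * (J a b) ^ 2 = 8 * (J a a * J b b)) (h1 : reflE a ∈ M) (h2 : reflE b ∈ M) :
    False := by
  obtain ⟨y, hy, hya, hyb⟩ := rot_fix ha hb h
  obtain ⟨R, hR⟩ := isom_bdd y y hy hy 1
  have hfin := discr_finite hM hd R
  have hfix : ∀ k : ℕ, ((reflE a * reflE b) ^ k) y = y := by
    intro k
    induction k with
    | zero => rfl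
    | succ k ih =>
      have e1 : ((reflE a * reflE b) ^ (k + 1)) y =
          ((reflE a * reflE b) ^ k) (reflE a (reflE b y)) := by
        rw [pow_succ]; rfl
      have e2 : reflE b y = y := by rw [reflE_apply, hyb]; simp
      have e3 : reflE a y = y := by rw [reflE_apply, hya]; simp
      rw [e1, e2, e3, ih]
  have hmem : ∀ k : ℕ, (reflE a * reflE b) ^ k ∈ {g | g ∈ M ∧ bdd R g} := by
    intro k
    have hk : (reflE a * reflE b) ^ k ∈ M := M.pow_mem (M.mul_mem h1 h2) k
    refine ⟨hk, hR _ (hM hk) ?_⟩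
    rw [hfix k, hy.1]
    norm_num
  have hinj : Function.Injective (fun k : ℕ => (reflE a * reflE b) ^ k) := by
    intro i j hij
    simp only at hij
    by_contra hne
    rcases lt_or_gt_of_ne hne with hlt | hlt
    · obtain ⟨d, rfl⟩ := Nat.exists_eq_add_of_lt hlt
      have e : (reflE a * reflE b) ^ (d + 1) = 1 := by
        rw [add_assoc, pow_add] at hij
        exact (mul_eq_left.mp hij.symm)
      exact rot_infinite ha hb h (d + 1) (by omega) e
    · obtain ⟨d, rfl⟩ := Nat.exists_eq_add_of_lt hlt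
      have e : (reflE a * reflE b) ^ (d + 1) = 1 := by
        rw [add_assoc, pow_add] at hij
        exact (mul_eq_left.mp hij)
      exact rot_infinite ha hb h (d + 1) (by omega) e
  exact Set.infinite_of_injective_forall_mem hinj hmem hfin

end Pool.Agent.Helper132.H3Refl
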