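import Pool.Agent.Helper132.H3Refl.A1
import Pool.Agent.Helper132.H3Refl.A2
import Pool.Agent.Helper132.H3Refl.B1
import Pool.Agent.Helper132.H3Refl.C1
import Pool.Agent.Helper132.H3Refl.D1
import Pool.Agent.Helper132.H3Refl.O1

set_option autoImplicit false
set_option linter.unusedVariables false
open scoped ENNReal
noncomputable section
namespace Pool.Agent.Helper132.H3Refl

theorem o2_ww (n : ℕ) : reflE (ww n) gg = mk (4 / 3 * 9 ^ n) 0 0 1 := by
  rw [reflE_apply]
  have h1 : J gg (ww n) = -2 * 3 ^ n := by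
    rw [gg, ww, J_mk]; ring
  have h2 : J (ww n) (ww n) = 3 := by
    rw [ww, J_mk]
    have : (3:ℝ) ^ n * (1 / 3) ^ n = 1 := by rw [← mul_pow]; norm_num
    linear_combination 3 * this
  rw [h1, h2]
  have e9 : (9:ℝ) ^ n = 3 ^ n * 3 ^ n := by rw [← mul_pow]; norm_num
  have e3 : (3:ℝ) ^ n * (1 / 3) ^ n = 1 := by rw [← mul_pow]; norm_num
  ext i
  fin_cases i
  · simp [gg, ww, mk, e9]
    have e3' : (3:ℝ) ^ n * (3 ^ n)⁻¹ = 1 := by rw [mul_inv_cancel₀]; positivity
    linear_combination (-(2/3) * √3) * e3'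
  · simp [gg, ww, mk, e9]
    have e3' : (3:ℝ) ^ n * (3 ^ n)⁻¹ = 1 := by rw [mul_inv_cancel₀]; positivity
    linear_combination ((2/3) * √3) * e3'
  · simp [gg, ww, mk]
  · simp [gg, ww, mk]

theorem irrational {M : Subgroup (V ≃ₗ[ℝ] V)} (hM : M ≤ IsomH3) (hd : Discr M) {k : V ≃ₗ[ℝ] V}
    (hk : k ∈ IsomH3) (n : ℕ) (h1 : k * reflE (ww n) * k⁻¹ ∈ M) (h2 : k * reflE gg * k⁻¹ ∈ M)
    (h3 : k * reflE (ff (2 * n + 1)) * k⁻¹ ∈ M) : False := by
  have hww : J (ww n) (ww n) = 3 := by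
    rw [ww, J_mk]
    have : (3:ℝ) ^ n * (1 / 3) ^ n = 1 := by rw [← mul_pow]; norm_num
    linear_combination 3 * this
  have hwI : reflE (ww n) ∈ IsomH3 := reflE_isom (by rw [hww]; norm_num)
  have e1 : reflE (k (mk (4 / 3 * 9 ^ n) 0 0 1)) ∈ M := by
    have : k * reflE (ww n) * k⁻¹ * (k * reflE gg * k⁻¹) * (k * reflE (ww n) * k⁻¹)⁻¹ ∈ M :=
      mul_mem (mul_mem h1 h2) (inv_mem h1)
    have h : k * reflE (ww n) * k⁻¹ * (k * reflE gg * k⁻¹) * (k * reflE (ww n) * k⁻¹)⁻¹ =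
        k * (reflE (ww n) * reflE gg * (reflE (ww n))⁻¹) * k⁻¹ := by group
    rw [h, conj_reflE hwI, o2_ww, conj_reflE hk] at this
    exact this
  have e2 : reflE (k (ff (2 * n + 1))) ∈ M := by
    rw [conj_reflE hk] at h3
    exact h3
  have g1 : J (mk (4 / 3 * 9 ^ n) 0 0 1) (mk (4 / 3 * 9 ^ n) 0 0 1) = 1 := by
    rw [J_mk]; ring
  have g2 : J (ff (2 * n + 1)) (ff (2 * n + 1)) = 2 := by
    rw [ff, J_mk]
    have : (3:ℝ) ^ (2 * n + 1) * (1 / 3) ^ (2 * n + 1) = 1 := by rw [← mul_pow]; norm_num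
    linear_combination (-3) * this
  have g3 : J (mk (4 / 3 * 9 ^ n) 0 0 1) (ff (2 * n + 1)) = 4 / 3 := by
    rw [ff, J_mk]
    have : (9:ℝ) ^ n * (1 / 3) ^ (2 * n + 1) = 1 / 3 := by
      rw [pow_succ, pow_mul, ← mul_assoc, ← mul_pow]; norm_num
    linear_combination (-2) * this
  refine rot_contra hM hd (a := k (mk (4 / 3 * 9 ^ n) 0 0 1)) (b := k (ff (2 * n + 1))) ?_ ?_ ?_ e1 e2
  · rw [hk.1, g1]; norm_num
  · rw [hk.1, g2]; norm_num
  · rw [hk.1, hk.1, hk.1, g1, g2, g3]; norm_num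

theorem y0_vertex : mk 1 3 2 2 ∈ H3 ∧ J (mk 1 3 2 2) be = 0 ∧ J (mk 1 3 2 2) gg = 0 ∧ J (mk 1 3 2 2) (ff 0) = 0 ∧
    ∀ c : V, J c be = 0 → J c gg = 0 → J c (ff 0) = 0 → ∃ r : ℝ, c = r • mk 1 3 2 2 := by
  refine ⟨⟨?_, ?_⟩, ?_, ?_, ?_, ?_⟩
  · rw [J_mk]; norm_num
  · simp only [mk, Matrix.cons_val_zero]; positivity
  · rw [be, J_mk]; norm_num
  · rw [gg, J_mk]; norm_num
  · rw [ff, J_mk]; norm_num
  · intro c h1 h2 h3
    rw [mk_surj c] at h1 h2 h3
    rw [be, J_mk] at h1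
    rw [gg, J_mk] at h2
    rw [ff, J_mk] at h3
    set U := (c 0 + c 1) / √3 with hU
    set W := (c 0 - c 1) / √3 with hW
    refine ⟨U, ?_⟩
    rw [mk_surj c, ← hU, ← hW]
    have a1 : c 3 = 2 * U := by linarith
    have a2 : c 2 = 2 * U := by linarith
    have a3 : W = 3 * U := by
      norm_num at h3
      linarith
    rw [a1, a2, a3]
    ext i
    fin_cases i
    · simp [mk]; ring
    · simp [mk]; ring
    · simp [mk]; ring
    · simp [mk]; ring

/-- if two reflections agree then the vectors are proportional -/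
theorem o2_prop {a x : V} (hx : J x x ≠ 0) (h : reflE a = reflE x) : ∃ s : ℝ, x = s • a := by
  have h1 : reflE a x = reflE x x := by rw [h]
  rw [reflE_apply, reflE_apply] at h1
  have h2 : (2 * J x x / J x x) • x = (2:ℝ) • x := by
    congr 1; field_simp
  rw [h2] at h1
  refine ⟨J x a / J a a, ?_⟩
  have h3 : (2:ℝ) • x = (2 * J x a / J a a) • a := by
    have := congrArg (fun v => x - v) h1
    simpa using this.symm
  have h4 : x = (1 / 2 : ℝ) • ((2:ℝ) • x) := by rw [smul_smul]; norm_num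
  calc x = (1 / 2 : ℝ) • ((2:ℝ) • x) := h4
    _ = (1 / 2 : ℝ) • ((2 * J x a / J a a) • a) := by rw [h3]
    _ = (J x a / J a a) • a := by rw [smul_smul]; congr 1; ring

theorem centralizer_trivial {k k' : V ≃ₗ[ℝ] V} (hk : k ∈ IsomH3) (hk' : k' ∈ IsomH3)
    (h1 : k * reflE al * k⁻¹ = k' * reflE al * k'⁻¹) (h2 : k * reflE be * k⁻¹ = k' * reflE be * k'⁻¹)
    (h3 : k * reflE gg * k⁻¹ = k' * reflE gg * k'⁻¹) (h4 : k * reflE (ff 0) * k⁻¹ = k' * reflE (ff 0) * k'⁻¹) :
    k = k' := by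
  have hI : k'⁻¹ * k ∈ IsomH3 := mul_mem (inv_mem hk') hk
  set h := k'⁻¹ * k with hh
  have key : ∀ x : V, J x x ≠ 0 → k * reflE x * k⁻¹ = k' * reflE x * k'⁻¹ → ∃ s : ℝ, s ^ 2 = 1 ∧ h x = s • x := by
    intro x hx he
    have e1 : reflE (h x) = reflE x := by
      rw [← conj_reflE hI, hh]
      have : k'⁻¹ * k * reflE x * (k'⁻¹ * k)⁻¹ = k'⁻¹ * (k * reflE x * k⁻¹) * k' := by group
      rw [this, he]
      group
    obtain ⟨s, hs⟩ := o2_prop (a := x) (x := h x) (by rw [hI.1]; exact hx) e1.symm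
    refine ⟨s, ?_, hs⟩
    have e2 := hI.1 x x
    rw [hs, J_smul_left, J_smul_right] at e2
    have : (s ^ 2 - 1) * J x x = 0 := by linear_combination e2
    rcases mul_eq_zero.mp this with h | h
    · linarith
    · exact absurd h hx
  have q1 : J al al = 1 := by rw [al, J_mk]; norm_num
  have q2 : J be be = 2 := by rw [be, J_mk]; norm_num
  have q3 : J gg gg = 1 := by rw [gg, J_mk]; norm_num
  have q4 : J (ff 0) (ff 0) = 2 := by rw [ff, J_mk]; norm_num
  obtain ⟨s1, t1, u1⟩ := key al (by rw [q1]; norm_num) h1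
  obtain ⟨s2, t2, u2⟩ := key be (by rw [q2]; norm_num) h2
  obtain ⟨s3, t3, u3⟩ := key gg (by rw [q3]; norm_num) h3
  obtain ⟨s4, t4, u4⟩ := key (ff 0) (by rw [q4]; norm_num) h4
  have p12 : J al be = -1 := by rw [al, be, J_mk]; norm_num
  have p23 : J be gg = -1 := by rw [gg, be, J_mk]; norm_num
  have p24 : J be (ff 0) = -1 := by rw [ff, be, J_mk]; norm_num
  have r12 : s1 * s2 = 1 := by
    have := hI.1 al be
    rw [u1, u2, J_smul_left, J_smul_right, p12] at this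
    linarith
  have r23 : s2 * s3 = 1 := by
    have := hI.1 be gg
    rw [u2, u3, J_smul_left, J_smul_right, p23] at this
    linarith
  have r24 : s2 * s4 = 1 := by
    have := hI.1 be (ff 0)
    rw [u2, u4, J_smul_left, J_smul_right, p24] at this
    linarith
  have s12 : s1 = s2 := by
    have : s1 * (s2 * s2) = s2 := by rw [← mul_assoc, r12, one_mul]
    rw [← sq, t2, mul_one] at this
    exact this
  have s32 : s3 = s2 := by
    have : (s2 * s2) * s3 = s2 := by rw [mul_assoc, r23, mul_one]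
    rw [← sq, t2, one_mul] at this
    exact this
  have s42 : s4 = s2 := by
    have : (s2 * s2) * s4 = s2 := by rw [mul_assoc, r24, mul_one]
    rw [← sq, t2, one_mul] at this
    exact this
  rw [s12] at u1
  rw [s32] at u3
  rw [s42] at u4
  have hall : ∀ x, h x = s2 • x := by
    intro x
    -- `x = a al + b be + c gg + d (ff 0)`
    have hx : ∃ a b c d : ℝ, x = a • al + b • be + c • gg + d • ff 0 := by
      rw [mk_surj x]
      set U := (x 0 + x 1) / √3
      set W := (x 0 - x 1) / √3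
      refine ⟨(-(x 3) + 3 / 4 * (W - U) + 2 * U) + U - x 2, -(x 3) + 3 / 4 * (W - U) + 2 * U, 3 / 4 * (W - U), U, ?_⟩
      ext i
      fin_cases i
      · simp [al, be, gg, ff, mk]; ring
      · simp [al, be, gg, ff, mk]; ring
      · simp [al, be, gg, ff, mk]; ring
      · simp [al, be, gg, ff, mk]; ring
    obtain ⟨a, b, c, d, hx⟩ := hx
    rw [hx]
    simp only [map_add, map_smul, u1, u2, u3, u4, smul_add, smul_smul]
    congr 1
    · congr 1
      · congr 1
        · rw [mul_comm]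
        · rw [mul_comm]
      · rw [mul_comm]
    · rw [mul_comm]
  have hs : s2 = 1 := by
    have o : (mk 1 3 2 2) ∈ H3 := y0_vertex.1
    have := (hI.2 _ o).2
    rw [hall] at this
    have ho := o.2
    have h5 : 0 < s2 * (mk 1 3 2 2) 0 := this
    have h6 : 0 < s2 := by
      by_contra hneg
      have : s2 * (mk 1 3 2 2) 0 ≤ 0 := mul_nonpos_of_nonpos_of_nonneg (not_lt.mp hneg) ho.le
      linarith
    nlinarith
  have hone : h = 1 := by
    apply LinearEquiv.ext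
    intro x
    rw [hall, hs, one_smul]
    rfl
  rw [hh] at hone
  have : k' * (k'⁻¹ * k) = k' * 1 := by rw [hone]
  rw [mul_one, mul_inv_cancel_left] at this
  exact this

end Pool.Agent.Helper132.H3Refl
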