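import Pool.Agent.Helper132.H3Refl.A1
import Pool.Agent.Helper132.H3Refl.A2
import Pool.Agent.Helper132.H3Refl.B1
import Pool.Agent.Helper132.H3Refl.C1
import Pool.Agent.Helper132.H3Refl.D1
import Pool.Agent.Helper132.H3Refl.E3
import Pool.Agent.Helper132.H3Refl.Gam
import Pool.Agent.Helper132.H3Refl.H1
import Pool.Agent.Helper132.H3Refl.H3
import Pool.Agent.Helper132.H3Refl.I2
import Pool.Agent.Helper132.H3Refl.O2

set_option autoImplicit false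
set_option linter.unusedVariables false
open scoped ENNReal
noncomputable section
namespace Pool.Agent.Helper132.H3Refl

theorem fo_inv_apply (k : V ≃ₗ[ℝ] V) (x : V) : k (k⁻¹ x) = x := by
  show (k * k⁻¹) x = x
  rw [mul_inv_cancel]
  rfl

theorem fo_J_inv {k : V ≃ₗ[ℝ] V} (hk : k ∈ IsomH3) (x y : V) : J (k⁻¹ x) y = J x (k y) := by
  rw [← hk.1 (k⁻¹ x) y, fo_inv_apply]

theorem fo_J_single (x : V) (j : Fin 4) : |J x (Pi.single j 1)| = |x j| := by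
  fin_cases j <;> simp [J]

theorem fo_bdd_inv {k : V ≃ₗ[ℝ] V} (hk : k ∈ IsomH3) {R : ℝ} (h : bdd R k) : bdd R k⁻¹ := by
  intro i j
  rw [← fo_J_single, fo_J_inv hk, J_symm, fo_J_single]
  exact h j i

theorem fo_expand (g : V ≃ₗ[ℝ] V) (x : V) (j : Fin 4) :
    g x j = ∑ l, x l * g (Pi.single l 1) j := by
  have h1 : x = ∑ l, x l • (Pi.single l (1 : ℝ) : V) := by
    ext i
    simp [Finset.sum_apply, Pi.single_apply]
  conv_lhs => rw [h1]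
  rw [map_sum, Finset.sum_apply]
  apply Finset.sum_congr rfl
  intro l _
  rw [map_smul]
  rfl

theorem fo_bdd_nonneg {R : ℝ} {g : V ≃ₗ[ℝ] V} (h : bdd R g) : 0 ≤ R :=
  (abs_nonneg _).trans (h 0 0)

theorem fo_apply_bdd {R A : ℝ} {g : V ≃ₗ[ℝ] V} (h : bdd R g) {x : V} (hx : ∀ i, |x i| ≤ A)
    (j : Fin 4) : |g x j| ≤ 4 * (A * R) := by
  rw [fo_expand]
  refine (Finset.abs_sum_le_sum_abs _ _).trans ?_
  calc ∑ l, |x l * g (Pi.single l 1) j| ≤ ∑ l : Fin 4, A * R := by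
        apply Finset.sum_le_sum
        intro l _
        rw [abs_mul]
        have hA : 0 ≤ A := (abs_nonneg _).trans (hx l)
        exact mul_le_mul (hx l) (h l j) (abs_nonneg _) hA
    _ = 4 * (A * R) := by simp

theorem fo_bdd_mul {R R' : ℝ} {g g' : V ≃ₗ[ℝ] V} (h : bdd R g) (h' : bdd R' g') :
    bdd (4 * (R' * R)) (g * g') := by
  intro i j
  show |g (g' (Pi.single i 1)) j| ≤ _
  exact fo_apply_bdd h (fun l => h' i l) j

theorem fo_bdd_exists (g : V ≃ₗ[ℝ] V) : ∃ R, bdd R g := by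
  refine ⟨∑ i, ∑ j, |g (Pi.single i 1) j|, fun i j => ?_⟩
  calc |g (Pi.single i 1) j| ≤ ∑ j, |g (Pi.single i 1) j| :=
        Finset.single_le_sum (f := fun j => |g (Pi.single i 1) j|) (fun _ _ => abs_nonneg _)
          (Finset.mem_univ j)
    _ ≤ _ := Finset.single_le_sum (f := fun i => ∑ j, |g (Pi.single i 1) j|)
          (fun _ _ => Finset.sum_nonneg (fun _ _ => abs_nonneg _)) (Finset.mem_univ i)

theorem fo_idv_finite (n : ℕ) : (idv n).Finite := by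
  have h : idv n ⊆ insert NN (cc '' Set.Iio n) := by
    rintro c (h | ⟨j, hj, h⟩)
    · exact Or.inl h
    · exact Or.inr ⟨j, hj, h.symm⟩
  exact (((Set.finite_Iio n).image cc).insert NN).subset h

theorem fo_common (n : ℕ) : ∃ B : ℝ, ∀ c ∈ idv n, ∃ (t : V) (T : V ≃ₗ[ℝ] V), T ∈ Gam n ∧
    IsEi T c t ∧ J c t = 0 ∧ 0 < J t t ∧ J t t ≤ B := by
  classical
  choose! t T h using fun (c : V) (hc : c ∈ idv n) => idv_trans hc
  obtain ⟨B, hB⟩ := ((fo_idv_finite n).image (fun c => J (t c) (t c))).bddAbove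
  refine ⟨B, fun c hc => ⟨t c, T c, (h c hc).1, (h c hc).2.1, (h c hc).2.2.1, (h c hc).2.2.2, ?_⟩⟩
  exact hB ⟨c, hc, rfl⟩

theorem fo_gen (m : ℕ) (i : Fin 4 ⊕ Fin (m + 1)) : reflE (EE m i) ∈ Gam m :=
  Subgroup.subset_closure ⟨i, rfl⟩

theorem fo_bound (n : ℕ) (hn : 1 ≤ n) {M : Subgroup (V ≃ₗ[ℝ] V)} (hM : M ≤ IsomH3) (hd : Discr M)
    (hG : Gam n ≤ M) : ∃ R : ℝ, ∀ m : ℕ, (∃ k ∈ IsomH3, ∀ γ ∈ Gam m, k * γ * k⁻¹ ∈ M) →
      ∃ k ∈ IsomH3, (∀ γ ∈ Gam m, k * γ * k⁻¹ ∈ M) ∧ bdd R k := by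
  obtain ⟨hy0, hyb, hyg, hyf, hyu⟩ := y0_vertex
  obtain ⟨y0, hy0d⟩ : ∃ y0, y0 = mk 1 3 2 2 := ⟨_, rfl⟩
  rw [← hy0d] at hy0 hyb hyg hyf hyu
  obtain ⟨B, hB⟩ := fo_common n
  obtain ⟨ε, hε⟩ : ∃ ε : ℝ, ε = 1 / (|B| + 1) := ⟨_, rfl⟩
  have hB0 := abs_nonneg B
  have hε0 : 0 < ε := by rw [hε]; positivity
  have hBε : B * ε ^ 2 < 1 := by
    have h1 : B ≤ |B| := le_abs_self B
    have h2 : (|B| + 1) * ε = 1 := by rw [hε]; field_simp
    have h3 : ε ≤ 1 := by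
      rw [hε, div_le_one (by positivity)]
      linarith
    have h4 : B * ε ^ 2 ≤ |B| * ε ^ 2 := mul_le_mul_of_nonneg_right h1 (by positivity)
    have h5 : |B| * ε ^ 2 = (|B| * ε) * ε := by ring
    have h6 : |B| * ε = 1 - ε := by linarith
    rw [h5, h6] at h4
    nlinarith
  obtain ⟨C, hC⟩ := cusp_or_bdd n ε hε0
  obtain ⟨R, hR⟩ := isom_bdd y0 y0 hy0 hy0 (|C| * (|y0 0| + |y0 1| + |y0 2| + |y0 3|))
  refine ⟨R, fun m => ?_⟩
  rintro ⟨k, hk, hkM⟩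
  obtain ⟨h, hh, hhP⟩ := Gam_cover n hn (hk.2 y0 hy0)
  have hhI : h ∈ IsomH3 := Gam_le n hh
  obtain ⟨k', hk'⟩ : ∃ k', k' = h * k := ⟨_, rfl⟩
  have hk'I : k' ∈ IsomH3 := by rw [hk']; exact mul_mem hhI hk
  have hk'M : ∀ γ ∈ Gam m, k' * γ * k'⁻¹ ∈ M := by
    intro γ hγ
    have h1 : k' * γ * k'⁻¹ = h * (k * γ * k⁻¹) * h⁻¹ := by
      rw [hk', mul_inv_rev]
      group
    rw [h1]
    exact mul_mem (mul_mem (hG hh) (hkM γ hγ)) (inv_mem (hG hh))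
  refine ⟨k', hk'I, hk'M, hR k' hk'I ?_⟩
  have hdP : k' y0 ∈ PP n := by rw [hk']; exact hhP
  have hdH : k' y0 ∈ H3 := hk'I.2 y0 hy0
  rcases hC (k' y0) hdP with ⟨c, hc, hcε⟩ | hbd
  · exfalso
    obtain ⟨hc0, hc1⟩ := idv_null hc
    obtain ⟨t, T, hT, hTE, hct, htt, htB⟩ := hB c hc
    have hneg : J c (k' y0) < 0 := causal_neg hc0.le hc1 (by rw [hdH.1]; norm_num) hdH.2
    rw [J_symm] at hneg
    have hdeep : J t t * (J (k' y0) c) ^ 2 < 1 := by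
      have h1 : (J (k' y0) c) ^ 2 ≤ ε ^ 2 := by nlinarith
      have h2 : J t t * (J (k' y0) c) ^ 2 ≤ B * ε ^ 2 :=
        mul_le_mul htB h1 (sq_nonneg _) (htt.le.trans htB)
      linarith
    have hkey : ∀ e : V, 0 < J e e → reflE e ∈ Gam m → J y0 e = 0 → J (k'⁻¹ c) e = 0 := by
      intro e he heG hye
      have h1 : reflE (k' e) ∈ M := by
        rw [← conj_reflE hk'I]
        exact hk'M _ heG
      have h2 := shimizu_refl hM hd hc0 hc1 hct htt (hG hT) hTE (e := k' e)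
        (by rw [hk'I.1]; exact he) h1 hdH (by rw [hk'I.1]; exact hye) hdeep
      rw [fo_J_inv hk'I]
      exact h2
    have hb := hkey be (EE_pos m (Sum.inl 1)) (fo_gen m (Sum.inl 1)) hyb
    have hg := hkey gg (EE_pos m (Sum.inl 2)) (fo_gen m (Sum.inl 2)) hyg
    have hf := hkey (ff 0) (EE_pos m (Sum.inr 0)) (fo_gen m (Sum.inr 0)) hyf
    obtain ⟨r, hr⟩ := hyu _ hb hg hf
    have h1 : J (k'⁻¹ c) (k'⁻¹ c) = 0 := by
      rw [fo_J_inv hk'I, fo_inv_apply]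
      exact hc0
    rw [hr, J_smul_left, J_smul_right, hy0.1] at h1
    have hr0 : r = 0 := by nlinarith [sq_nonneg r]
    rw [hr0, zero_smul] at hr
    have h2 := fo_inv_apply k' c
    rw [hr, map_zero] at h2
    rw [← h2] at hc1
    simp at hc1
  · have hCC : ∀ i, |(k' y0) i| ≤ |C| := fun i => (hbd i).trans (le_abs_self C)
    have h0 : ∀ i, -((k' y0) i * y0 i) ≤ |C| * |y0 i| ∧ (k' y0) i * y0 i ≤ |C| * |y0 i| := by
      intro i
      have h1 : |(k' y0) i * y0 i| ≤ |C| * |y0 i| := by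
        rw [abs_mul]
        exact mul_le_mul_of_nonneg_right (hCC i) (abs_nonneg _)
      rw [abs_le] at h1
      exact ⟨by linarith, h1.2⟩
    have a0 := h0 0
    have a1 := h0 1
    have a2 := h0 2
    have a3 := h0 3
    unfold J
    have hexp : |C| * (|y0 0| + |y0 1| + |y0 2| + |y0 3|) =
      |C| * |y0 0| + |C| * |y0 1| + |C| * |y0 2| + |C| * |y0 3| := by ring
    rw [hexp]
    linarith

theorem fin_orbits (n : ℕ) (hn : 1 ≤ n) {M : Subgroup (V ≃ₗ[ℝ] V)} (hM : M ≤ IsomH3) (hd : Discr M)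
    (hG : Gam n ≤ M) : {m : ℕ | ∃ k ∈ IsomH3, ∀ γ ∈ Gam m, k * γ * k⁻¹ ∈ M}.Finite := by
  classical
  obtain ⟨R, hR⟩ := fo_bound n hn hM hd hG
  choose! k hkI hkM hkb using hR
  obtain ⟨S, hS⟩ : ∃ S : Set ℕ, S = {m : ℕ | ∃ k ∈ IsomH3, ∀ γ ∈ Gam m, k * γ * k⁻¹ ∈ M} :=
    ⟨_, rfl⟩
  have hSm : ∀ m ∈ S, ∃ k ∈ IsomH3, ∀ γ ∈ Gam m, k * γ * k⁻¹ ∈ M := by
    intro m hm
    rw [hS] at hm
    exact hm
  rw [← hS]
  -- finiteness of the images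
  have himg : ∀ e : V, (∀ m, reflE e ∈ Gam m) → ((fun m => k m * reflE e * (k m)⁻¹) '' S).Finite := by
    intro e he
    obtain ⟨Re, hRe⟩ := fo_bdd_exists (reflE e)
    apply (discr_finite hM hd (4 * (R * (4 * (Re * R))))).subset
    rintro _ ⟨m, hm, rfl⟩
    refine ⟨hkM m (hSm m hm) _ (he m), ?_⟩
    exact fo_bdd_mul (fo_bdd_mul (hkb m (hSm m hm)) hRe)
      (fo_bdd_inv (hkI m (hSm m hm)) (hkb m (hSm m hm)))
  have h1 := himg al (fun m => fo_gen m (Sum.inl 0))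
  have h2 := himg be (fun m => fo_gen m (Sum.inl 1))
  have h3 := himg gg (fun m => fo_gen m (Sum.inl 2))
  have h4 := himg (ff 0) (fun m => fo_gen m (Sum.inr 0))
  apply Set.Finite.of_finite_fibers (fun m => (k m * reflE al * (k m)⁻¹,
    k m * reflE be * (k m)⁻¹, k m * reflE gg * (k m)⁻¹, k m * reflE (ff 0) * (k m)⁻¹))
  · apply (h1.prod (h2.prod (h3.prod h4))).subset
    rintro _ ⟨m, hm, rfl⟩
    exact ⟨⟨m, hm, rfl⟩, ⟨m, hm, rfl⟩, ⟨m, hm, rfl⟩, ⟨m, hm, rfl⟩⟩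
  · rintro _ ⟨n1, hn1, rfl⟩
    apply (Set.finite_Iio (2 * n1 + 1)).subset
    rintro m ⟨hm, hmf⟩
    rw [Set.mem_Iio]
    by_contra hlt
    push Not at hlt
    simp only [Set.mem_preimage, Set.mem_singleton_iff, Prod.mk.injEq] at hmf
    obtain ⟨e1, e2, e3, e4⟩ := hmf
    have hkk : k m = k n1 :=
      centralizer_trivial (hkI m (hSm m hm)) (hkI n1 (hSm n1 hn1)) e1 e2 e3 e4
    apply irrational hM hd (hkI n1 (hSm n1 hn1)) n1
    · exact hkM n1 (hSm n1 hn1) _ (fo_gen n1 (Sum.inl 3))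
    · exact hkM n1 (hSm n1 hn1) _ (fo_gen n1 (Sum.inl 2))
    · rw [← hkk]
      exact hkM m (hSm m hm) _ (fo_gen m (Sum.inr ⟨2 * n1 + 1, by omega⟩))

end Pool.Agent.Helper132.H3Refl
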